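import Mathlib

open Finset

namespace Pool.Agent.Helper4.Disc

/-- The `m`-th digit (`m ≥ 1`, least significant first) of `n` in base `b`. -/
def dg (b n m : ℕ) : ℕ := n / b ^ (m - 1) % b

/-- Number formed by the first `p` digits `d 1, ..., d p` (most significant first). -/
def top (b : ℕ) (d : ℕ → ℕ) : ℕ → ℕ
  | 0 => 0
  | p + 1 => b * top b d p + d (p + 1)

/-- Number whose lowest digits are `d 1, ..., d p` (least significant first). -/
def low (b : ℕ) (d : ℕ → ℕ) (p : ℕ) : ℕ := ∑ m ∈ range p, d (m + 1) * b ^ m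

lemma sum_range_mul' (A B : ℕ) (g : ℕ → ℝ) :
    ∑ n ∈ range (A * B), g n = ∑ a ∈ range A, ∑ r ∈ range B, g (a * B + r) := by
  induction A with
  | zero => simp
  | succ A ih => rw [Nat.succ_mul, sum_range_add, ih, sum_range_succ]

lemma telescope (T : ℕ → ℝ) (D : ℕ → ℝ) (M : ℕ) (h : ∀ l < M, T l = T (l + 1) + D (l + 1)) :
    T 0 = ∑ l ∈ Icc 1 M, D l + T M := by
  induction M with
  | zero => simp
  | succ M ih =>
    rw [ih (fun l hl => h l (by omega)), h M (by omega), sum_Icc_succ_top (by omega)]
    ring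

lemma dg_lt {b : ℕ} (hb : 0 < b) (n m : ℕ) : dg b n m < b := Nat.mod_lt _ hb

/-- Decomposition of the range `[0, N)` into `b`-adic blocks. -/
lemma sum_time_decomp {b : ℕ} (hb : 0 < b) (M N : ℕ) (hN : N < b ^ M) (g : ℕ → ℝ) :
    ∑ n ∈ range N, g n = ∑ l ∈ Icc 1 M, ∑ k ∈ range (dg b N l), ∑ r ∈ range (b ^ (l - 1)),
      g ((N / b ^ l * b + k) * b ^ (l - 1) + r) := by
  have key := telescope (fun l => ∑ n ∈ range (N / b ^ l * b ^ l), g n)
    (fun l => ∑ k ∈ range (dg b N l), ∑ r ∈ range (b ^ (l - 1)),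
      g ((N / b ^ l * b + k) * b ^ (l - 1) + r)) M (by
    intro l _
    have e1 : N / b ^ l = N / b ^ (l + 1) * b + dg b N (l + 1) := by
      unfold dg
      rw [Nat.add_sub_cancel, pow_succ, ← Nat.div_div_eq_div_mul, mul_comm, Nat.div_add_mod]
    have e2 : N / b ^ l * b ^ l = N / b ^ (l + 1) * b ^ (l + 1) + dg b N (l + 1) * b ^ l := by
      rw [e1, add_mul, pow_succ]
      ring
    rw [e2, sum_range_add, sum_range_mul' (dg b N (l + 1)) (b ^ l)]
    congr 1
    apply sum_congr rfl
    intro k _
    rw [Nat.add_sub_cancel]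
    apply sum_congr rfl
    intro r _
    congr 1
    rw [pow_succ]
    ring)
  rw [pow_zero, Nat.div_one, mul_one, Nat.div_eq_of_lt hN] at key
  simpa using key

lemma low_succ (b : ℕ) (d : ℕ → ℕ) (p : ℕ) : low b d (p + 1) = low b d p + d (p + 1) * b ^ p := by
  unfold low; rw [sum_range_succ]

lemma low_lt {b : ℕ} (hb : 0 < b) (d : ℕ → ℕ) (hd : ∀ m, d m < b) (p : ℕ) : low b d p < b ^ p := by
  induction p with
  | zero => simp [low]
  | succ p ih =>
    rw [low_succ, pow_succ]
    have := hd (p + 1)
    calc low b d p + d (p + 1) * b ^ p < b ^ p + d (p + 1) * b ^ p := by omega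
      _ = (d (p + 1) + 1) * b ^ p := by ring
      _ ≤ b * b ^ p := Nat.mul_le_mul_right _ this
      _ = b ^ p * b := by ring

/-- Decomposition of `[0, b^L)` according to the first low digit that differs from `d`. -/
lemma sum_low_decomp {b : ℕ} (hb : 0 < b) (d : ℕ → ℕ) (hd : ∀ m, d m < b) (L : ℕ) (G : ℕ → ℝ) :
    ∑ r ∈ range (b ^ L), G r = ∑ p ∈ Icc 1 L, ∑ i ∈ (range b).erase (d p),
      ∑ u ∈ range (b ^ (L - p)), G (low b d (p - 1) + i * b ^ (p - 1) + b ^ p * u)
      + G (low b d L) := by
  have key := telescope (fun p => ∑ u ∈ range (b ^ (L - p)), G (low b d p + b ^ p * u))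
    (fun p => ∑ i ∈ (range b).erase (d p),
      ∑ u ∈ range (b ^ (L - p)), G (low b d (p - 1) + i * b ^ (p - 1) + b ^ p * u)) L (by
    intro p hp
    rw [Nat.add_sub_cancel]
    have e1 : b ^ (L - p) = b ^ (L - (p + 1)) * b := by
      rw [← pow_succ]; congr 1; omega
    rw [e1, sum_range_mul', sum_comm]
    rw [← add_sum_erase (range b) _ (mem_range.mpr (hd (p + 1)))]
    congr 1
    · apply sum_congr rfl
      intro u _
      congr 1
      rw [low_succ, pow_succ]
      ring
    · apply sum_congr rfl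
      intro i _
      apply sum_congr rfl
      intro u _
      congr 1
      rw [pow_succ]
      ring)
  have e0 : ∑ u ∈ range (b ^ (L - 0)), G (low b d 0 + b ^ 0 * u) = ∑ r ∈ range (b ^ L), G r := by
    apply sum_congr (by simp)
    intro u _
    simp [low]
  rw [e0] at key
  rw [key]
  congr 1
  simp

lemma dg_add_low {b : ℕ} (hb : 0 < b) (c p w m : ℕ) (hm1 : 1 ≤ m) (hm : m ≤ p) :
    dg b (c + b ^ p * w) m = dg b c m := by
  unfold dg
  have e1 : b ^ p * w = b ^ (m - 1) * (b * (b ^ (p - m) * w)) := by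
    have : p = (m - 1) + 1 + (p - m) := by omega
    conv_lhs => rw [this, pow_add, pow_succ]
    ring
  rw [e1, Nat.add_mul_div_left _ _ (pow_pos hb _), Nat.add_mul_mod_self_left]

lemma dg_add_high {b : ℕ} (hb : 0 < b) (c p w m : ℕ) (hc : c < b ^ p) (hm : p < m) :
    dg b (c + b ^ p * w) m = dg b w (m - p) := by
  unfold dg
  have e1 : m - 1 = p + (m - p - 1) := by omega
  rw [e1, pow_add, ← Nat.div_div_eq_div_mul, Nat.add_mul_div_left _ _ (pow_pos hb _),
    Nat.div_eq_of_lt hc, Nat.zero_add]

lemma dg_low {b : ℕ} (hb : 0 < b) (d : ℕ → ℕ) (hd : ∀ m, d m < b) (p m : ℕ) (hm1 : 1 ≤ m)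
    (hm : m ≤ p) : dg b (low b d p) m = d m := by
  induction p with
  | zero => omega
  | succ p ih =>
    rw [low_succ, mul_comm]
    rcases Nat.lt_or_ge m (p + 1) with h | h
    · rw [dg_add_low hb _ _ _ _ hm1 (by omega)]
      exact ih (by omega)
    · have : m = p + 1 := by omega
      subst this
      rw [dg_add_high hb _ _ _ _ (low_lt hb d hd p) (by omega)]
      have : p + 1 - p = 1 := by omega
      rw [this]
      unfold dg
      simp [Nat.mod_eq_of_lt (hd (p + 1))]

lemma dg_eq_zero {b : ℕ} (hb : 1 < b) (n M m : ℕ) (hn : n < b ^ M) (hm : M < m) : dg b n m = 0 := by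
  unfold dg
  rw [Nat.div_eq_of_lt, Nat.zero_mod]
  exact lt_of_lt_of_le hn (Nat.pow_le_pow_right (by omega) (by omega))

/-- digits determine the number -/
lemma eq_of_dg_eq {b : ℕ} (hb : 1 < b) (M : ℕ) : ∀ n n' : ℕ, n < b ^ M → n' < b ^ M →
    (∀ m, 1 ≤ m → m ≤ M → dg b n m = dg b n' m) → n = n' := by
  induction M with
  | zero => intro n n' hn hn' _; simp at hn hn'; omega
  | succ M ih =>
    intro n n' hn hn' h
    have h1 := h 1 le_rfl (by omega)
    unfold dg at h1
    simp at h1
    have h2 : n / b = n' / b := by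
      apply ih
      · rw [Nat.div_lt_iff_lt_mul (by omega)]; rwa [pow_succ] at hn
      · rw [Nat.div_lt_iff_lt_mul (by omega)]; rwa [pow_succ] at hn'
      · intro m hm1 hm
        have h3 := h (m + 1) (by omega) (by omega)
        unfold dg at h3 ⊢
        rw [Nat.div_div_eq_div_mul, Nat.div_div_eq_div_mul, ← pow_succ']
        have : m - 1 + 1 = m + 1 - 1 := by omega
        rw [this]
        exact h3
    rw [← Nat.div_add_mod n b, ← Nat.div_add_mod n' b, h1, h2]

section Top

variable {b : ℕ}

lemma top_succ (d : ℕ → ℕ) (p : ℕ) : top b d (p + 1) = b * top b d p + d (p + 1) := rfl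

lemma top_lt (hb : 0 < b) (d : ℕ → ℕ) (hd : ∀ m, d m < b) (p : ℕ) : top b d p < b ^ p := by
  induction p with
  | zero => simp [top]
  | succ p ih =>
    rw [top_succ, pow_succ]
    have := hd (p + 1)
    calc b * top b d p + d (p + 1) < b * top b d p + b := by omega
      _ = b * (top b d p + 1) := by ring
      _ ≤ b * b ^ p := Nat.mul_le_mul_left _ ih
      _ = b ^ p * b := by ring

lemma top_lt_top (hb : 0 < b) (d d' : ℕ → ℕ) (hd : ∀ m, d m < b) (p M : ℕ) (hpM : p ≤ M)
    (h : top b d p < top b d' p) : top b d M < top b d' M := by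
  induction M with
  | zero =>
    have : p = 0 := by omega
    subst this; exact h
  | succ M ih =>
    rcases Nat.lt_or_ge p (M + 1) with h1 | h1
    · have := ih (by omega)
      rw [top_succ, top_succ]
      have h2 := hd (M + 1)
      calc b * top b d M + d (M + 1) < b * top b d M + b := by omega
        _ = b * (top b d M + 1) := by ring
        _ ≤ b * top b d' M := Nat.mul_le_mul_left _ this
        _ ≤ _ := by omega
    · have : p = M + 1 := by omega
      subst this; exact h

lemma top_congr (d d' : ℕ → ℕ) (p : ℕ) (h : ∀ m, 1 ≤ m → m ≤ p → d m = d' m) :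
    top b d p = top b d' p := by
  induction p with
  | zero => rfl
  | succ p ih =>
    rw [top_succ, top_succ, ih (fun m h1 h2 => h m h1 (by omega)), h (p + 1) (by omega) le_rfl]

lemma digits_eq_of_top_eq (hb : 0 < b) (d d' : ℕ → ℕ) (hd : ∀ m, d m < b) (hd' : ∀ m, d' m < b)
    (p : ℕ) (h : top b d p = top b d' p) : ∀ m, 1 ≤ m → m ≤ p → d m = d' m := by
  induction p with
  | zero => intro m h1 h2; omega
  | succ p ih =>
    rw [top_succ, top_succ] at h
    have h1 : top b d p = top b d' p := by
      have e1 : (b * top b d p + d (p + 1)) / b = top b d p := by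
        rw [Nat.mul_add_div hb, Nat.div_eq_of_lt (hd _), Nat.add_zero]
      have e2 : (b * top b d' p + d' (p + 1)) / b = top b d' p := by
        rw [Nat.mul_add_div hb, Nat.div_eq_of_lt (hd' _), Nat.add_zero]
      rw [← e1, ← e2, h]
    intro m hm1 hm2
    rcases Nat.lt_or_ge m (p + 1) with h3 | h3
    · exact ih h1 m hm1 (by omega)
    · have : m = p + 1 := by omega
      subst this
      rw [h1] at h
      omega

/-- digits (most significant first) of the target `X < b^M` -/
def tdg (b M X m : ℕ) : ℕ := if m ≤ M then X / b ^ (M - m) % b else 0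

lemma tdg_lt (hb : 0 < b) (M X m : ℕ) : tdg b M X m < b := by
  unfold tdg
  split_ifs
  · exact Nat.mod_lt _ hb
  · exact hb

lemma top_tdg (hb : 0 < b) (M X : ℕ) (hX : X < b ^ M) (p : ℕ) (hp : p ≤ M) :
    top b (tdg b M X) p = X / b ^ (M - p) := by
  induction p with
  | zero => simp [top, Nat.div_eq_of_lt hX]
  | succ p ih =>
    rw [top_succ, ih (by omega)]
    unfold tdg
    rw [if_pos hp]
    have : M - p = (M - (p + 1)) + 1 := by omega
    rw [this, pow_succ, ← Nat.div_div_eq_div_mul, Nat.div_add_mod]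

end Top

/-- counting lemma for a bijection onto `[0, B)` refined by a predicate -/
lemma count_split (B t : ℕ) (ht : t < B) (φ : ℕ → ℕ) (hφ : ∀ u < B, φ u < B)
    (hinj : ∀ u < B, ∀ u' < B, φ u = φ u' → u = u') (ψ : ℕ → Prop) [DecidablePred ψ]
    (h1 : ∀ u < B, φ u < t → ψ u) (h2 : ∀ u < B, t < φ u → ¬ ψ u) :
    ∃ u₀ < B, φ u₀ = t ∧ ((range B).filter ψ).card = t + (if ψ u₀ then 1 else 0) := by
  have himg : (range B).image φ = range B := by
    apply eq_of_subset_of_card_le
    · intro x hx
      rw [mem_image] at hx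
      obtain ⟨u, hu, rfl⟩ := hx
      exact mem_range.mpr (hφ u (mem_range.mp hu))
    · rw [card_image_of_injOn]
      intro u hu u' hu' h
      exact hinj u (mem_range.mp hu) u' (mem_range.mp hu') h
  have ht' : t ∈ (range B).image φ := by rw [himg]; exact mem_range.mpr ht
  obtain ⟨u₀, hu₀, hφ₀⟩ := mem_image.mp ht'
  refine ⟨u₀, mem_range.mp hu₀, hφ₀, ?_⟩
  have hcard : ((range B).filter (fun u => φ u < t)).card = t := by
    have : ((range B).filter (fun u => φ u < t)).image φ = range t := by
      ext x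
      simp only [mem_image, mem_filter, mem_range]
      constructor
      · rintro ⟨u, ⟨_, h⟩, rfl⟩; exact h
      · intro hx
        have : x ∈ (range B).image φ := by rw [himg]; exact mem_range.mpr (by omega)
        obtain ⟨u, hu, rfl⟩ := mem_image.mp this
        exact ⟨u, ⟨mem_range.mp hu, hx⟩, rfl⟩
    have hio : Set.InjOn φ ((range B).filter (fun u => φ u < t)) := by
      intro u hu u' hu' h
      simp only [coe_filter, mem_range, Set.mem_setOf_eq] at hu hu'
      exact hinj u hu.1 u' hu'.1 h
    rw [← card_image_of_injOn hio, this, card_range]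
  have hnot : u₀ ∉ (range B).filter (fun u => φ u < t) := by
    simp [hφ₀]
  by_cases hψ : ψ u₀
  · have : (range B).filter ψ = insert u₀ ((range B).filter (fun u => φ u < t)) := by
      ext u
      simp only [mem_filter, mem_range, mem_insert]
      constructor
      · rintro ⟨hu, hψu⟩
        rcases lt_trichotomy (φ u) t with h | h | h
        · exact Or.inr ⟨hu, h⟩
        · left
          exact hinj u hu u₀ (mem_range.mp hu₀) (by rw [h, hφ₀])
        · exact absurd hψu (h2 u hu h)
      · rintro (rfl | ⟨hu, h⟩)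
        · exact ⟨mem_range.mp hu₀, hψ⟩
        · exact ⟨hu, h1 u hu h⟩
    rw [this, card_insert_of_notMem hnot, hcard, if_pos hψ]
  · have : (range B).filter ψ = (range B).filter (fun u => φ u < t) := by
      ext u
      simp only [mem_filter, mem_range]
      constructor
      · rintro ⟨hu, hψu⟩
        refine ⟨hu, ?_⟩
        rcases lt_trichotomy (φ u) t with h | h | h
        · exact h
        · exfalso
          apply hψ
          rw [← hinj u hu u₀ (mem_range.mp hu₀) (by rw [h, hφ₀])]
          exact hψu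
        · exact absurd hψu (h2 u hu h)
      · rintro ⟨hu, h⟩
        exact ⟨hu, h1 u hu h⟩
    rw [this, hcard, if_neg hψ, Nat.add_zero]

end Pool.Agent.Helper4.Disc
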