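import Mathlib

open Finset

namespace Pool.Agent.Helper4.Disc

lemma exp_le_quad {t : ℝ} (h : |t| ≤ 1) : Real.exp t ≤ 1 + t + t ^ 2 := by
  have h1 := Real.abs_exp_sub_one_sub_id_le h
  have h2 := (abs_le.mp h1).2
  linarith

/-- Derandomised concentration: a sequential choice keeps the exponential potential small. -/
theorem derand {S P : Type*} [Fintype S] [Nonempty S] [Fintype P]
    (F : ℕ → P → (ℕ → S) → ℝ) (a B lam : ℝ) (hlam : 0 ≤ lam) (hlB : lam * B ≤ 1) (K : ℕ)
    (dep : ∀ v < K, ∀ π s s', (∀ u ≤ v, s u = s' u) → F v π s = F v π s')
    (bd : ∀ v < K, ∀ π s, |F v π s| ≤ B)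
    (mean : ∀ v < K, ∀ π s, |∑ c : S, F v π (Function.update s v c)| ≤ a * Fintype.card S) :
    ∃ s : ℕ → S, ∑ π, Real.exp (lam * ∑ v ∈ range K, F v π s)
      ≤ Fintype.card P * Real.exp (K * (lam * a + (lam * B) ^ 2)) := by
  classical
  induction K with
  | zero =>
    refine ⟨fun _ => Classical.arbitrary S, ?_⟩
    simp
  | succ K ih =>
    obtain ⟨s, hs⟩ := ih (fun v hv => dep v (by omega)) (fun v hv => bd v (by omega))
      (fun v hv => mean v (by omega))
    have hcard : (0 : ℝ) < Fintype.card S := by exact_mod_cast Fintype.card_pos
    set E : P → ℝ := fun π => Real.exp (lam * ∑ v ∈ range K, F v π s) with hE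
    set G : ℝ := Real.exp (lam * a + (lam * B) ^ 2) with hG
    -- value of the potential after the choice `c`
    have hval : ∀ c : S, ∀ π, Real.exp (lam * ∑ v ∈ range (K + 1), F v π (Function.update s K c))
        = E π * Real.exp (lam * F K π (Function.update s K c)) := by
      intro c π
      rw [sum_range_succ, mul_add, Real.exp_add, hE]
      congr 3
      apply sum_congr rfl
      intro v hv
      rw [mem_range] at hv
      apply dep v (by omega)
      intro u hu
      rw [Function.update_of_ne (by omega)]
    have havg : ∀ π, ∑ c : S, Real.exp (lam * F K π (Function.update s K c))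
        ≤ Fintype.card S * G := by
      intro π
      have hB0 : 0 ≤ B := le_trans (abs_nonneg _) (bd K (by omega) π s)
      calc ∑ c : S, Real.exp (lam * F K π (Function.update s K c))
          ≤ ∑ c : S, (1 + lam * F K π (Function.update s K c) + (lam * B) ^ 2) := by
            apply sum_le_sum
            intro c _
            have hb := bd K (by omega) π (Function.update s K c)
            have habs : |lam * F K π (Function.update s K c)| ≤ lam * B := by
              rw [abs_mul, abs_of_nonneg hlam]
              exact mul_le_mul_of_nonneg_left hb hlam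
            have h1 := exp_le_quad (habs.trans hlB)
            have h2 : (lam * F K π (Function.update s K c)) ^ 2 ≤ (lam * B) ^ 2 := by
              rw [← sq_abs]
              exact pow_le_pow_left₀ (abs_nonneg _) habs 2
            linarith
        _ = Fintype.card S + lam * ∑ c : S, F K π (Function.update s K c)
              + Fintype.card S * (lam * B) ^ 2 := by
            rw [sum_add_distrib, sum_add_distrib, sum_const, sum_const, card_univ, ← mul_sum]
            simp
        _ ≤ Fintype.card S + lam * (a * Fintype.card S) + Fintype.card S * (lam * B) ^ 2 := by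
            have h1 := (abs_le.mp (mean K (by omega) π s)).2
            have := mul_le_mul_of_nonneg_left h1 hlam
            linarith
        _ = Fintype.card S * ((lam * a + (lam * B) ^ 2) + 1) := by ring
        _ ≤ Fintype.card S * G := by
            apply mul_le_mul_of_nonneg_left _ hcard.le
            exact Real.add_one_le_exp _
    have htot : ∑ c : S, ∑ π, Real.exp (lam * ∑ v ∈ range (K + 1), F v π (Function.update s K c))
        ≤ ∑ _c : S, (∑ π, E π) * G := by
      rw [sum_comm]
      calc ∑ π, ∑ c : S, Real.exp (lam * ∑ v ∈ range (K + 1), F v π (Function.update s K c))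
          = ∑ π, E π * ∑ c : S, Real.exp (lam * F K π (Function.update s K c)) := by
            apply sum_congr rfl
            intro π _
            rw [mul_sum]
            apply sum_congr rfl
            intro c _
            exact hval c π
        _ ≤ ∑ π, E π * (Fintype.card S * G) := by
            apply sum_le_sum
            intro π _
            exact mul_le_mul_of_nonneg_left (havg π) (Real.exp_nonneg _)
        _ = ∑ _c : S, (∑ π, E π) * G := by
            rw [sum_const, card_univ, nsmul_eq_mul, ← sum_mul]; ring
    obtain ⟨c, _, hc⟩ := exists_le_of_sum_le (univ_nonempty (α := S)) htot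
    refine ⟨Function.update s K c, hc.trans ?_⟩
    calc (∑ π, E π) * G ≤ (Fintype.card P * Real.exp (K * (lam * a + (lam * B) ^ 2))) * G :=
          mul_le_mul_of_nonneg_right hs (Real.exp_nonneg _)
      _ = Fintype.card P * Real.exp ((K + 1 : ℕ) * (lam * a + (lam * B) ^ 2)) := by
          rw [hG, mul_assoc, ← Real.exp_add]
          congr 2
          push_cast
          ring

end Pool.Agent.Helper4.Disc
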