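import Mathlib

open Finset

namespace Pool.Agent.Helper4.Disc

variable {F : Type*} [Field F]

/-- The array attached to a digit vector `ν` (positions `1..M`). -/
def fieldA (h : ℕ → ℕ → F) (M : ℕ) (ν : ℕ → F) : ℕ → ℕ → F
  | 0 => ν
  | q + 1 => fun p => - ∑ m ∈ Ioc p M, h q m * fieldA h M ν q m

/-- The array with bottom row `w0` and left column `om`. -/
def fieldW (h : ℕ → ℕ → F) (w0 om : ℕ → F) : ℕ → ℕ → F
  | 0 => w0
  | q + 1 => fun p => om (q + 1) + ∑ m ∈ Ioc 0 p, h q m * fieldW h w0 om q m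

/-- `β_q(p) = ∏_{t<q} h_t(p)`. -/
def beta (h : ℕ → ℕ → F) (q p : ℕ) : F := ∏ t ∈ range q, h t p

/-- `γ_q(l) = ∏_{t<q} (- h_t(l - t))`. -/
def gam (h : ℕ → ℕ → F) (q l : ℕ) : F := ∏ t ∈ range q, (- h t (l - t))

lemma fieldA_succ (h : ℕ → ℕ → F) (M : ℕ) (ν : ℕ → F) (q p : ℕ) :
    fieldA h M ν (q + 1) p = - ∑ m ∈ Ioc p M, h q m * fieldA h M ν q m := rfl

lemma fieldW_succ (h : ℕ → ℕ → F) (w0 om : ℕ → F) (q p : ℕ) :
    fieldW h w0 om (q + 1) p = om (q + 1) + ∑ m ∈ Ioc 0 p, h q m * fieldW h w0 om q m := rfl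

lemma fieldA_sub (h : ℕ → ℕ → F) (M : ℕ) (ν ν' : ℕ → F) (q p : ℕ) :
    fieldA h M (fun m => ν m - ν' m) q p = fieldA h M ν q p - fieldA h M ν' q p := by
  induction q generalizing p with
  | zero => rfl
  | succ q ih =>
    rw [fieldA_succ, fieldA_succ, fieldA_succ]
    simp_rw [ih, mul_sub, sum_sub_distrib]
    ring

lemma fieldW_sub (h : ℕ → ℕ → F) (w0 w0' om om' : ℕ → F) (q p : ℕ) :
    fieldW h (fun m => w0 m - w0' m) (fun m => om m - om' m) q p
      = fieldW h w0 om q p - fieldW h w0' om' q p := by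
  induction q generalizing p with
  | zero => rfl
  | succ q ih =>
    rw [fieldW_succ, fieldW_succ, fieldW_succ]
    simp_rw [ih, mul_sub, sum_sub_distrib]
    ring

lemma fieldA_eq_fieldW (h : ℕ → ℕ → F) (M : ℕ) (ν : ℕ → F) (q p : ℕ) (hp : p ≤ M) :
    fieldA h M ν q p = fieldW h ν (fun j => fieldA h M ν j 0) q p := by
  induction q generalizing p with
  | zero => rfl
  | succ q ih =>
    rw [fieldA_succ, fieldW_succ]
    have e1 : ∑ m ∈ Ioc 0 p, h q m * fieldW h ν (fun j => fieldA h M ν j 0) q m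
        = ∑ m ∈ Ioc 0 p, h q m * fieldA h M ν q m := by
      apply sum_congr rfl
      intro m hm
      rw [mem_Ioc] at hm
      rw [ih m (by omega)]
    rw [e1]
    simp only [fieldA_succ]
    have e2 : ∑ m ∈ Ioc 0 M, h q m * fieldA h M ν q m
        = ∑ m ∈ Ioc 0 p, h q m * fieldA h M ν q m + ∑ m ∈ Ioc p M, h q m * fieldA h M ν q m := by
      rw [← sum_union]
      · rw [Ioc_union_Ioc_eq_Ioc (by omega) hp]
      · rw [Finset.disjoint_left]
        intro x hx hx'
        rw [mem_Ioc] at hx hx'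
        omega
    rw [e2]
    ring

lemma fieldA_congr (h : ℕ → ℕ → F) (M : ℕ) (ν ν' : ℕ → F) (heq : ∀ m, 1 ≤ m → m ≤ M → ν m = ν' m)
    (q p : ℕ) (hqp : 1 ≤ q ∨ (1 ≤ p ∧ p ≤ M)) : fieldA h M ν q p = fieldA h M ν' q p := by
  induction q generalizing p with
  | zero =>
    rcases hqp with h1 | h1
    · omega
    · exact heq p h1.1 h1.2
  | succ q ih =>
    rw [fieldA_succ, fieldA_succ]
    congr 1
    apply sum_congr rfl
    intro m hm
    rw [mem_Ioc] at hm
    rw [ih m (Or.inr ⟨by omega, by omega⟩)]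

/-- left vanishing -/
lemma fieldW_left (h : ℕ → ℕ → F) (w0 om : ℕ → F) (p Q : ℕ) (hp : 1 ≤ p)
    (hw : ∀ m, 1 ≤ m → m < p → w0 m = 0) (hom : ∀ j, 1 ≤ j → j ≤ Q → om j = 0) (j : ℕ) (hj : j ≤ Q) :
    (∀ m, 1 ≤ m → m < p → fieldW h w0 om j m = 0) ∧ fieldW h w0 om j p = beta h j p * w0 p := by
  induction j with
  | zero =>
    refine ⟨hw, ?_⟩
    simp [fieldW, beta]
  | succ j ih =>
    obtain ⟨ih1, ih2⟩ := ih (by omega)
    constructor
    · intro m hm1 hm2
      rw [fieldW_succ, hom (j + 1) (by omega) hj, zero_add]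
      apply sum_eq_zero
      intro m' hm'
      rw [mem_Ioc] at hm'
      rw [ih1 m' (by omega) (by omega), mul_zero]
    · rw [fieldW_succ, hom (j + 1) (by omega) hj, zero_add]
      have : Ioc 0 p = insert p (Ioc 0 (p - 1)) := by
        ext x; simp only [mem_Ioc, mem_insert]; omega
      rw [this, sum_insert (by simp only [mem_Ioc]; omega), ih2]
      rw [sum_eq_zero]
      · rw [beta, beta, prod_range_succ]; ring
      · intro m' hm'
        rw [mem_Ioc] at hm'
        rw [ih1 m' (by omega) (by omega), mul_zero]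

/-- the row above the vanishing rows -/
lemma fieldW_left_next (h : ℕ → ℕ → F) (w0 om : ℕ → F) (p Q : ℕ) (hp : 1 ≤ p)
    (hw : ∀ m, 1 ≤ m → m < p → w0 m = 0) (hom : ∀ j, 1 ≤ j → j ≤ Q → om j = 0) :
    (∀ m, m < p → fieldW h w0 om (Q + 1) m = om (Q + 1)) ∧
      fieldW h w0 om (Q + 1) p = om (Q + 1) + beta h (Q + 1) p * w0 p := by
  obtain ⟨h1, h2⟩ := fieldW_left h w0 om p Q hp hw hom Q le_rfl
  constructor
  · intro m hm
    rw [fieldW_succ, sum_eq_zero, add_zero]
    intro m' hm'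
    rw [mem_Ioc] at hm'
    rw [h1 m' (by omega) (by omega), mul_zero]
  · rw [fieldW_succ]
    have : Ioc 0 p = insert p (Ioc 0 (p - 1)) := by
      ext x; simp only [mem_Ioc, mem_insert]; omega
    rw [this, sum_insert (by simp only [mem_Ioc]; omega), h2]
    rw [sum_eq_zero]
    · rw [beta, beta, prod_range_succ]; ring
    · intro m' hm'
      rw [mem_Ioc] at hm'
      rw [h1 m' (by omega) (by omega), mul_zero]

/-- right vanishing -/
lemma fieldA_right (h : ℕ → ℕ → F) (M : ℕ) (ν : ℕ → F) (l : ℕ)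
    (hν : ∀ m, l < m → ν m = 0) (j m : ℕ) (hm : l < m + j) : fieldA h M ν j m = 0 := by
  induction j generalizing m with
  | zero => exact hν m (by omega)
  | succ j ih =>
    rw [fieldA_succ, neg_eq_zero]
    apply sum_eq_zero
    intro m' hm'
    rw [mem_Ioc] at hm'
    rw [ih m' (by omega), mul_zero]

lemma fieldA_right_edge (h : ℕ → ℕ → F) (M : ℕ) (ν : ℕ → F) (l : ℕ) (hl : l ≤ M)
    (hν : ∀ m, l < m → ν m = 0) (j m : ℕ) (hm : m + j = l) :
    fieldA h M ν j m = gam h j l * ν l := by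
  induction j generalizing m with
  | zero =>
    have : m = l := by omega
    subst this
    simp [fieldA, gam]
  | succ j ih =>
    rw [fieldA_succ]
    have : Ioc m M = insert (m + 1) (Ioc (m + 1) M) := by
      ext x; simp only [mem_Ioc, mem_insert]; omega
    rw [this, sum_insert (by simp only [mem_Ioc]; omega), ih (m + 1) (by omega), sum_eq_zero]
    · rw [gam, gam, prod_range_succ]
      have : l - j = m + 1 := by omega
      rw [this]; ring
    · intro m' hm'
      rw [mem_Ioc] at hm'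
      rw [fieldA_right h M ν l hν j m' (by omega), mul_zero]

/-- The digit formula at a node. `ν`: digits of the running integer, `NN`: digits of the time
bound, `x`: digits of the first coordinate, `y`: digits of the second coordinate. -/
lemma node_digit (h : ℕ → ℕ → F) (M : ℕ) (ν NN x y : ℕ → F) (p q : ℕ) (hp : 1 ≤ p) (hq : 1 ≤ q)
    (hM : p + q ≤ M) (h1 : ∀ m, 1 ≤ m → m < p → ν m = x m) (h2 : ∀ m, p + q < m → ν m = NN m)
    (h3 : ∀ j, 1 ≤ j → j < q → - fieldA h M ν j 0 = y j) :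
    - fieldA h M ν q 0 = y q
      - fieldW h (fun m => NN m - x m) (fun j => fieldA h M NN j 0 + y j) q p
      + beta h q p * (ν p - x p) - gam h q (p + q) * (ν (p + q) - NN (p + q)) := by
  have e1 : fieldA h M ν q p - fieldA h M NN q p
      = gam h q (p + q) * (ν (p + q) - NN (p + q)) := by
    rw [← fieldA_sub]
    exact fieldA_right_edge h M (fun m => ν m - NN m) (p + q) hM
      (fun m hm => by rw [h2 m hm, sub_self]) q p rfl
  have e2 : fieldW h (fun m => ν m - x m) (fun j => fieldA h M ν j 0 - (- y j)) q p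
      = fieldA h M ν q p - fieldW h x (fun j => - y j) q p := by
    rw [fieldW_sub, ← fieldA_eq_fieldW h M ν q p (by omega)]
  have e3 : fieldW h (fun m => NN m - x m) (fun j => fieldA h M NN j 0 - (- y j)) q p
      = fieldA h M NN q p - fieldW h x (fun j => - y j) q p := by
    rw [fieldW_sub, ← fieldA_eq_fieldW h M NN q p (by omega)]
  obtain ⟨Q, rfl⟩ : ∃ Q, q = Q + 1 := ⟨q - 1, by omega⟩
  have e4 := (fieldW_left_next h (fun m => ν m - x m) (fun j => fieldA h M ν j 0 - (- y j)) p Q hp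
    (fun m hm1 hm2 => by rw [h1 m hm1 hm2, sub_self])
    (fun j hj1 hj2 => by
      rw [← h3 j hj1 (by omega), neg_neg, sub_self])).2
  simp only [sub_neg_eq_add] at e2 e3 e4
  rw [e4] at e2
  rw [e3]
  linear_combination -e1 - e2

/-- The next digit, when the digit at the node agrees with the target. -/
lemma node_digit_next (h : ℕ → ℕ → F) (M : ℕ) (ν NN x y : ℕ → F) (p q : ℕ) (hp : 1 ≤ p)
    (hM : p + q ≤ M) (h1 : ∀ m, 1 ≤ m → m < p → ν m = x m) (h2 : ∀ m, p + q < m → ν m = NN m)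
    (h3 : ∀ j, 1 ≤ j → j ≤ q → - fieldA h M ν j 0 = y j) :
    - fieldA h M ν (q + 1) 0 = y (q + 1)
      - fieldW h (fun m => NN m - x m) (fun j => fieldA h M NN j 0 + y j) (q + 1) (p - 1)
      - gam h (q + 1) (p + q) * (ν (p + q) - NN (p + q)) := by
  have e1 : fieldA h M ν (q + 1) (p - 1) - fieldA h M NN (q + 1) (p - 1)
      = gam h (q + 1) (p + q) * (ν (p + q) - NN (p + q)) := by
    rw [← fieldA_sub]
    exact fieldA_right_edge h M (fun m => ν m - NN m) (p + q) hM
      (fun m hm => by rw [h2 m hm, sub_self]) (q + 1) (p - 1) (by omega)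
  have e2 : fieldW h (fun m => ν m - x m) (fun j => fieldA h M ν j 0 - (- y j)) (q + 1) (p - 1)
      = fieldA h M ν (q + 1) (p - 1) - fieldW h x (fun j => - y j) (q + 1) (p - 1) := by
    rw [fieldW_sub, ← fieldA_eq_fieldW h M ν (q + 1) (p - 1) (by omega)]
  have e3 : fieldW h (fun m => NN m - x m) (fun j => fieldA h M NN j 0 - (- y j)) (q + 1) (p - 1)
      = fieldA h M NN (q + 1) (p - 1) - fieldW h x (fun j => - y j) (q + 1) (p - 1) := by
    rw [fieldW_sub, ← fieldA_eq_fieldW h M NN (q + 1) (p - 1) (by omega)]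
  have e4 := (fieldW_left_next h (fun m => ν m - x m) (fun j => fieldA h M ν j 0 - (- y j)) p q hp
    (fun m hm1 hm2 => by rw [h1 m hm1 hm2, sub_self])
    (fun j hj1 hj2 => by
      rw [← h3 j hj1 (by omega), neg_neg, sub_self])).1 (p - 1) (by omega)
  simp only [sub_neg_eq_add] at e2 e3 e4
  rw [e4] at e2
  rw [e3]
  linear_combination -e1 - e2

/-- Injectivity inside a block. -/
lemma block_inj (h : ℕ → ℕ → F) (M : ℕ) (hne : ∀ q m, 1 ≤ m → m ≤ M → h q m ≠ 0) (ν ν' : ℕ → F)
    (p l : ℕ) (hpl : p < l) (h1 : ∀ m, 1 ≤ m → m ≤ p → ν m = ν' m)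
    (h2 : ∀ m, l ≤ m → ν m = ν' m)
    (h3 : ∀ j, 1 ≤ j → j < l - p → fieldA h M ν j 0 = fieldA h M ν' j 0) :
    ∀ m, 1 ≤ m → m ≤ M → ν m = ν' m := by
  set d : ℕ → F := fun m => ν m - ν' m with hd
  set f := l - p - 1 with hf
  -- the row `f` vanishes
  have hright : ∀ m, p < m → fieldA h M d f m = 0 := by
    intro m hm
    apply fieldA_right h M d (l - 1) _ f m (by omega)
    intro m' hm'
    simp only [hd]
    rw [h2 m' (by omega), sub_self]
  have hzero : ∀ j, 1 ≤ j → j ≤ f → fieldA h M d j 0 = 0 := by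
    intro j hj1 hj2
    rw [hd, fieldA_sub, h3 j hj1 (by omega), sub_self]
  have hleft : ∀ j, j ≤ f → ∀ m, 1 ≤ m → m ≤ p → m ≤ M → fieldA h M d j m = 0 := by
    intro j hj m hm1 hm2 hmM
    rw [fieldA_eq_fieldW h M d j m hmM]
    exact (fieldW_left h d (fun j => fieldA h M d j 0) (p + 1) f (by omega)
      (fun m' hm1' hm2' => by simp only [hd]; rw [h1 m' hm1' (by omega), sub_self])
      (fun j' hj1' hj2' => hzero j' hj1' hj2') j hj).1 m hm1 (by omega)
  have hrow : ∀ t, t ≤ f → ∀ m, 1 ≤ m → m ≤ M → fieldA h M d (f - t) m = 0 := by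
    intro t
    induction t with
    | zero =>
      intro _ m hm1 hmM
      rw [Nat.sub_zero]
      by_cases hmp : m ≤ p
      · exact hleft f le_rfl m hm1 hmp hmM
      · exact hright m (by omega)
    | succ t ih =>
      intro ht m hm1 hmM
      have ih' := ih (by omega)
      have e : f - t = (f - (t + 1)) + 1 := by omega
      -- difference relation
      have hA : fieldA h M d (f - t) m = 0 := ih' m hm1 hmM
      have hB : fieldA h M d (f - t) (m - 1) = 0 := by
        by_cases hm : m = 1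
        · subst hm
          exact hzero (f - t) (by omega) (by omega)
        · exact ih' (m - 1) (by omega) (by omega)
      rw [e, fieldA_succ] at hA hB
      have : Ioc (m - 1) M = insert m (Ioc m M) := by
        ext x; simp only [mem_Ioc, mem_insert]; omega
      rw [this, sum_insert (by simp only [mem_Ioc]; omega)] at hB
      have hC : h (f - (t + 1)) m * fieldA h M d (f - (t + 1)) m = 0 := by
        linear_combination hA - hB
      rcases mul_eq_zero.mp hC with h0 | h0
      · exact absurd h0 (hne _ m hm1 hmM)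
      · exact h0
  intro m hm1 hmM
  have := hrow f le_rfl m hm1 hmM
  rw [Nat.sub_self] at this
  exact sub_eq_zero.mp this

end Pool.Agent.Helper4.Disc
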