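import Mathlib
import Pool.Agent.Helper4.Disc.Field

open Finset

namespace Pool.Agent.Helper4.Disc

variable {b : ℕ} [Fact b.Prime]

/-- centred first-digit function -/
noncomputable def f1 (η η' u : ZMod b) : ℝ :=
  ((if u.val < η.val then 1 else 0) - (η.val : ℝ) / b)
    + ((η'.val : ℝ) / b) * ((if u = η then 1 else 0) - 1 / b)

/-- centred second-digit function -/
noncomputable def f3 (η' u : ZMod b) : ℝ := (if u.val < η'.val then 1 else 0) - (η'.val : ℝ) / b

lemma bpos : (0 : ℝ) < b := by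
  exact_mod_cast (Fact.out : b.Prime).pos

lemma btwo : (2 : ℝ) ≤ b := by
  exact_mod_cast (Fact.out : b.Prime).two_le

lemma val_lt_b (u : ZMod b) : (u.val : ℝ) < b := by
  exact_mod_cast ZMod.val_lt u

lemma card_val_lt (η : ZMod b) : ∑ u : ZMod b, (if u.val < η.val then (1 : ℝ) else 0) = η.val := by
  rw [sum_boole]
  have : (univ.filter (fun u : ZMod b => u.val < η.val)).card = (range η.val).card := by
    apply card_bij (fun u _ => u.val)
    · intro u hu
      simpa using hu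
    · intro u _ u' _ h
      exact ZMod.val_injective b h
    · intro t ht
      rw [mem_range] at ht
      have htb : t < b := ht.trans (ZMod.val_lt η)
      refine ⟨(t : ZMod b), ?_, ?_⟩
      · simp [ZMod.val_natCast_of_lt htb, ht]
      · exact ZMod.val_natCast_of_lt htb
  rw [this, card_range]

lemma sum_f3 (η' : ZMod b) : ∑ u : ZMod b, f3 η' u = 0 := by
  unfold f3
  rw [sum_sub_distrib, card_val_lt, sum_const, card_univ, ZMod.card, nsmul_eq_mul]
  have := bpos (b := b)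
  field_simp
  ring

lemma sum_f1 (η η' : ZMod b) : ∑ u : ZMod b, f1 η η' u = 0 := by
  unfold f1
  rw [sum_add_distrib, ← mul_sum, sum_sub_distrib, sum_sub_distrib, card_val_lt, sum_const,
    sum_const, card_univ, ZMod.card, nsmul_eq_mul, nsmul_eq_mul]
  have := bpos (b := b)
  rw [sum_ite_eq' univ η (fun _ => (1 : ℝ))]
  simp only [mem_univ, if_true]
  field_simp
  ring

lemma abs_f3_le (η' u : ZMod b) : |f3 η' u| ≤ 1 := by
  unfold f3
  have h1 := val_lt_b η'
  have h2 := bpos (b := b)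
  have h3 : (η'.val : ℝ) / b ≤ 1 := by rw [div_le_one h2]; exact h1.le
  have h4 : (0 : ℝ) ≤ (η'.val : ℝ) / b := by positivity
  rw [abs_le]
  split_ifs <;> constructor <;> linarith

lemma abs_f1_le (η η' u : ZMod b) : |f1 η η' u| ≤ 2 := by
  unfold f1
  have h2 := bpos (b := b)
  have h3 : (η'.val : ℝ) / b ≤ 1 := by rw [div_le_one h2]; exact (val_lt_b η').le
  have h4 : (0 : ℝ) ≤ (η'.val : ℝ) / b := by positivity
  have h5 : |((if u.val < η.val then 1 else 0) - (η.val : ℝ) / b)| ≤ 1 := abs_f3_le η u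
  have h6 : |((if u = η then (1 : ℝ) else 0) - 1 / b)| ≤ 1 := by
    have h7 : (0 : ℝ) ≤ 1 / b := by positivity
    have h8 : (1 : ℝ) / b ≤ 1 := by
      rw [div_le_one h2]; linarith [btwo (b := b)]
    rw [abs_le]
    split_ifs <;> constructor <;> linarith
  calc _ ≤ |((if u.val < η.val then 1 else 0) - (η.val : ℝ) / b)|
        + |((η'.val : ℝ) / b) * ((if u = η then 1 else 0) - 1 / b)| := abs_add_le _ _
    _ ≤ 1 + 1 * 1 := by
        rw [abs_mul, abs_of_nonneg h4]
        gcongr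
    _ = 2 := by norm_num

lemma sum_units_eq (f : ZMod b → ℝ) : ∑ c : (ZMod b)ˣ, f c = ∑ u ∈ univ.erase 0, f u := by
  apply sum_bij (fun (c : (ZMod b)ˣ) _ => (c : ZMod b))
  · intro c _
    simp
  · intro c _ c' _ h
    exact Units.ext h
  · intro u hu
    rw [mem_erase] at hu
    exact ⟨Units.mk0 u hu.1, mem_univ _, rfl⟩
  · intro c _; rfl

lemma sum_units_affine (f : ZMod b → ℝ) (hf : ∑ u, f u = 0) (c0 e : ZMod b) (he : e ≠ 0) :
    ∑ c : (ZMod b)ˣ, f (c0 + c * e) = - f c0 := by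
  have h1 := sum_units_eq (fun c => f (c0 + c * e))
  rw [h1]
  have h2 : ∑ u : ZMod b, f (c0 + u * e) = 0 := by
    rw [← hf]
    apply Fintype.sum_bijective (fun u => c0 + u * e)
    · constructor
      · intro u u' h
        simp only [add_right_inj] at h
        exact mul_right_cancel₀ he h
      · intro v
        refine ⟨(v - c0) / e, ?_⟩
        simp only
        rw [div_mul_cancel₀ _ he]; ring
    · intro u; rfl
  rw [← add_sum_erase univ _ (mem_univ (0 : ZMod b))] at h2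
  rw [zero_mul, add_zero] at h2
  linarith

lemma card_units : (Fintype.card (ZMod b)ˣ : ℝ) = b - 1 := by
  rw [ZMod.card_units_eq_totient, Nat.totient_prime Fact.out,
    Nat.cast_sub (Fact.out : b.Prime).one_le]
  simp

/-- nonzero differences of digits -/
lemma cast_sub_ne_zero (N : ZMod b) (k : ℕ) (hk : k < N.val) : ((k : ZMod b) - N) ≠ 0 := by
  intro h
  have h1 : (k : ZMod b) = N := sub_eq_zero.mp h
  have h2 := congrArg ZMod.val h1
  rw [ZMod.val_natCast_of_lt (hk.trans (ZMod.val_lt N))] at h2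
  omega

section Congr

variable {F : Type*} [Field F]

lemma fieldW_congr_h (h h' : ℕ → ℕ → F) (w0 om : ℕ → F) (q p : ℕ)
    (heq : ∀ t < q, ∀ m, 1 ≤ m → m ≤ p → h t m = h' t m) :
    fieldW h w0 om q p = fieldW h' w0 om q p := by
  induction q generalizing p with
  | zero => rfl
  | succ q ih =>
    rw [fieldW_succ, fieldW_succ]
    congr 1
    apply sum_congr rfl
    intro m hm
    rw [mem_Ioc] at hm
    rw [heq q (by omega) m (by omega) hm.2,
      ih m (fun t ht m' hm1 hm2 => heq t (by omega) m' hm1 (by omega))]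

lemma beta_congr (h h' : ℕ → ℕ → F) (q p : ℕ) (heq : ∀ t < q, h t p = h' t p) :
    beta h q p = beta h' q p := by
  unfold beta
  apply prod_congr rfl
  intro t ht
  exact heq t (mem_range.mp ht)

lemma gam_congr (h h' : ℕ → ℕ → F) (q l : ℕ) (heq : ∀ t < q, h t (l - t) = h' t (l - t)) :
    gam h q l = gam h' q l := by
  unfold gam
  apply prod_congr rfl
  intro t ht
  rw [heq t (mem_range.mp ht)]

lemma beta_succ (h : ℕ → ℕ → F) (q p : ℕ) : beta h (q + 1) p = beta h q p * h q p := by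
  unfold beta; rw [prod_range_succ]

lemma gam_succ (h : ℕ → ℕ → F) (q l : ℕ) : gam h (q + 1) l = gam h q l * (- h q (l - q)) := by
  unfold gam; rw [prod_range_succ]

lemma fieldW_step (h : ℕ → ℕ → F) (w0 om : ℕ → F) (q p : ℕ) (hp : 1 ≤ p) :
    fieldW h w0 om (q + 1) p = fieldW h w0 om (q + 1) (p - 1) + h q p * fieldW h w0 om q p := by
  rw [fieldW_succ, fieldW_succ]
  have : Ioc 0 p = insert p (Ioc 0 (p - 1)) := by
    ext x; simp only [mem_Ioc, mem_insert]; omega
  rw [this, sum_insert (by simp only [mem_Ioc]; omega)]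
  ring

lemma beta_ne_zero (h : ℕ → ℕ → F) (hne : ∀ q m, h q m ≠ 0) (q p : ℕ) : beta h q p ≠ 0 := by
  unfold beta
  exact prod_ne_zero_iff.mpr (fun t _ => hne t p)

lemma gam_ne_zero (h : ℕ → ℕ → F) (hne : ∀ q m, h q m ≠ 0) (q l : ℕ) : gam h q l ≠ 0 := by
  unfold gam
  exact prod_ne_zero_iff.mpr (fun t _ => neg_ne_zero.mpr (hne t _))

end Congr

/-- Parameters of a target: digits `x` (first coordinate), `y` (second coordinate),
`NN` (time) and the left boundary `om`. -/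
structure Par (b : ℕ) where
  x : ℕ → ZMod b
  y : ℕ → ZMod b
  NN : ℕ → ZMod b
  om : ℕ → ZMod b

variable (h : ℕ → ℕ → ZMod b) (π : Par b)

/-- the mismatch array -/
def Par.W (h : ℕ → ℕ → ZMod b) (π : Par b) (q p : ℕ) : ZMod b :=
  fieldW h (fun m => π.NN m - π.x m) π.om q p

def vv (h : ℕ → ℕ → ZMod b) (π : Par b) (q p i : ℕ) : ZMod b :=
  π.y q - π.W h q p + beta h q p * ((i : ZMod b) - π.x p)

def gg (h : ℕ → ℕ → ZMod b) (π : Par b) (q p i k : ℕ) : ZMod b :=
  vv h π q p i - gam h q (p + q) * ((k : ZMod b) - π.NN (p + q))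

def gn (h : ℕ → ℕ → ZMod b) (π : Par b) (q p k : ℕ) : ZMod b :=
  π.y (q + 1) - π.W h (q + 1) (p - 1) - gam h (q + 1) (p + q) * ((k : ZMod b) - π.NN (p + q))

noncomputable def T1 (h : ℕ → ℕ → ZMod b) (π : Par b) (q p : ℕ) : ℝ :=
  ∑ i ∈ range (π.x p).val, ∑ k ∈ range (π.NN (p + q)).val,
    (f1 (π.y q) (π.y (q + 1)) (gg h π q p i k)
      + 1 / ((b : ℝ) - 1) * f1 (π.y q) (π.y (q + 1)) (vv h π q p i))

noncomputable def T2 (h : ℕ → ℕ → ZMod b) (π : Par b) (q p : ℕ) : ℝ :=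
  - ∑ i ∈ range (π.x p).val, ∑ _k ∈ range (π.NN (p + q)).val,
    1 / ((b : ℝ) - 1) * f1 (π.y q) (π.y (q + 1)) (vv h π q p i)

noncomputable def T3 (h : ℕ → ℕ → ZMod b) (π : Par b) (q p : ℕ) : ℝ :=
  ∑ i ∈ range (π.x p).val, ∑ k ∈ range (π.NN (p + q)).val,
    (if gg h π q p i k = π.y q then f3 (π.y (q + 1)) (gn h π q p k) else 0)

lemma abs_sum_sum_le (A B : ℕ) (g : ℕ → ℕ → ℝ) (C : ℝ) (hC : 0 ≤ C) (hA : A ≤ b) (hB : B ≤ b)
    (hg : ∀ i < A, ∀ k < B, |g i k| ≤ C) :
    |∑ i ∈ range A, ∑ k ∈ range B, g i k| ≤ C * (b : ℝ) ^ 2 := by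
  calc |∑ i ∈ range A, ∑ k ∈ range B, g i k|
      ≤ ∑ i ∈ range A, |∑ k ∈ range B, g i k| := abs_sum_le_sum_abs _ _
    _ ≤ ∑ i ∈ range A, ∑ k ∈ range B, |g i k| := by
        apply sum_le_sum; intro i _; exact abs_sum_le_sum_abs _ _
    _ ≤ ∑ i ∈ range A, ∑ k ∈ range B, C := by
        apply sum_le_sum; intro i hi
        apply sum_le_sum; intro k hk
        exact hg i (mem_range.mp hi) k (mem_range.mp hk)
    _ = A * B * C := by simp; ring
    _ ≤ b * b * C := by gcongr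
    _ = _ := by ring

lemma inv_le_one' : 1 / ((b : ℝ) - 1) ≤ 1 := by
  have := btwo (b := b)
  rw [div_le_one (by linarith)]; linarith

lemma inv_nonneg' : 0 ≤ 1 / ((b : ℝ) - 1) := by
  have := btwo (b := b)
  apply div_nonneg zero_le_one; linarith

lemma abs_T1_le (q p : ℕ) : |T1 h π q p| ≤ 8 * (b : ℝ) ^ 2 := by
  unfold T1
  have h0 := abs_sum_sum_le (b := b) (π.x p).val (π.NN (p + q)).val
    (fun i k => f1 (π.y q) (π.y (q + 1)) (gg h π q p i k)
      + 1 / ((b : ℝ) - 1) * f1 (π.y q) (π.y (q + 1)) (vv h π q p i)) 4 (by norm_num)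
    (ZMod.val_lt _).le (ZMod.val_lt _).le (by
      intro i _ k _
      calc _ ≤ |f1 (π.y q) (π.y (q + 1)) (gg h π q p i k)|
            + |1 / ((b : ℝ) - 1) * f1 (π.y q) (π.y (q + 1)) (vv h π q p i)| := abs_add_le _ _
        _ ≤ 2 + 1 * 2 := by
            rw [abs_mul, abs_of_nonneg (inv_nonneg' (b := b))]
            exact add_le_add (abs_f1_le _ _ _) (mul_le_mul (inv_le_one' (b := b)) (abs_f1_le _ _ _)
              (abs_nonneg _) zero_le_one)
        _ = 4 := by norm_num)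
  have h1 : 0 ≤ (b : ℝ) ^ 2 := by positivity
  linarith

lemma abs_T2_le (q p : ℕ) : |T2 h π q p| ≤ 8 * (b : ℝ) ^ 2 := by
  unfold T2
  rw [abs_neg]
  have h0 := abs_sum_sum_le (b := b) (π.x p).val (π.NN (p + q)).val
    (fun i _ => 1 / ((b : ℝ) - 1) * f1 (π.y q) (π.y (q + 1)) (vv h π q p i)) 2 (by norm_num)
    (ZMod.val_lt _).le (ZMod.val_lt _).le (by
      intro i _ k _
      rw [abs_mul, abs_of_nonneg (inv_nonneg' (b := b))]
      calc _ ≤ (1 : ℝ) * 2 := mul_le_mul (inv_le_one' (b := b)) (abs_f1_le _ _ _)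
              (abs_nonneg _) zero_le_one
        _ = 2 := by norm_num)
  have h1 : 0 ≤ (b : ℝ) ^ 2 := by positivity
  linarith

lemma abs_T3_le (q p : ℕ) : |T3 h π q p| ≤ 8 * (b : ℝ) ^ 2 := by
  unfold T3
  have h0 := abs_sum_sum_le (b := b) (π.x p).val (π.NN (p + q)).val
    (fun i k => (if gg h π q p i k = π.y q then f3 (π.y (q + 1)) (gn h π q p k) else 0)) 1
    (by norm_num) (ZMod.val_lt _).le (ZMod.val_lt _).le (by
      intro i _ k _
      split_ifs
      · exact abs_f3_le _ _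
      · simp)
  have h1 : 0 ≤ (b : ℝ) ^ 2 := by positivity
  linarith

lemma T1_add_T2 (q p : ℕ) : T1 h π q p + T2 h π q p =
    ∑ i ∈ range (π.x p).val, ∑ k ∈ range (π.NN (p + q)).val,
      f1 (π.y q) (π.y (q + 1)) (gg h π q p i k) := by
  unfold T1 T2
  simp_rw [sum_add_distrib]
  ring

/-- the array obtained from a unit-valued sequence -/
def hs (M : ℕ) (s : ℕ → (ZMod b)ˣ) (q p : ℕ) : ZMod b := (s (q * M + (p - 1)) : ZMod b)

lemma hs_ne_zero (M : ℕ) (s : ℕ → (ZMod b)ˣ) (q p : ℕ) : hs M s q p ≠ 0 := (s _).ne_zero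

lemma hs_congr (M : ℕ) (s s' : ℕ → (ZMod b)ˣ) (v : ℕ) (heq : ∀ u ≤ v, s u = s' u) (q p : ℕ)
    (hv : q * M + (p - 1) ≤ v) : hs M s q p = hs M s' q p := by
  unfold hs; rw [heq _ hv]

lemma hs_update_ne (M : ℕ) (s : ℕ → (ZMod b)ˣ) (v : ℕ) (c : (ZMod b)ˣ) (q p : ℕ)
    (hv : q * M + (p - 1) ≠ v) : hs M (Function.update s v c) q p = hs M s q p := by
  unfold hs; rw [Function.update_of_ne hv]

lemma hs_update_eq (M : ℕ) (s : ℕ → (ZMod b)ˣ) (v : ℕ) (c : (ZMod b)ˣ) (q p : ℕ)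
    (hv : q * M + (p - 1) = v) : hs M (Function.update s v c) q p = c := by
  unfold hs; rw [hv, Function.update_self]

/-- index inequality for the lexicographic order -/
lemma idx_lt {M t q m r : ℕ} (ht : t < q) (hm1 : 1 ≤ m) (hm : m ≤ M) :
    t * M + (m - 1) < q * M + r := by
  have h1 : t * M + M ≤ q * M := by
    calc t * M + M = (t + 1) * M := by ring
      _ ≤ q * M := Nat.mul_le_mul_right _ ht
  omega

/-- rows below `q`, columns up to `p`: index bound -/
lemma idx_le {M t q m p : ℕ} (ht : t < q) (hm1 : 1 ≤ m) (hm : m ≤ p) (hp : p ≤ M) :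
    t * M + (m - 1) ≤ (q - 1) * M + (p - 1) := by
  rcases Nat.lt_or_ge t (q - 1) with h1 | h1
  · exact (idx_lt (r := p - 1) h1 hm1 (by omega)).le
  · have : t = q - 1 := by omega
    subst this
    omega

end Pool.Agent.Helper4.Disc
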