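import Mathlib
import Pool.Agent.Helper4.Disc.Node

open Finset

namespace Pool.Agent.Helper4.Disc

variable {b : ℕ} [Fact b.Prime]

/-! ### dependence -/

lemma W_dep (M : ℕ) (s s' : ℕ → (ZMod b)ˣ) (v : ℕ) (heq : ∀ u ≤ v, s u = s' u) (π : Par b)
    (q p : ℕ) (hp : p ≤ M) (hv : (q - 1) * M + (p - 1) ≤ v) :
    π.W (hs M s) q p = π.W (hs M s') q p := by
  unfold Par.W
  apply fieldW_congr_h
  intro t ht m hm1 hm
  exact hs_congr M s s' v heq t m ((idx_le ht hm1 hm hp).trans hv)

lemma beta_dep (M : ℕ) (s s' : ℕ → (ZMod b)ˣ) (v : ℕ) (heq : ∀ u ≤ v, s u = s' u)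
    (q p : ℕ) (hp1 : 1 ≤ p) (hp : p ≤ M) (hv : (q - 1) * M + (p - 1) ≤ v) :
    beta (hs M s) q p = beta (hs M s') q p := by
  apply beta_congr
  intro t ht
  exact hs_congr M s s' v heq t p ((idx_le ht hp1 le_rfl hp).trans hv)

lemma gam_dep (M : ℕ) (s s' : ℕ → (ZMod b)ˣ) (v : ℕ) (heq : ∀ u ≤ v, s u = s' u)
    (q p : ℕ) (hM : p + q ≤ M) (hv : (q - 1) * M + p ≤ v) :
    gam (hs M s) q (p + q) = gam (hs M s') q (p + q) := by
  apply gam_congr
  intro t ht
  apply hs_congr M s s' v heq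
  refine le_trans ?_ hv
  rcases Nat.lt_or_ge t (q - 1) with h1 | h1
  · exact (idx_lt (r := p) h1 (by omega) (by omega)).le
  · have : t = q - 1 := by omega
    subst this
    omega

lemma vv_dep (M : ℕ) (s s' : ℕ → (ZMod b)ˣ) (v : ℕ) (heq : ∀ u ≤ v, s u = s' u) (π : Par b)
    (q p i : ℕ) (hp1 : 1 ≤ p) (hp : p ≤ M) (hv : (q - 1) * M + (p - 1) ≤ v) :
    vv (hs M s) π q p i = vv (hs M s') π q p i := by
  unfold vv
  rw [W_dep M s s' v heq π q p hp hv, beta_dep M s s' v heq q p hp1 hp hv]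

lemma gg_dep (M : ℕ) (s s' : ℕ → (ZMod b)ˣ) (v : ℕ) (heq : ∀ u ≤ v, s u = s' u) (π : Par b)
    (q p i k : ℕ) (hp1 : 1 ≤ p) (hM : p + q ≤ M) (hv : (q - 1) * M + p ≤ v) :
    gg (hs M s) π q p i k = gg (hs M s') π q p i k := by
  unfold gg
  rw [vv_dep M s s' v heq π q p i hp1 (by omega) (by omega), gam_dep M s s' v heq q p hM hv]

lemma T1_dep (M : ℕ) (s s' : ℕ → (ZMod b)ˣ) (v : ℕ) (heq : ∀ u ≤ v, s u = s' u) (π : Par b)
    (q p : ℕ) (hp1 : 1 ≤ p) (hM : p + q ≤ M) (hv : (q - 1) * M + p ≤ v) :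
    T1 (hs M s) π q p = T1 (hs M s') π q p := by
  unfold T1
  apply sum_congr rfl; intro i _
  apply sum_congr rfl; intro k _
  rw [gg_dep M s s' v heq π q p i k hp1 hM hv,
    vv_dep M s s' v heq π q p i hp1 (by omega) (by omega)]

lemma T2_dep (M : ℕ) (s s' : ℕ → (ZMod b)ˣ) (v : ℕ) (heq : ∀ u ≤ v, s u = s' u) (π : Par b)
    (q p : ℕ) (hp1 : 1 ≤ p) (hM : p + q ≤ M) (hv : (q - 1) * M + (p - 1) ≤ v) :
    T2 (hs M s) π q p = T2 (hs M s') π q p := by
  unfold T2
  congr 1
  apply sum_congr rfl; intro i _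
  apply sum_congr rfl; intro k _
  rw [vv_dep M s s' v heq π q p i hp1 (by omega) (by omega)]

lemma T3_dep (M : ℕ) (s s' : ℕ → (ZMod b)ˣ) (v : ℕ) (heq : ∀ u ≤ v, s u = s' u) (π : Par b)
    (q p : ℕ) (hq1 : 1 ≤ q) (hp1 : 1 ≤ p) (hM : p + q ≤ M) (hv : q * M + (p - 1) ≤ v) :
    T3 (hs M s) π q p = T3 (hs M s') π q p := by
  have hqM : (q - 1) * M + M = q * M := by
    obtain ⟨q', rfl⟩ : ∃ q', q = q' + 1 := ⟨q - 1, by omega⟩
    rw [Nat.add_sub_cancel]; ring
  unfold T3
  apply sum_congr rfl; intro i _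
  apply sum_congr rfl; intro k _
  have e1 : gg (hs M s) π q p i k = gg (hs M s') π q p i k :=
    gg_dep M s s' v heq π q p i k hp1 hM (by omega)
  have e2 : gn (hs M s) π q p k = gn (hs M s') π q p k := by
    unfold gn
    have e3 : π.W (hs M s) (q + 1) (p - 1) = π.W (hs M s') (q + 1) (p - 1) := by
      apply W_dep M s s' v heq π (q + 1) (p - 1) (by omega)
      rw [Nat.add_sub_cancel]; omega
    have e4 : gam (hs M s) (q + 1) (p + q) = gam (hs M s') (q + 1) (p + q) := by
      have h1 : p + q = (p - 1) + (q + 1) := by omega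
      rw [h1]
      apply gam_dep M s s' v heq (q + 1) (p - 1) (by omega)
      rw [Nat.add_sub_cancel]; exact hv
    rw [e3, e4]
  rw [e1, e2]

/-! ### means -/

lemma T1_mean (M : ℕ) (s : ℕ → (ZMod b)ˣ) (π : Par b) (q p : ℕ) (hq1 : 1 ≤ q) (hp1 : 1 ≤ p)
    (hM : p + q ≤ M) :
    ∑ c : (ZMod b)ˣ, T1 (hs M (Function.update s ((q - 1) * M + p) c)) π q p = 0 := by
  unfold T1
  rw [sum_comm]
  apply sum_eq_zero; intro i _
  rw [sum_comm]
  apply sum_eq_zero; intro k hk
  rw [mem_range] at hk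
  set v := (q - 1) * M + p with hv
  have hvv : ∀ c, vv (hs M (Function.update s v c)) π q p i = vv (hs M s) π q p i := by
    intro c
    apply vv_dep M _ _ (v - 1) _ π q p i hp1 (by omega) (by omega)
    intro u hu
    rw [Function.update_of_ne (by omega)]
  obtain ⟨Q, rfl⟩ : ∃ Q, q = Q + 1 := ⟨q - 1, by omega⟩
  rw [Nat.add_sub_cancel] at hv
  have hgam : ∀ c : (ZMod b)ˣ, gam (hs M (Function.update s v c)) (Q + 1) (p + (Q + 1))
      = gam (hs M s) Q (p + (Q + 1)) * (- (c : ZMod b)) := by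
    intro c
    rw [gam_succ]
    congr 1
    · apply gam_congr
      intro t ht
      apply hs_update_ne
      have : t * M + (p + (Q + 1) - t - 1) < Q * M + p := idx_lt ht (by omega) (by omega)
      omega
    · rw [hs_update_eq]
      omega
  have hgg : ∀ c : (ZMod b)ˣ, gg (hs M (Function.update s v c)) π (Q + 1) p i k
      = vv (hs M s) π (Q + 1) p i
        + c * (gam (hs M s) Q (p + (Q + 1)) * ((k : ZMod b) - π.NN (p + (Q + 1)))) := by
    intro c
    unfold gg
    rw [hvv, hgam]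
    ring
  simp_rw [hvv, hgg]
  rw [sum_add_distrib, sum_units_affine _ (sum_f1 _ _) _ _
    (mul_ne_zero (gam_ne_zero _ (hs_ne_zero M s) _ _) (cast_sub_ne_zero _ _ hk)), sum_const,
    card_univ, nsmul_eq_mul, card_units]
  have := btwo (b := b)
  have h2 : (b : ℝ) - 1 ≠ 0 := by linarith
  field_simp
  ring

lemma sum_range_card_le_one (A : ℕ) (P : ℕ → Prop) [DecidablePred P]
    (hP : ∀ i < A, ∀ i' < A, P i → P i' → i = i') : ((range A).filter P).card ≤ 1 := by
  rw [card_le_one]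
  intro i hi i' hi'
  rw [mem_filter, mem_range] at hi hi'
  exact hP i hi.1 i' hi'.1 hi.2 hi'.2

lemma cast_inj_of_lt (A : ZMod b) (i i' : ℕ) (hi : i < A.val) (hi' : i' < A.val)
    (h : (i : ZMod b) = i') : i = i' := by
  have h1 := congrArg ZMod.val h
  rwa [ZMod.val_natCast_of_lt (hi.trans (ZMod.val_lt A)),
    ZMod.val_natCast_of_lt (hi'.trans (ZMod.val_lt A))] at h1

lemma T2_mean (M : ℕ) (s : ℕ → (ZMod b)ˣ) (π : Par b) (q p : ℕ) (hq1 : 1 ≤ q) (hp1 : 1 ≤ p)
    (hM : p + q ≤ M) :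
    |∑ c : (ZMod b)ˣ, T2 (hs M (Function.update s ((q - 1) * M + (p - 1)) c)) π q p|
      ≤ 4 * ((b : ℝ) - 1) := by
  classical
  set v := (q - 1) * M + (p - 1) with hv
  obtain ⟨Q, rfl⟩ : ∃ Q, q = Q + 1 := ⟨q - 1, by omega⟩
  rw [Nat.add_sub_cancel] at hv
  have hb := btwo (b := b)
  have hb1 : (0 : ℝ) < (b : ℝ) - 1 := by linarith
  -- affine form of `vv`
  set c0 := π.y (Q + 1) - π.W (hs M s) (Q + 1) (p - 1) with hc0
  set e : ℕ → ZMod b := fun i => beta (hs M s) Q p * ((i : ZMod b) - π.x p)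
    - π.W (hs M s) Q p with he
  have hne : ∀ t < Q, ∀ m, 1 ≤ m → m ≤ M → t * M + (m - 1) ≠ v := by
    intro t ht m hm1 hm
    have : t * M + (m - 1) < Q * M + (p - 1) := idx_lt ht hm1 hm
    omega
  have hW1 : ∀ c : (ZMod b)ˣ, π.W (hs M (Function.update s v c)) (Q + 1) (p - 1)
      = π.W (hs M s) (Q + 1) (p - 1) := by
    intro c
    apply fieldW_congr_h
    intro t ht m hm1 hm
    apply hs_update_ne
    rcases Nat.lt_or_ge t Q with h1 | h1
    · exact hne t h1 m hm1 (by omega)
    · have : t = Q := by omega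
      subst this; omega
  have hW2 : ∀ c : (ZMod b)ˣ, π.W (hs M (Function.update s v c)) Q p
      = π.W (hs M s) Q p := by
    intro c
    apply fieldW_congr_h
    intro t ht m hm1 hm
    exact hs_update_ne _ _ _ _ _ _ (hne t ht m hm1 (by omega))
  have hW3 : ∀ c : (ZMod b)ˣ, π.W (hs M (Function.update s v c)) (Q + 1) p
      = π.W (hs M s) (Q + 1) (p - 1) + c * π.W (hs M s) Q p := by
    intro c
    rw [← hW1 c, ← hW2 c]
    unfold Par.W
    rw [fieldW_step _ _ _ _ _ hp1, hs_update_eq _ _ _ _ _ _ hv.symm]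
  have hbeta : ∀ c : (ZMod b)ˣ, beta (hs M (Function.update s v c)) (Q + 1) p
      = beta (hs M s) Q p * c := by
    intro c
    rw [beta_succ, hs_update_eq _ _ _ _ _ _ hv.symm]
    congr 1
    apply beta_congr
    intro t ht
    exact hs_update_ne _ _ _ _ _ _ (hne t ht p hp1 (by omega))
  have hvv : ∀ (c : (ZMod b)ˣ) (i : ℕ), vv (hs M (Function.update s v c)) π (Q + 1) p i
      = c0 + c * e i := by
    intro c i
    unfold vv
    rw [hW3, hbeta, hc0, he]
    ring
  -- sum over `i`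
  set g := f1 (π.y (Q + 1)) (π.y (Q + 1 + 1)) with hg
  have hsum_i : ∀ i, |∑ c : (ZMod b)ˣ, g (c0 + c * e i)|
      ≤ 2 + (if e i = 0 then 2 * ((b : ℝ) - 1) else 0) := by
    intro i
    by_cases hei : e i = 0
    · rw [if_pos hei]
      simp_rw [hei, mul_zero, add_zero]
      rw [sum_const, card_univ, nsmul_eq_mul, card_units, abs_mul, abs_of_pos hb1]
      have := abs_f1_le (π.y (Q + 1)) (π.y (Q + 1 + 1)) c0
      rw [← hg] at this
      nlinarith
    · rw [if_neg hei, sum_units_affine _ (sum_f1 _ _) _ _ hei, abs_neg, add_zero]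
      exact abs_f1_le _ _ _
  have htotal : |∑ i ∈ range (π.x p).val, ∑ c : (ZMod b)ˣ, g (c0 + c * e i)|
      ≤ 4 * ((b : ℝ) - 1) := by
    calc |∑ i ∈ range (π.x p).val, ∑ c : (ZMod b)ˣ, g (c0 + c * e i)|
        ≤ ∑ i ∈ range (π.x p).val, |∑ c : (ZMod b)ˣ, g (c0 + c * e i)| := abs_sum_le_sum_abs _ _
      _ ≤ ∑ i ∈ range (π.x p).val, (2 + (if e i = 0 then 2 * ((b : ℝ) - 1) else 0)) :=
          sum_le_sum (fun i _ => hsum_i i)
      _ = (π.x p).val * 2 + ((range (π.x p).val).filter (fun i => e i = 0)).card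
            * (2 * ((b : ℝ) - 1)) := by
          rw [sum_add_distrib, sum_const, card_range, nsmul_eq_mul, ← sum_filter, sum_const,
            nsmul_eq_mul]
      _ ≤ ((b : ℝ) - 1) * 2 + 1 * (2 * ((b : ℝ) - 1)) := by
          have h1 : ((π.x p).val : ℝ) ≤ (b : ℝ) - 1 := by
            have := ZMod.val_lt (π.x p)
            have h2 : (π.x p).val + 1 ≤ b := this
            have h3 : (((π.x p).val + 1 : ℕ) : ℝ) ≤ b := by exact_mod_cast h2
            push_cast at h3; linarith
          have h2 : (((range (π.x p).val).filter (fun i => e i = 0)).card : ℝ) ≤ 1 := by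
            have := sum_range_card_le_one (π.x p).val (fun i => e i = 0) (by
              intro i hi i' hi' h1 h2
              apply cast_inj_of_lt (π.x p) i i' hi hi'
              have hβ := beta_ne_zero (hs M s) (hs_ne_zero M s) Q p
              have h3 : beta (hs M s) Q p * ((i : ZMod b) - i') = 0 := by
                rw [he] at h1 h2
                linear_combination h1 - h2
              rcases mul_eq_zero.mp h3 with h4 | h4
              · exact absurd h4 hβ
              · exact sub_eq_zero.mp h4)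
            exact_mod_cast this
          have h3 : 0 ≤ 2 * ((b : ℝ) - 1) := by linarith
          gcongr
      _ = 4 * ((b : ℝ) - 1) := by ring
  have hrew : ∑ c : (ZMod b)ˣ, T2 (hs M (Function.update s v c)) π (Q + 1) p
      = - ((π.NN (p + (Q + 1))).val * (1 / ((b : ℝ) - 1)))
        * ∑ i ∈ range (π.x p).val, ∑ c : (ZMod b)ˣ, g (c0 + c * e i) := by
    unfold T2
    simp_rw [hvv]
    rw [sum_neg_distrib, sum_comm, neg_mul, mul_sum]
    congr 1
    apply sum_congr rfl
    intro i _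
    rw [mul_sum]
    apply sum_congr rfl
    intro c _
    rw [sum_const, card_range, nsmul_eq_mul]
    ring
  rw [hrew, abs_mul, abs_neg]
  have hfac : |((π.NN (p + (Q + 1))).val : ℝ) * (1 / ((b : ℝ) - 1))| ≤ 1 := by
    rw [abs_of_nonneg (by positivity), mul_one_div, div_le_one hb1]
    have := ZMod.val_lt (π.NN (p + (Q + 1)))
    have h2 : (π.NN (p + (Q + 1))).val + 1 ≤ b := this
    have h3 : (((π.NN (p + (Q + 1))).val + 1 : ℕ) : ℝ) ≤ b := by exact_mod_cast h2
    push_cast at h3; linarith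
  calc _ ≤ 1 * (4 * ((b : ℝ) - 1)) := mul_le_mul hfac htotal (abs_nonneg _) zero_le_one
    _ = _ := one_mul _

lemma T3_mean (M : ℕ) (s : ℕ → (ZMod b)ˣ) (π : Par b) (q p : ℕ) (hq1 : 1 ≤ q) (hp1 : 1 ≤ p)
    (hM : p + q ≤ M) :
    |∑ c : (ZMod b)ˣ, T3 (hs M (Function.update s (q * M + (p - 1)) c)) π q p|
      ≤ 4 * ((b : ℝ) - 1) := by
  classical
  set v := q * M + (p - 1) with hv
  have hb := btwo (b := b)
  have hb1 : (0 : ℝ) < (b : ℝ) - 1 := by linarith
  have hqM : (q - 1) * M + M = q * M := by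
    obtain ⟨q', rfl⟩ : ∃ q', q = q' + 1 := ⟨q - 1, by omega⟩
    rw [Nat.add_sub_cancel]; ring
  have hgg : ∀ (c : (ZMod b)ˣ) (i k : ℕ), gg (hs M (Function.update s v c)) π q p i k
      = gg (hs M s) π q p i k := by
    intro c i k
    apply gg_dep M _ _ (v - 1) _ π q p i k hp1 hM (by omega)
    intro u hu
    rw [Function.update_of_ne (by omega)]
  have hW1 : ∀ c : (ZMod b)ˣ, π.W (hs M (Function.update s v c)) (q + 1) (p - 1)
      = π.W (hs M s) (q + 1) (p - 1) := by
    intro c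
    apply fieldW_congr_h
    intro t ht m hm1 hm
    apply hs_update_ne
    rcases Nat.lt_or_ge t q with h1 | h1
    · have : t * M + (m - 1) < q * M + (p - 1) := idx_lt h1 hm1 (by omega)
      omega
    · have : t = q := by omega
      subst this; omega
  have hgam : ∀ c : (ZMod b)ˣ, gam (hs M (Function.update s v c)) (q + 1) (p + q)
      = gam (hs M s) q (p + q) * (- (c : ZMod b)) := by
    intro c
    rw [gam_succ]
    congr 1
    · apply gam_congr
      intro t ht
      apply hs_update_ne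
      have : t * M + (p + q - t - 1) < q * M + (p - 1) := idx_lt ht (by omega) (by omega)
      omega
    · rw [hs_update_eq]
      omega
  have hgn : ∀ (c : (ZMod b)ˣ) (k : ℕ), gn (hs M (Function.update s v c)) π q p k
      = (π.y (q + 1) - π.W (hs M s) (q + 1) (p - 1))
        + c * (gam (hs M s) q (p + q) * ((k : ZMod b) - π.NN (p + q))) := by
    intro c k
    unfold gn
    rw [hW1, hgam]
    ring
  unfold T3
  simp_rw [hgg, hgn]
  rw [sum_comm]
  have hterm : ∀ i < (π.x p).val, |∑ c : (ZMod b)ˣ, ∑ k ∈ range (π.NN (p + q)).val,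
      (if gg (hs M s) π q p i k = π.y q then f3 (π.y (q + 1))
        ((π.y (q + 1) - π.W (hs M s) (q + 1) (p - 1))
        + c * (gam (hs M s) q (p + q) * ((k : ZMod b) - π.NN (p + q)))) else 0)| ≤ 1 := by
    intro i hi
    rw [sum_comm]
    have hk : ∀ k ∈ range (π.NN (p + q)).val, |∑ c : (ZMod b)ˣ,
        (if gg (hs M s) π q p i k = π.y q then f3 (π.y (q + 1))
        ((π.y (q + 1) - π.W (hs M s) (q + 1) (p - 1))
        + c * (gam (hs M s) q (p + q) * ((k : ZMod b) - π.NN (p + q)))) else 0)|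
        ≤ (if gg (hs M s) π q p i k = π.y q then 1 else 0) := by
      intro k hk
      rw [mem_range] at hk
      by_cases hc : gg (hs M s) π q p i k = π.y q
      · simp_rw [if_pos hc]
        rw [sum_units_affine _ (sum_f3 _) _ _ (mul_ne_zero (gam_ne_zero _ (hs_ne_zero M s) _ _)
          (cast_sub_ne_zero _ _ hk)), abs_neg]
        exact abs_f3_le _ _
      · simp_rw [if_neg hc]
        simp
    calc _ ≤ ∑ k ∈ range (π.NN (p + q)).val, |∑ c : (ZMod b)ˣ,
        (if gg (hs M s) π q p i k = π.y q then f3 (π.y (q + 1))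
        ((π.y (q + 1) - π.W (hs M s) (q + 1) (p - 1))
        + c * (gam (hs M s) q (p + q) * ((k : ZMod b) - π.NN (p + q)))) else 0)| :=
          abs_sum_le_sum_abs _ _
      _ ≤ ∑ k ∈ range (π.NN (p + q)).val,
          (if gg (hs M s) π q p i k = π.y q then (1 : ℝ) else 0) := sum_le_sum hk
      _ = (((range (π.NN (p + q)).val).filter
          (fun k => gg (hs M s) π q p i k = π.y q)).card : ℝ) := by
          rw [sum_boole]
      _ ≤ 1 := by
          have := sum_range_card_le_one (π.NN (p + q)).val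
            (fun k => gg (hs M s) π q p i k = π.y q) (by
              intro k hk k' hk' h1 h2
              apply cast_inj_of_lt (π.NN (p + q)) k k' hk hk'
              have hγ := gam_ne_zero (hs M s) (hs_ne_zero M s) q (p + q)
              have h3 : gam (hs M s) q (p + q) * ((k : ZMod b) - k') = 0 := by
                unfold gg at h1 h2
                linear_combination h2 - h1
              rcases mul_eq_zero.mp h3 with h4 | h4
              · exact absurd h4 hγ
              · exact sub_eq_zero.mp h4)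
          exact_mod_cast this
  calc _ ≤ ∑ i ∈ range (π.x p).val, |∑ c : (ZMod b)ˣ, ∑ k ∈ range (π.NN (p + q)).val,
      (if gg (hs M s) π q p i k = π.y q then f3 (π.y (q + 1))
        ((π.y (q + 1) - π.W (hs M s) (q + 1) (p - 1))
        + c * (gam (hs M s) q (p + q) * ((k : ZMod b) - π.NN (p + q)))) else 0)| :=
        abs_sum_le_sum_abs _ _
    _ ≤ ∑ i ∈ range (π.x p).val, (1 : ℝ) := by
        apply sum_le_sum
        intro i hi
        exact hterm i (mem_range.mp hi)
    _ = (π.x p).val := by simp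
    _ ≤ 4 * ((b : ℝ) - 1) := by
        have := ZMod.val_lt (π.x p)
        have h2 : (π.x p).val + 1 ≤ b := this
        have h3 : (((π.x p).val + 1 : ℕ) : ℝ) ≤ b := by exact_mod_cast h2
        push_cast at h3; linarith

end Pool.Agent.Helper4.Disc
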