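import Mathlib
import Pool.Agent.Helper4.Disc.Conc
import Pool.Agent.Helper4.Disc.Digits
import Pool.Agent.Helper4.Disc.NodeMean

open Finset

namespace Pool.Agent.Helper4.Disc

/-- guard: the node `(q, p)` is valid -/
noncomputable def guard (M : ℕ) (T : ℕ → ℕ → ℝ) (q p : ℕ) : ℝ :=
  if 1 ≤ q ∧ 1 ≤ p ∧ p + q ≤ M then T q p else 0

/-- sum over all valid nodes -/
noncomputable def NS (M : ℕ) (T : ℕ → ℕ → ℝ) : ℝ :=
  ∑ q ∈ range (M + 1), ∑ p ∈ range (M + 1), guard M T q p

lemma guard_zero_left (M : ℕ) (T : ℕ → ℕ → ℝ) (p : ℕ) : guard M T 0 p = 0 := by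
  unfold guard; rw [if_neg (by omega)]

lemma guard_zero_right (M : ℕ) (T : ℕ → ℕ → ℝ) (q : ℕ) : guard M T q 0 = 0 := by
  unfold guard; rw [if_neg (by omega)]

lemma guard_top_left (M : ℕ) (T : ℕ → ℕ → ℝ) (p : ℕ) : guard M T M p = 0 := by
  unfold guard; rw [if_neg (by omega)]

lemma guard_top_right (M : ℕ) (T : ℕ → ℕ → ℝ) (q : ℕ) : guard M T q M = 0 := by
  unfold guard; rw [if_neg (by omega)]

lemma sum_index (M : ℕ) (hM : 0 < M) (G : ℕ → ℕ → ℝ) :
    ∑ v ∈ range (M * M), G (v / M) (v % M) = ∑ q ∈ range M, ∑ r ∈ range M, G q r := by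
  rw [sum_range_mul' M M (fun v => G (v / M) (v % M))]
  apply sum_congr rfl; intro q _
  apply sum_congr rfl; intro r hr
  rw [mem_range] at hr
  rw [mul_comm q M, Nat.mul_add_div hM, Nat.div_eq_of_lt hr, Nat.add_zero, Nat.mul_add_mod,
    Nat.mod_eq_of_lt hr]

lemma NS_eq1 (M : ℕ) (hM : 0 < M) (T : ℕ → ℕ → ℝ) :
    ∑ v ∈ range (M * M), guard M T (v / M + 1) (v % M) = NS M T := by
  rw [sum_index M hM (fun q r => guard M T (q + 1) r)]
  unfold NS
  rw [sum_range_succ' _ M]
  simp_rw [guard_zero_left, sum_const_zero, add_zero]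
  apply sum_congr rfl; intro q _
  rw [sum_range_succ, guard_top_right, add_zero]

lemma NS_eq2 (M : ℕ) (hM : 0 < M) (T : ℕ → ℕ → ℝ) :
    ∑ v ∈ range (M * M), guard M T (v / M + 1) (v % M + 1) = NS M T := by
  rw [sum_index M hM (fun q r => guard M T (q + 1) (r + 1))]
  unfold NS
  rw [sum_range_succ' _ M]
  simp_rw [guard_zero_left, sum_const_zero, add_zero]
  apply sum_congr rfl; intro q _
  rw [sum_range_succ' _ M, guard_zero_right, add_zero]

lemma NS_eq3 (M : ℕ) (hM : 0 < M) (T : ℕ → ℕ → ℝ) :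
    ∑ v ∈ range (M * M), guard M T (v / M) (v % M + 1) = NS M T := by
  rw [sum_index M hM (fun q r => guard M T q (r + 1))]
  unfold NS
  rw [sum_range_succ _ M]
  simp_rw [guard_top_left, sum_const_zero, add_zero]
  apply sum_congr rfl; intro q _
  rw [sum_range_succ' _ M, guard_zero_right, add_zero]

variable {b : ℕ} [Fact b.Prime]

/-- extension of a finite digit vector by zero -/
def extz (M : ℕ) (f : Fin (M + 2) → ZMod b) (m : ℕ) : ZMod b :=
  if hm : m < M + 2 then f ⟨m, hm⟩ else 0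

lemma extz_eq (M : ℕ) (g : ℕ → ZMod b) (hg : ∀ m, M + 2 ≤ m → g m = 0) :
    extz M (fun i => g i) = g := by
  funext m
  unfold extz
  split_ifs with h
  · rfl
  · exact (hg m (by omega)).symm

abbrev PF (b M : ℕ) : Type :=
  (Fin (M + 2) → ZMod b) × (Fin (M + 2) → ZMod b) × (Fin (M + 2) → ZMod b) ×
    (Fin (M + 2) → ZMod b)

def toPar (M : ℕ) (f : PF b M) : Par b :=
  ⟨extz M f.1, extz M f.2.1, extz M f.2.2.1, extz M f.2.2.2⟩

def sg (σ : Bool) : ℝ := if σ then 1 else -1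

lemma abs_sg (σ : Bool) : |sg σ| = 1 := by
  unfold sg; split_ifs <;> simp

/-- the three families of local terms as functions of the linear index -/
noncomputable def FF (M : ℕ) (v : ℕ) (P : PF b M × Fin 3 × Bool) (s : ℕ → (ZMod b)ˣ) : ℝ :=
  sg P.2.2 * (if P.2.1 = 0 then guard M (T1 (hs M s) (toPar M P.1)) (v / M + 1) (v % M)
    else if P.2.1 = 1 then guard M (T2 (hs M s) (toPar M P.1)) (v / M + 1) (v % M + 1)
    else guard M (T3 (hs M s) (toPar M P.1)) (v / M) (v % M + 1))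

lemma div_mod_le (M v : ℕ) : v / M * M + v % M = v := by
  rw [mul_comm]; exact Nat.div_add_mod v M

lemma FF_dep (M v : ℕ) (P : PF b M × Fin 3 × Bool) (s s' : ℕ → (ZMod b)ˣ)
    (heq : ∀ u ≤ v, s u = s' u) : FF M v P s = FF M v P s' := by
  unfold FF
  have hv := div_mod_le M v
  congr 1
  split_ifs with h0 h1
  · unfold guard
    split_ifs with h2
    · apply T1_dep M s s' v heq _ _ _ h2.2.1 h2.2.2
      rw [Nat.add_sub_cancel]; omega
    · rfl
  · unfold guard
    split_ifs with h2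
    · apply T2_dep M s s' v heq _ _ _ h2.2.1 h2.2.2
      rw [Nat.add_sub_cancel, Nat.add_sub_cancel]; omega
    · rfl
  · unfold guard
    split_ifs with h2
    · apply T3_dep M s s' v heq _ _ _ h2.1 h2.2.1 h2.2.2
      rw [Nat.add_sub_cancel]; omega
    · rfl

lemma FF_bd (M v : ℕ) (P : PF b M × Fin 3 × Bool) (s : ℕ → (ZMod b)ˣ) :
    |FF M v P s| ≤ 8 * (b : ℝ) ^ 2 := by
  have hnn : (0 : ℝ) ≤ 8 * (b : ℝ) ^ 2 := by positivity
  unfold FF
  rw [abs_mul, abs_sg, one_mul]
  split_ifs with h0 h1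
  · unfold guard
    split_ifs
    · exact abs_T1_le _ _ _ _
    · simp
  · unfold guard
    split_ifs
    · exact abs_T2_le _ _ _ _
    · simpa using hnn
  · unfold guard
    split_ifs
    · exact abs_T3_le _ _ _ _
    · simpa using hnn

lemma FF_mean (M v : ℕ) (P : PF b M × Fin 3 × Bool) (s : ℕ → (ZMod b)ˣ) :
    |∑ c : (ZMod b)ˣ, FF M v P (Function.update s v c)| ≤ 4 * Fintype.card (ZMod b)ˣ := by
  have hb := btwo (b := b)
  have hnn : (0 : ℝ) ≤ 4 * ((b : ℝ) - 1) := by linarith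
  rw [card_units]
  unfold FF
  rw [← mul_sum, abs_mul, abs_sg, one_mul]
  have hv := div_mod_le M v
  by_cases h0 : P.2.1 = 0
  · simp_rw [if_pos h0]
    unfold guard
    by_cases h2 : 1 ≤ v / M + 1 ∧ 1 ≤ v % M ∧ v % M + (v / M + 1) ≤ M
    · simp_rw [if_pos h2]
      have := T1_mean M s (toPar M P.1) (v / M + 1) (v % M) h2.1 h2.2.1 h2.2.2
      rw [Nat.add_sub_cancel, hv] at this
      rw [this, abs_zero]
      exact hnn
    · simp_rw [if_neg h2]
      simpa using hnn
  · simp_rw [if_neg h0]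
    by_cases h1 : P.2.1 = 1
    · simp_rw [if_pos h1]
      unfold guard
      by_cases h2 : 1 ≤ v / M + 1 ∧ 1 ≤ v % M + 1 ∧ v % M + 1 + (v / M + 1) ≤ M
      · simp_rw [if_pos h2]
        have := T2_mean M s (toPar M P.1) (v / M + 1) (v % M + 1) h2.1 h2.2.1 h2.2.2
        rw [Nat.add_sub_cancel, Nat.add_sub_cancel, hv] at this
        exact this
      · simp_rw [if_neg h2]
        simpa using hnn
    · simp_rw [if_neg h1]
      unfold guard
      by_cases h2 : 1 ≤ v / M ∧ 1 ≤ v % M + 1 ∧ v % M + 1 + v / M ≤ M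
      · simp_rw [if_pos h2]
        have := T3_mean M s (toPar M P.1) (v / M) (v % M + 1) h2.1 h2.2.1 h2.2.2
        rw [Nat.add_sub_cancel, hv] at this
        exact this
      · simp_rw [if_neg h2]
        simpa using hnn

lemma card_PF (M : ℕ) : (Fintype.card (PF b M × Fin 3 × Bool) : ℝ)
    = 6 * (b : ℝ) ^ (4 * (M + 2)) := by
  rw [Fintype.card_prod, Fintype.card_prod, Fintype.card_prod, Fintype.card_prod,
    Fintype.card_prod]
  simp only [Fintype.card_pi, ZMod.card, prod_const, card_univ, Fintype.card_fin,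
    Fintype.card_bool]
  push_cast
  ring

/-- Existence of a good array. -/
theorem exists_good_array (M : ℕ) (hM : 64 * b ^ 4 * (2 + 12 * b) ≤ M) :
    ∃ h : ℕ → ℕ → ZMod b, (∀ q m, h q m ≠ 0) ∧
      ∀ π : Par b, (∀ m, M + 2 ≤ m → π.x m = 0 ∧ π.y m = 0 ∧ π.NN m = 0 ∧ π.om m = 0) →
        |NS M (T1 h π)| ≤ 6 * (M : ℝ) ^ 2 ∧ |NS M (T2 h π)| ≤ 6 * (M : ℝ) ^ 2 ∧
        |NS M (T3 h π)| ≤ 6 * (M : ℝ) ^ 2 := by
  have hb := btwo (b := b)
  have hbpos := bpos (b := b)
  have hbn : 2 ≤ b := (Fact.out : b.Prime).two_le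
  have hMpos : 0 < M := by
    refine lt_of_lt_of_le ?_ hM
    positivity
  have hM1 : (1 : ℝ) ≤ M := by exact_mod_cast hMpos
  set B : ℝ := 8 * (b : ℝ) ^ 2 with hB
  have hB1 : 1 ≤ B := by rw [hB]; nlinarith
  set lam : ℝ := 1 / B ^ 2 with hlam
  have hlam0 : 0 < lam := by positivity
  have hlB : lam * B = 1 / B := by rw [hlam]; field_simp
  have hlB1 : lam * B ≤ 1 := by rw [hlB, div_le_one (by linarith)]; exact hB1
  have hlB2 : (lam * B) ^ 2 = lam := by rw [hlB, hlam]; ring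
  obtain ⟨s, hpot⟩ := derand (fun v P s => FF (b := b) M v P s) 4 B lam hlam0.le hlB1 (M * M)
    (fun v _ P s s' heq => FF_dep M v P s s' heq) (fun v _ P s => FF_bd M v P s)
    (fun v _ P s => FF_mean M v P s)
  have hbound : ∀ P : PF b M × Fin 3 × Bool,
      ∑ v ∈ range (M * M), FF M v P s ≤ 6 * (M : ℝ) ^ 2 := by
    intro P
    have h1 : Real.exp (lam * ∑ v ∈ range (M * M), FF M v P s)
        ≤ Fintype.card (PF b M × Fin 3 × Bool)
          * Real.exp ((M * M : ℕ) * (lam * 4 + (lam * B) ^ 2)) := by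
      refine le_trans ?_ hpot
      exact single_le_sum (f := fun P => Real.exp (lam * ∑ v ∈ range (M * M), FF M v P s))
        (fun P _ => Real.exp_nonneg _) (mem_univ P)
    have hcpos : (0 : ℝ) < Fintype.card (PF b M × Fin 3 × Bool) := by
      rw [card_PF]; positivity
    have h2 := Real.log_le_log (Real.exp_pos _) h1
    rw [Real.log_exp, Real.log_mul hcpos.ne' (Real.exp_pos _).ne', Real.log_exp, hlB2, card_PF,
      Real.log_mul (by norm_num) (by positivity), Real.log_pow] at h2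
    have hlog6 : Real.log 6 ≤ 2 := by
      rw [Real.log_le_iff_le_exp (by norm_num)]
      have h3 := Real.exp_one_gt_d9
      have h4 : Real.exp 2 = Real.exp 1 * Real.exp 1 := by rw [← Real.exp_add]; norm_num
      rw [h4]
      nlinarith
    have hlogb : Real.log b ≤ b := by
      have := Real.log_le_sub_one_of_pos hbpos; linarith
    have hlogb0 : 0 ≤ Real.log b := Real.log_nonneg (by linarith)
    have h5 : lam * ∑ v ∈ range (M * M), FF M v P s
        ≤ (2 + 12 * b) * M + (M : ℝ) ^ 2 * (5 * lam) := by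
      refine h2.trans ?_
      push_cast
      have h6 : Real.log 6 + 4 * ((M : ℝ) + 2) * Real.log b ≤ (2 + 12 * b) * M := by
        have h7 : 4 * ((M : ℝ) + 2) * Real.log b ≤ 4 * (3 * M) * b := by
          gcongr
          linarith
        nlinarith
      have h8 : (M : ℝ) * M * (lam * 4 + lam) = (M : ℝ) ^ 2 * (5 * lam) := by ring
      rw [h8]
      linarith
    have h9 : ∑ v ∈ range (M * M), FF M v P s ≤ B ^ 2 * ((2 + 12 * b) * M) + 5 * (M : ℝ) ^ 2 := by
      have h10 : lam * (B ^ 2 * ((2 + 12 * b) * M) + 5 * (M : ℝ) ^ 2)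
          = (2 + 12 * b) * M + (M : ℝ) ^ 2 * (5 * lam) := by
        rw [hlam]; field_simp
      rw [← h10] at h5
      exact le_of_mul_le_mul_left h5 hlam0
    have h11 : B ^ 2 * ((2 + 12 * b) * M) ≤ (M : ℝ) ^ 2 := by
      have h12 : ((64 * b ^ 4 * (2 + 12 * b) : ℕ) : ℝ) ≤ M := by exact_mod_cast hM
      push_cast at h12
      calc B ^ 2 * ((2 + 12 * (b : ℝ)) * M) = (64 * (b : ℝ) ^ 4 * (2 + 12 * b)) * M := by
            rw [hB]; ring
        _ ≤ (M : ℝ) * M := by gcongr
        _ = (M : ℝ) ^ 2 := by ring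
    linarith
  refine ⟨hs M s, fun q m => hs_ne_zero M s q m, ?_⟩
  intro π hπ
  set f : PF b M := (fun i => π.x i, fun i => π.y i, fun i => π.NN i, fun i => π.om i) with hf
  have hpar : toPar M f = π := by
    unfold toPar
    rw [hf]
    simp only
    rw [extz_eq M π.x (fun m hm => (hπ m hm).1), extz_eq M π.y (fun m hm => (hπ m hm).2.1),
      extz_eq M π.NN (fun m hm => (hπ m hm).2.2.1), extz_eq M π.om (fun m hm => (hπ m hm).2.2.2)]
  have hcase : ∀ (τ : Fin 3) (S : ℝ),
      (∀ σ, ∑ v ∈ range (M * M), FF M v (f, τ, σ) s = sg σ * S) → |S| ≤ 6 * (M : ℝ) ^ 2 := by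
    intro τ S hS
    have h1 := hbound (f, τ, true)
    have h2 := hbound (f, τ, false)
    rw [hS true] at h1
    rw [hS false] at h2
    unfold sg at h1 h2
    simp only [if_true, Bool.false_eq_true, if_false, one_mul, neg_mul] at h1 h2
    rw [abs_le]
    constructor <;> linarith
  refine ⟨hcase 0 _ ?_, hcase 1 _ ?_, hcase 2 _ ?_⟩
  · intro σ
    unfold FF
    simp only [hpar, if_true]
    rw [← mul_sum, NS_eq1 M hMpos]
  · intro σ
    unfold FF
    simp only [hpar]
    rw [← mul_sum]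
    congr 1
    simp only [Fin.isValue, one_ne_zero, if_false, if_true]
    exact NS_eq2 M hMpos _
  · intro σ
    unfold FF
    simp only [hpar]
    rw [← mul_sum]
    congr 1
    have h20 : ¬ ((2 : Fin 3) = 0) := by decide
    have h21 : ¬ ((2 : Fin 3) = 1) := by decide
    simp only [h20, h21, if_false]
    exact NS_eq3 M hMpos _

end Pool.Agent.Helper4.Disc
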