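import Mathlib
import Pool.Agent.Helper4.Disc.Field
import Pool.Agent.Helper4.Disc.Digits
import Pool.Agent.Helper4.Disc.Node
import Pool.Agent.Helper4.Disc.Exists

open Finset

namespace Pool.Agent.Helper4.Disc

variable {b : ℕ} [Fact b.Prime]

/-- digit vector of `n` in `ZMod b` -/
def vec (b n : ℕ) (m : ℕ) : ZMod b := (dg b n m : ZMod b)

/-- the `q`-th digit of the second coordinate of the `n`-th point -/
def ynat (h : ℕ → ℕ → ZMod b) (M n q : ℕ) : ℕ := (- fieldA h M (vec b n) q 0).val

/-- second coordinate (an integer below `b^M`) -/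
def Yc (h : ℕ → ℕ → ZMod b) (M n : ℕ) : ℕ := top b (ynat h M n) M

/-- first coordinate (an integer below `b^M`) -/
def Xc (b M n : ℕ) : ℕ := top b (dg b n) M

lemma bposn : 0 < b := (Fact.out : b.Prime).pos

lemma bgt1 : 1 < b := (Fact.out : b.Prime).one_lt

lemma ynat_lt (h : ℕ → ℕ → ZMod b) (M n q : ℕ) : ynat h M n q < b := ZMod.val_lt _

lemma val_cast (t : ℕ) (ht : t < b) : ((t : ZMod b)).val = t := ZMod.val_natCast_of_lt ht

lemma cast_inj_b (t t' : ℕ) (ht : t < b) (ht' : t' < b) (h : (t : ZMod b) = t') : t = t' := by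
  have h1 := congrArg ZMod.val h
  rwa [val_cast t ht, val_cast t' ht'] at h1

/-- parameters attached to a target `(X, Y, N)` -/
def tpar (h : ℕ → ℕ → ZMod b) (M X Y N : ℕ) : Par b where
  x := fun m => (tdg b M X m : ZMod b)
  y := fun m => (tdg b M Y m : ZMod b)
  NN := vec b N
  om := fun j => fieldA h M (vec b N) j 0 + (tdg b M Y j : ZMod b)

lemma tpar_supp (h : ℕ → ℕ → ZMod b) (M X Y N : ℕ) (hN : N < b ^ M) (m : ℕ) (hm : M + 2 ≤ m) :
    (tpar h M X Y N).x m = 0 ∧ (tpar h M X Y N).y m = 0 ∧ (tpar h M X Y N).NN m = 0 ∧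
      (tpar h M X Y N).om m = 0 := by
  have h1 : ∀ Z, tdg b M Z m = 0 := by
    intro Z; unfold tdg; rw [if_neg (by omega)]
  have h2 : ∀ m', M < m' → vec b N m' = 0 := by
    intro m' hm'
    unfold vec
    rw [dg_eq_zero bgt1 N M m' hN hm', Nat.cast_zero]
  refine ⟨?_, ?_, h2 m (by omega), ?_⟩
  · show ((tdg b M X m : ℕ) : ZMod b) = 0
    rw [h1]; simp
  · show ((tdg b M Y m : ℕ) : ZMod b) = 0
    rw [h1]; simp
  · show fieldA h M (vec b N) m 0 + (tdg b M Y m : ZMod b) = 0
    rw [h1, fieldA_right h M (vec b N) M h2 m 0 (by omega)]; simp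

/-- the integer with prescribed low digits, digit `i` at `p`, free digits `u`, digit `k` at `l`
and top digits of `N` -/
def blk (b M X N l k p i u : ℕ) : ℕ :=
  low b (tdg b M X) (p - 1) + i * b ^ (p - 1) + b ^ p * u + b ^ (l - 1) * (N / b ^ l * b + k)

section Blk

variable (M X N l k p i u : ℕ)

lemma blk_c_lt (hp : 1 ≤ p) (hi : i < b) :
    low b (tdg b M X) (p - 1) + i * b ^ (p - 1) < b ^ p := by
  have h1 := low_lt (bposn (b := b)) (tdg b M X) (tdg_lt bposn M X) (p - 1)
  have h2 : b ^ p = b * b ^ (p - 1) := by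
    rw [← pow_succ']; congr 1; omega
  rw [h2]
  calc low b (tdg b M X) (p - 1) + i * b ^ (p - 1) < b ^ (p - 1) + i * b ^ (p - 1) := by omega
    _ = (i + 1) * b ^ (p - 1) := by ring
    _ ≤ b * b ^ (p - 1) := Nat.mul_le_mul_right _ hi

lemma blk_eq (hp : 1 ≤ p) (hpl : p < l) : blk b M X N l k p i u =
    (low b (tdg b M X) (p - 1) + i * b ^ (p - 1))
      + b ^ p * (u + b ^ (l - 1 - p) * (N / b ^ l * b + k)) := by
  unfold blk
  have : b ^ (l - 1) = b ^ p * b ^ (l - 1 - p) := by
    rw [← pow_add]; congr 1; omega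
  rw [this]; ring

lemma dg_blk_low (hp : 1 ≤ p) (hpl : p < l) (hi : i < b) (m : ℕ) (hm1 : 1 ≤ m) (hm : m < p) :
    dg b (blk b M X N l k p i u) m = tdg b M X m := by
  rw [blk_eq M X N l k p i u hp hpl, dg_add_low bposn _ _ _ _ hm1 (by omega)]
  have e : low b (tdg b M X) (p - 1) + i * b ^ (p - 1)
      = low b (tdg b M X) (p - 1) + b ^ (p - 1) * i := by ring
  rw [e, dg_add_low bposn _ _ _ _ hm1 (by omega)]
  exact dg_low bposn _ (tdg_lt bposn M X) _ _ hm1 (by omega)

lemma dg_blk_p (hp : 1 ≤ p) (hpl : p < l) (hi : i < b) :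
    dg b (blk b M X N l k p i u) p = i := by
  rw [blk_eq M X N l k p i u hp hpl, dg_add_low bposn _ _ _ _ hp le_rfl]
  have e : low b (tdg b M X) (p - 1) + i * b ^ (p - 1)
      = low b (tdg b M X) (p - 1) + b ^ (p - 1) * i := by ring
  rw [e, dg_add_high bposn _ _ _ _ (low_lt bposn _ (tdg_lt bposn M X) _) (by omega)]
  have : p - (p - 1) = 1 := by omega
  rw [this]
  unfold dg
  simp [Nat.mod_eq_of_lt hi]

lemma dg_blk_mid (hp : 1 ≤ p) (hpl : p < l) (hi : i < b) (m : ℕ) (hm1 : p < m) (hm : m < l) :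
    dg b (blk b M X N l k p i u) m = dg b u (m - p) := by
  rw [blk_eq M X N l k p i u hp hpl, dg_add_high bposn _ _ _ _ (blk_c_lt M X p i hp hi) hm1,
    dg_add_low bposn _ _ _ _ (by omega) (by omega)]

lemma dg_blk_high (hp : 1 ≤ p) (hpl : p < l) (hi : i < b) (hu : u < b ^ (l - 1 - p)) (m : ℕ)
    (hm : l ≤ m) :
    dg b (blk b M X N l k p i u) m = dg b (N / b ^ l * b + k) (m - l + 1) := by
  rw [blk_eq M X N l k p i u hp hpl, dg_add_high bposn _ _ _ _ (blk_c_lt M X p i hp hi)
    (by omega), dg_add_high bposn _ _ _ _ hu (by omega)]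
  congr 1; omega

lemma dg_blk_l (hp : 1 ≤ p) (hpl : p < l) (hi : i < b) (hk : k < b) (hu : u < b ^ (l - 1 - p)) :
    dg b (blk b M X N l k p i u) l = k := by
  rw [dg_blk_high M X N l k p i u hp hpl hi hu l le_rfl]
  unfold dg
  simp [Nat.add_comm, Nat.mod_eq_of_lt hk]

lemma dg_blk_N (hp : 1 ≤ p) (hpl : p < l) (hi : i < b) (hk : k < b) (hu : u < b ^ (l - 1 - p))
    (m : ℕ) (hm : l < m) :
    dg b (blk b M X N l k p i u) m = dg b N m := by
  rw [dg_blk_high M X N l k p i u hp hpl hi hu m hm.le]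
  have e : N / b ^ l * b + k = k + b ^ 1 * (N / b ^ l) := by rw [pow_one]; ring
  rw [e, dg_add_high bposn _ _ _ _ (by rwa [pow_one]) (by omega)]
  unfold dg
  rw [Nat.div_div_eq_div_mul, ← pow_add]
  congr 3; omega

lemma blk_lt (hp : 1 ≤ p) (hpl : p < l) (hlM : l ≤ M) (hi : i < b) (hk : k < b)
    (hu : u < b ^ (l - 1 - p)) (hN : N < b ^ M) :
    blk b M X N l k p i u < b ^ M := by
  rw [blk_eq M X N l k p i u hp hpl]
  have h1 := blk_c_lt (b := b) M X p i hp hi
  have h2 : N / b ^ l < b ^ (M - l) := by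
    rw [Nat.div_lt_iff_lt_mul (pow_pos bposn _), ← pow_add]
    have : M - l + l = M := by omega
    rwa [this]
  have h3 : N / b ^ l * b + k < b ^ (M - l + 1) := by
    calc N / b ^ l * b + k < N / b ^ l * b + b := by omega
      _ = (N / b ^ l + 1) * b := by ring
      _ ≤ b ^ (M - l) * b := Nat.mul_le_mul_right _ h2
      _ = _ := by rw [pow_succ]
  have h4 : u + b ^ (l - 1 - p) * (N / b ^ l * b + k) < b ^ (M - p) := by
    calc u + b ^ (l - 1 - p) * (N / b ^ l * b + k)
        < b ^ (l - 1 - p) + b ^ (l - 1 - p) * (N / b ^ l * b + k) := by omega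
      _ = b ^ (l - 1 - p) * (N / b ^ l * b + k + 1) := by ring
      _ ≤ b ^ (l - 1 - p) * b ^ (M - l + 1) := Nat.mul_le_mul_left _ h3
      _ = b ^ (M - p) := by rw [← pow_add]; congr 1; omega
  calc _ < b ^ p + b ^ p * (u + b ^ (l - 1 - p) * (N / b ^ l * b + k)) := by omega
    _ = b ^ p * (u + b ^ (l - 1 - p) * (N / b ^ l * b + k) + 1) := by ring
    _ ≤ b ^ p * b ^ (M - p) := Nat.mul_le_mul_left _ h4
    _ = b ^ M := by rw [← pow_add]; congr 1; omega

end Blk

/-- comparison at a position where the preceding digits agree -/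
lemma cmp_digit (d d' : ℕ → ℕ) (hd : ∀ m, d m < b) (hd' : ∀ m, d' m < b) (f M : ℕ)
    (hf : f + 1 ≤ M) (heq : top b d f = top b d' f) :
    (d (f + 1) < d' (f + 1) → top b d M < top b d' M) ∧
    (d' (f + 1) < d (f + 1) → ¬ top b d M < top b d' M) := by
  constructor
  · intro h
    apply top_lt_top bposn d d' hd (f + 1) M hf
    rw [top_succ, top_succ, heq]; omega
  · intro h
    have : top b d' M < top b d M := by
      apply top_lt_top bposn d' d hd' (f + 1) M hf
      rw [top_succ, top_succ, heq]; omega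
    omega

/-- The count in a sub-block. -/
lemma local_count (h : ℕ → ℕ → ZMod b) (hne : ∀ q m, h q m ≠ 0) (M X Y N l k p i : ℕ)
    (hN : N < b ^ M) (hY : Y < b ^ M) (hp : 1 ≤ p) (hpl : p < l)
    (hlM : l ≤ M) (hi : i < b) (hk : k < b) :
    ∃ ρ : ℕ, ρ ≤ 1 ∧
      (((range (b ^ (l - 1 - p))).filter
        (fun u => Yc h M (blk b M X N l k p i u) < Y)).card : ℝ) =
      (Y / b ^ (M - (l - 1 - p)) : ℕ)
        + (f1 ((tpar h M X Y N).y (l - p)) ((tpar h M X Y N).y (l - p + 1))
            (gg h (tpar h M X Y N) (l - p) p i k)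
          + (if gg h (tpar h M X Y N) (l - p) p i k = (tpar h M X Y N).y (l - p) then
              f3 ((tpar h M X Y N).y (l - p + 1)) (gn h (tpar h M X Y N) (l - p) p k) else 0))
        + ((tdg b M Y (l - p) : ℕ) : ℝ) / b + ((tdg b M Y (l - p + 1) : ℕ) : ℝ) / b ^ 2
        + (if gg h (tpar h M X Y N) (l - p) p i k = (tpar h M X Y N).y (l - p) ∧
            gn h (tpar h M X Y N) (l - p) p k = (tpar h M X Y N).y (l - p + 1) then (ρ : ℝ)
            else 0) := by
  classical
  set f := l - 1 - p with hf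
  set π := tpar h M X Y N with hπ
  set n : ℕ → ℕ := fun u => blk b M X N l k p i u with hn
  have hYtop : ∀ j ≤ M, top b (tdg b M Y) j = Y / b ^ (M - j) := fun j hj => top_tdg bposn M Y hY j hj
  have hYM : top b (tdg b M Y) M = Y := by rw [hYtop M le_rfl]; simp
  have htlt : Y / b ^ (M - f) < b ^ f := by
    rw [← hYtop f (by omega)]; exact top_lt bposn _ (tdg_lt bposn M Y) f
  -- the counting lemma
  obtain ⟨u₀, hu₀, hφ₀, hcount⟩ := count_split (b ^ f) (Y / b ^ (M - f)) htlt
    (fun u => top b (ynat h M (n u)) f)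
    (fun u _ => top_lt bposn _ (ynat_lt h M (n u)) f)
    (by
      intro u hu u' hu' heq
      have hdig := digits_eq_of_top_eq bposn _ _ (ynat_lt h M (n u)) (ynat_lt h M (n u')) f heq
      have hinj := block_inj h M (fun q m _ _ => hne q m) (vec b (n u)) (vec b (n u')) p l hpl
        (by
          intro m hm1 hm
          unfold vec
          rcases Nat.lt_or_ge m p with h1 | h1
          · rw [hn]
            simp only
            rw [dg_blk_low M X N l k p i u hp hpl hi m hm1 h1,
              dg_blk_low M X N l k p i u' hp hpl hi m hm1 h1]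
          · have : m = p := by omega
            subst this
            rw [hn]
            simp only
            rw [dg_blk_p M X N l k m i u hp hpl hi, dg_blk_p M X N l k m i u' hp hpl hi])
        (by
          intro m hm
          unfold vec
          rw [hn]
          simp only
          rw [dg_blk_high M X N l k p i u hp hpl hi hu m hm,
            dg_blk_high M X N l k p i u' hp hpl hi hu' m hm])
        (by
          intro j hj1 hj
          have h1 := hdig j hj1 (by omega)
          unfold ynat at h1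
          have h2 := ZMod.val_injective b h1
          exact neg_injective h2)
      -- digits of `n u` and `n u'` agree
      have hnn : n u = n u' := by
        apply eq_of_dg_eq bgt1 M _ _ (blk_lt M X N l k p i u hp hpl hlM hi hk hu hN)
          (blk_lt M X N l k p i u' hp hpl hlM hi hk hu' hN)
        intro m hm1 hm
        exact cast_inj_b _ _ (dg_lt bposn _ _) (dg_lt bposn _ _) (hinj m hm1 hm)
      rw [hn] at hnn
      simp only at hnn
      unfold blk at hnn
      have h5 : b ^ p * u = b ^ p * u' := by omega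
      exact Nat.eq_of_mul_eq_mul_left (pow_pos bposn p) h5)
    (fun u => Yc h M (n u) < Y)
    (by
      intro u _ hlt
      have := top_lt_top bposn (ynat h M (n u)) (tdg b M Y) (ynat_lt h M (n u)) f M (by omega)
        (by rw [hYtop f (by omega)]; exact hlt)
      rwa [hYM] at this)
    (by
      intro u _ hlt
      have := top_lt_top bposn (tdg b M Y) (ynat h M (n u)) (tdg_lt bposn M Y) f M (by omega)
        (by rw [hYtop f (by omega)]; exact hlt)
      rw [hYM] at this
      unfold Yc
      omega)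
  set n₀ := n u₀ with hn₀
  have hq : f + 1 = l - p := by omega
  have hpq : p + (l - p) = l := by omega
  -- digits of the distinguished point
  have hvx : ∀ m, 1 ≤ m → m < p → vec b n₀ m = π.x m := by
    intro m hm1 hm
    show ((dg b (blk b M X N l k p i u₀) m : ℕ) : ZMod b) = ((tdg b M X m : ℕ) : ZMod b)
    rw [dg_blk_low M X N l k p i u₀ hp hpl hi m hm1 hm]
  have hvp : vec b n₀ p = (i : ZMod b) := by
    show ((dg b (blk b M X N l k p i u₀) p : ℕ) : ZMod b) = (i : ZMod b)
    rw [dg_blk_p M X N l k p i u₀ hp hpl hi]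
  have hvl : vec b n₀ l = (k : ZMod b) := by
    show ((dg b (blk b M X N l k p i u₀) l : ℕ) : ZMod b) = (k : ZMod b)
    rw [dg_blk_l M X N l k p i u₀ hp hpl hi hk hu₀]
  have hvN : ∀ m, l < m → vec b n₀ m = π.NN m := by
    intro m hm
    show ((dg b (blk b M X N l k p i u₀) m : ℕ) : ZMod b) = ((dg b N m : ℕ) : ZMod b)
    rw [dg_blk_N M X N l k p i u₀ hp hpl hi hk hu₀ m hm]
  have hyj : ∀ j, 1 ≤ j → j < l - p → - fieldA h M (vec b n₀) j 0 = π.y j := by
    intro j hj1 hj
    have heq : top b (ynat h M n₀) f = top b (tdg b M Y) f := by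
      rw [hYtop f (by omega)]; exact hφ₀
    have h1 := digits_eq_of_top_eq bposn _ _ (ynat_lt h M n₀) (tdg_lt bposn M Y) f heq j hj1
      (by omega)
    show - fieldA h M (vec b n₀) j 0 = ((tdg b M Y j : ℕ) : ZMod b)
    rw [← h1]
    unfold ynat
    rw [ZMod.natCast_zmod_val]
  -- the digit at the node
  have hg : - fieldA h M (vec b n₀) (l - p) 0 = gg h π (l - p) p i k := by
    have := node_digit h M (vec b n₀) π.NN π.x π.y p (l - p) hp (by omega) (by omega) hvx
      (by rw [hpq]; exact hvN) hyj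
    rw [this, hpq, hvp, hvl]
    unfold gg vv Par.W
    rw [hpq]
    rfl
  have hyval : ∀ j, (π.y j).val = tdg b M Y j := fun j => val_cast _ (tdg_lt bposn M Y j)
  have htopf : top b (ynat h M n₀) f = top b (tdg b M Y) f := by
    rw [hYtop f (by omega)]; exact hφ₀
  have hcmp := cmp_digit (b := b) (ynat h M n₀) (tdg b M Y) (ynat_lt h M n₀) (tdg_lt bposn M Y) f M
    (by omega) htopf
  rw [hYM, hq] at hcmp
  have hyq : ynat h M n₀ (l - p) = (gg h π (l - p) p i k).val := by
    unfold ynat; rw [hg]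
  rw [hyq, ← hyval] at hcmp
  -- rewrite the count
  have hcountR : (((range (b ^ f)).filter (fun u => Yc h M (n u) < Y)).card : ℝ)
      = (Y / b ^ (M - f) : ℕ) + (if Yc h M n₀ < Y then (1 : ℝ) else 0) := by
    rw [hcount]; push_cast; rfl
  rw [hcountR]
  have hbR : (b : ℝ) ≠ 0 := (bpos (b := b)).ne'
  rcases lt_trichotomy (gg h π (l - p) p i k).val (π.y (l - p)).val with hlt | heq | hgt
  · -- smaller digit
    have h1 : Yc h M n₀ < Y := hcmp.1 hlt
    have h2 : gg h π (l - p) p i k ≠ π.y (l - p) := by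
      intro hc; rw [hc] at hlt; omega
    refine ⟨0, by omega, ?_⟩
    rw [if_pos h1, if_neg h2, if_neg (fun hc => h2 hc.1)]
    unfold f1
    rw [if_pos hlt, if_neg h2, hyval, hyval]
    field_simp
    ring
  · -- equal digit
    have h2 : gg h π (l - p) p i k = π.y (l - p) := ZMod.val_injective b heq
    have hnl : ¬ (gg h π (l - p) p i k).val < (π.y (l - p)).val := by omega
    have hg2 : - fieldA h M (vec b n₀) (l - p + 1) 0 = gn h π (l - p) p k := by
      have := node_digit_next h M (vec b n₀) π.NN π.x π.y p (l - p) hp (by omega) hvx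
        (by rw [hpq]; exact hvN) (by
          intro j hj1 hj
          rcases Nat.lt_or_ge j (l - p) with h3 | h3
          · exact hyj j hj1 h3
          · have : j = l - p := by omega
            subst this
            rw [hg, h2])
      rw [this, hpq, hvl]
      unfold gn Par.W
      rw [hpq]
      rfl
    have htopq : top b (ynat h M n₀) (f + 1) = top b (tdg b M Y) (f + 1) := by
      rw [top_succ, top_succ, htopf, hq, hyq, h2, hyval]
    have hcmp2 := cmp_digit (b := b) (ynat h M n₀) (tdg b M Y) (ynat_lt h M n₀)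
      (tdg_lt bposn M Y) (f + 1) M (by omega) htopq
    rw [hYM, hq] at hcmp2
    have hyq2 : ynat h M n₀ (l - p + 1) = (gn h π (l - p) p k).val := by
      unfold ynat; rw [hg2]
    rw [hyq2, ← hyval] at hcmp2
    rcases lt_trichotomy (gn h π (l - p) p k).val (π.y (l - p + 1)).val with hlt' | heq' | hgt'
    · have h1 : Yc h M n₀ < Y := hcmp2.1 hlt'
      have h3 : gn h π (l - p) p k ≠ π.y (l - p + 1) := by
        intro hc; rw [hc] at hlt'; omega
      refine ⟨0, by omega, ?_⟩
      rw [if_pos h1, if_pos h2, if_neg (fun hc => h3 hc.2)]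
      unfold f1 f3
      rw [if_neg hnl, if_pos h2, if_pos hlt', hyval, hyval]
      field_simp
      ring
    · have h3 : gn h π (l - p) p k = π.y (l - p + 1) := ZMod.val_injective b heq'
      have hnl' : ¬ (gn h π (l - p) p k).val < (π.y (l - p + 1)).val := by omega
      by_cases h1 : Yc h M n₀ < Y
      · refine ⟨1, le_rfl, ?_⟩
        rw [if_pos h1, if_pos h2, if_pos (And.intro h2 h3)]
        unfold f1 f3
        rw [if_neg hnl, if_pos h2, if_neg hnl', hyval, hyval]
        field_simp
        push_cast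
        ring
      · refine ⟨0, by omega, ?_⟩
        rw [if_neg h1, if_pos h2, if_pos (And.intro h2 h3)]
        unfold f1 f3
        rw [if_neg hnl, if_pos h2, if_neg hnl', hyval, hyval]
        field_simp
        push_cast
        ring
    · have h1 : ¬ Yc h M n₀ < Y := hcmp2.2 hgt'
      have h3 : gn h π (l - p) p k ≠ π.y (l - p + 1) := by
        intro hc; rw [hc] at hgt'; omega
      have hnl' : ¬ (gn h π (l - p) p k).val < (π.y (l - p + 1)).val := by omega
      refine ⟨0, by omega, ?_⟩
      rw [if_neg h1, if_pos h2, if_neg (fun hc => h3 hc.2)]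
      unfold f1 f3
      rw [if_neg hnl, if_pos h2, if_neg hnl', hyval, hyval]
      field_simp
      ring
  · have h1 : ¬ Yc h M n₀ < Y := hcmp.2 hgt
    have h2 : gg h π (l - p) p i k ≠ π.y (l - p) := by
      intro hc; rw [hc] at hgt; omega
    have hnl : ¬ (gg h π (l - p) p i k).val < (π.y (l - p)).val := by omega
    refine ⟨0, by omega, ?_⟩
    rw [if_neg h1, if_neg h2, if_neg (fun hc => h2 hc.1)]
    unfold f1
    rw [if_neg hnl, if_neg h2, hyval, hyval]
    field_simp
    ring

end Pool.Agent.Helper4.Disc
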