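import Mathlib
import Pool.Agent.Helper4.Disc.Local

open Finset

namespace Pool.Agent.Helper4.Disc

variable {b : ℕ} [Fact b.Prime]

lemma sum_top (d : ℕ → ℕ) (L : ℕ) :
    ∑ p ∈ Icc 1 L, (d p : ℝ) * (b : ℝ) ^ (L - p) = (top b d L : ℝ) := by
  induction L with
  | zero => simp [top]
  | succ L ih =>
    rw [sum_Icc_succ_top (by omega), top_succ]
    push_cast
    rw [← ih, mul_sum, Nat.sub_self, pow_zero, mul_one]
    congr 1
    apply sum_congr rfl
    intro p hp
    rw [mem_Icc] at hp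
    have : L + 1 - p = (L - p) + 1 := by omega
    rw [this, pow_succ]; ring

lemma expand_N (M N : ℕ) (hN : N < b ^ M) :
    (N : ℝ) = ∑ l ∈ Icc 1 M, (dg b N l : ℝ) * (b : ℝ) ^ (l - 1) := by
  have h := sum_time_decomp (bposn (b := b)) M N hN (fun _ => (1 : ℝ))
  simp only [sum_const, card_range, nsmul_eq_mul, mul_one] at h
  rw [h]
  apply sum_congr rfl; intro l _
  push_cast; ring

/-- The count of points in a sub-block. -/
noncomputable def cnt (h : ℕ → ℕ → ZMod b) (M X Y N l k p i : ℕ) : ℝ :=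
  (((range (b ^ (l - 1 - p))).filter (fun u => Yc h M (blk b M X N l k p i u) < Y)).card : ℝ)

/-- expansion of `Y / b^(M-f)` -/
lemma frac_expand (M Y f : ℕ) (hf : f + 2 ≤ M) :
    ∃ ρ : ℝ, 0 ≤ ρ ∧ ρ < 1 ∧ (Y : ℝ) / (b : ℝ) ^ (M - f) = ((Y / b ^ (M - f) : ℕ) : ℝ)
      + (tdg b M Y (f + 1) : ℝ) / b + (tdg b M Y (f + 2) : ℝ) / b ^ 2 + ρ / b ^ 2 := by
  have hb : (0 : ℝ) < b := bpos
  have hbn : 0 < b := bposn
  set D := b ^ (M - (f + 2)) with hD
  have hDpos : 0 < D := pow_pos hbn _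
  refine ⟨((Y % D : ℕ) : ℝ) / D, by positivity, ?_, ?_⟩
  · rw [div_lt_one (by exact_mod_cast hDpos)]
    exact_mod_cast Nat.mod_lt _ hDpos
  · have e1 : tdg b M Y (f + 1) = Y / D / b % b := by
      unfold tdg
      rw [if_pos (by omega), hD, Nat.div_div_eq_div_mul, ← pow_succ]
      congr 3; omega
    have e2 : tdg b M Y (f + 2) = Y / D % b := by
      unfold tdg
      rw [if_pos hf]
    have e3 : Y / b ^ (M - f) = Y / D / b / b := by
      rw [Nat.div_div_eq_div_mul, Nat.div_div_eq_div_mul, hD, ← sq, ← pow_add]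
      congr 2; omega
    have e4 : Y = D * (b * (b * (Y / D / b / b) + Y / D / b % b) + Y / D % b) + Y % D := by
      rw [Nat.div_add_mod, Nat.div_add_mod, Nat.div_add_mod]
    have e5 : (Y : ℝ) = D * (b * (b * ((Y / D / b / b : ℕ) : ℝ) + ((Y / D / b % b : ℕ) : ℝ))
        + ((Y / D % b : ℕ) : ℝ)) + ((Y % D : ℕ) : ℝ) := by exact_mod_cast e4
    have e6 : (b : ℝ) ^ (M - f) = D * b ^ 2 := by
      rw [hD]; push_cast; rw [← pow_add]; congr 1; omega
    have hDR : (0 : ℝ) < D := by exact_mod_cast hDpos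
    rw [e1, e2, e3, e6]
    rw [div_eq_iff (by positivity)]
    field_simp
    linarith [e5]

lemma inj_node (h : ℕ → ℕ → ZMod b) (hne : ∀ q m, h q m ≠ 0) (π : Par b) (q p : ℕ)
    (i k i' k' : ℕ) (hi : i < b) (hk : k < b) (hi' : i' < b) (hk' : k' < b)
    (h1 : gg h π q p i k = π.y q ∧ gn h π q p k = π.y (q + 1))
    (h2 : gg h π q p i' k' = π.y q ∧ gn h π q p k' = π.y (q + 1)) : i = i' ∧ k = k' := by
  have hkk : k = k' := by
    have h3 := h1.2.trans h2.2.symm
    unfold gn at h3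
    have h4 : gam h (q + 1) (p + q) * ((k : ZMod b) - k') = 0 := by linear_combination -h3
    rcases mul_eq_zero.mp h4 with h5 | h5
    · exact absurd h5 (gam_ne_zero h hne _ _)
    · exact cast_inj_b _ _ hk hk' (sub_eq_zero.mp h5)
  subst hkk
  refine ⟨?_, rfl⟩
  have h3 := h1.1.trans h2.1.symm
  unfold gg vv at h3
  have h4 : beta h q p * ((i : ZMod b) - i') = 0 := by linear_combination h3
  rcases mul_eq_zero.mp h4 with h5 | h5
  · exact absurd h5 (beta_ne_zero h hne _ _)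
  · exact cast_inj_b _ _ hi hi' (sub_eq_zero.mp h5)

/-- a double sum over `i < A`, `k < B` supported on at most one point with values in `[0,1]` -/
lemma sum_single_le (A B : ℕ) (P : ℕ → ℕ → Prop) [∀ i k, Decidable (P i k)]
    (hP : ∀ i < A, ∀ k < B, ∀ i' < A, ∀ k' < B, P i k → P i' k' → i = i' ∧ k = k')
    (r : ℕ → ℕ → ℝ) (hr0 : ∀ i < A, ∀ k < B, 0 ≤ r i k) (hr1 : ∀ i < A, ∀ k < B, r i k ≤ 1) :
    0 ≤ ∑ i ∈ range A, ∑ k ∈ range B, (if P i k then r i k else 0) ∧
      ∑ i ∈ range A, ∑ k ∈ range B, (if P i k then r i k else 0) ≤ 1 := by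
  constructor
  · apply sum_nonneg; intro i hi
    apply sum_nonneg; intro k hk
    split_ifs
    · exact hr0 i (mem_range.mp hi) k (mem_range.mp hk)
    · exact le_rfl
  · rw [← sum_product']
    by_cases hex : ∃ x ∈ range A ×ˢ range B, P x.1 x.2
    · obtain ⟨x, hx, hPx⟩ := hex
      rw [mem_product, mem_range, mem_range] at hx
      rw [sum_eq_single x]
      · rw [if_pos hPx]
        exact hr1 _ hx.1 _ hx.2
      · intro y hy hyx
        rw [mem_product, mem_range, mem_range] at hy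
        rw [if_neg]
        intro hPy
        have := hP _ hy.1 _ hy.2 _ hx.1 _ hx.2 hPy hPx
        exact hyx (Prod.ext this.1 this.2)
      · intro hnx
        exact absurd (mem_product.mpr ⟨mem_range.mpr hx.1, mem_range.mpr hx.2⟩) hnx
    · push_neg at hex
      rw [sum_eq_zero]
      · norm_num
      · intro y hy
        rw [if_neg (hex y hy)]

/-- node estimate -/
lemma node_bound (h : ℕ → ℕ → ZMod b) (hne : ∀ q m, h q m ≠ 0) (M X Y N l p : ℕ)
    (hN : N < b ^ M) (hY : Y < b ^ M) (hp : 1 ≤ p) (hpl : p < l) (hlM : l ≤ M) :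
    |∑ i ∈ range (tdg b M X p), ∑ k ∈ range (dg b N l),
        (cnt h M X Y N l k p i - (Y : ℝ) / (b : ℝ) ^ (M - (l - 1 - p)))
      - (T1 h (tpar h M X Y N) (l - p) p + T2 h (tpar h M X Y N) (l - p) p
        + T3 h (tpar h M X Y N) (l - p) p)| ≤ 1 := by
  classical
  set π := tpar h M X Y N with hπ
  have hxv : (π.x p).val = tdg b M X p := val_cast _ (tdg_lt bposn M X p)
  have hNv : (π.NN (p + (l - p))).val = dg b N l := by
    have : p + (l - p) = l := by omega
    rw [this]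
    exact val_cast _ (dg_lt bposn _ _)
  obtain ⟨ρ, hρ0, hρ1, hρ⟩ := frac_expand (b := b) M Y (l - 1 - p) (by omega)
  have hq1 : l - 1 - p + 1 = l - p := by omega
  have hq2 : l - 1 - p + 2 = l - p + 1 := by omega
  rw [hq1, hq2] at hρ
  have hloc : ∀ i k : ℕ, ∃ r : ℕ, r ≤ 1 ∧ (i < b → k < b →
      cnt h M X Y N l k p i - (Y : ℝ) / (b : ℝ) ^ (M - (l - 1 - p)) =
        f1 (π.y (l - p)) (π.y (l - p + 1)) (gg h π (l - p) p i k)
        + (if gg h π (l - p) p i k = π.y (l - p) then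
              f3 (π.y (l - p + 1)) (gn h π (l - p) p k) else 0)
        + (if gg h π (l - p) p i k = π.y (l - p) ∧
            gn h π (l - p) p k = π.y (l - p + 1) then (r : ℝ) else 0) - ρ / b ^ 2) := by
    intro i k
    by_cases hik : i < b ∧ k < b
    · obtain ⟨r, hr1, hr⟩ := local_count h hne M X Y N l k p i hN hY hp hpl hlM hik.1 hik.2
      refine ⟨r, hr1, fun _ _ => ?_⟩
      unfold cnt
      rw [hr, hρ]
      ring
    · refine ⟨0, by omega, fun h1 h2 => absurd ⟨h1, h2⟩ hik⟩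
  choose r hr1 hr using hloc
  have hA : tdg b M X p < b := tdg_lt bposn M X p
  have hB : dg b N l < b := dg_lt bposn N l
  have hsum : ∑ i ∈ range (tdg b M X p), ∑ k ∈ range (dg b N l),
        (cnt h M X Y N l k p i - (Y : ℝ) / (b : ℝ) ^ (M - (l - 1 - p)))
      - (T1 h π (l - p) p + T2 h π (l - p) p + T3 h π (l - p) p)
      = ∑ i ∈ range (tdg b M X p), ∑ k ∈ range (dg b N l),
          (if gg h π (l - p) p i k = π.y (l - p) ∧
            gn h π (l - p) p k = π.y (l - p + 1) then (r i k : ℝ) else 0)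
        - (tdg b M X p : ℝ) * (dg b N l) * (ρ / b ^ 2) := by
    rw [T1_add_T2]
    unfold T3
    rw [hxv, hNv]
    have e1 : ∑ i ∈ range (tdg b M X p), ∑ k ∈ range (dg b N l),
        (cnt h M X Y N l k p i - (Y : ℝ) / (b : ℝ) ^ (M - (l - 1 - p)))
        = ∑ i ∈ range (tdg b M X p), ∑ k ∈ range (dg b N l),
        (f1 (π.y (l - p)) (π.y (l - p + 1)) (gg h π (l - p) p i k)
        + (if gg h π (l - p) p i k = π.y (l - p) then
              f3 (π.y (l - p + 1)) (gn h π (l - p) p k) else 0)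
        + (if gg h π (l - p) p i k = π.y (l - p) ∧
            gn h π (l - p) p k = π.y (l - p + 1) then (r i k : ℝ) else 0) - ρ / b ^ 2) := by
      apply sum_congr rfl; intro i hi
      apply sum_congr rfl; intro k hk
      exact hr i k ((mem_range.mp hi).trans hA) ((mem_range.mp hk).trans hB)
    rw [e1]
    simp_rw [sum_sub_distrib, sum_add_distrib]
    simp only [sum_const, card_range, nsmul_eq_mul]
    ring
  rw [hsum]
  have hR := sum_single_le (tdg b M X p) (dg b N l)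
    (fun i k => gg h π (l - p) p i k = π.y (l - p) ∧ gn h π (l - p) p k = π.y (l - p + 1))
    (fun i hi k hk i' hi' k' hk' h1 h2 => inj_node h hne π (l - p) p i k i' k' (hi.trans hA)
      (hk.trans hB) (hi'.trans hA) (hk'.trans hB) h1 h2)
    (fun i k => (r i k : ℝ)) (fun i _ k _ => by positivity)
    (fun i _ k _ => by exact_mod_cast hr1 i k)
  have hb : (0 : ℝ) < b := bpos
  have hAR : (tdg b M X p : ℝ) ≤ b := by exact_mod_cast hA.le
  have hBR : (dg b N l : ℝ) ≤ b := by exact_mod_cast hB.le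
  have h1 : 0 ≤ (tdg b M X p : ℝ) * (dg b N l) * (ρ / b ^ 2) := by positivity
  have h2 : (tdg b M X p : ℝ) * (dg b N l) * (ρ / b ^ 2) ≤ 1 := by
    calc (tdg b M X p : ℝ) * (dg b N l) * (ρ / b ^ 2) ≤ b * b * (1 / b ^ 2) := by
          gcongr
      _ = 1 := by field_simp
  rw [abs_le]
  constructor <;> linarith [hR.1, hR.2]

/-- counting function of the point set -/
noncomputable def CC (h : ℕ → ℕ → ZMod b) (M X Y N : ℕ) : ℝ :=
  ∑ n ∈ range N, if Xc b M n < X ∧ Yc h M n < Y then (1 : ℝ) else 0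

lemma cnt_eq (h : ℕ → ℕ → ZMod b) (M X Y N l k p i : ℕ) (hp : 1 ≤ p) (hpl : p < l)
    (hlM : l ≤ M) (hX : X < b ^ M) (hi : i < b) (hne : i ≠ tdg b M X p) :
    ∑ u ∈ range (b ^ (l - 1 - p)),
      (if Xc b M (blk b M X N l k p i u) < X ∧ Yc h M (blk b M X N l k p i u) < Y
        then (1 : ℝ) else 0) = if i < tdg b M X p then cnt h M X Y N l k p i else 0 := by
  have htop : top b (tdg b M X) M = X := by
    rw [top_tdg bposn M X hX M le_rfl]; simp
  have hcmp : ∀ u, (i < tdg b M X p → Xc b M (blk b M X N l k p i u) < X) ∧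
      (tdg b M X p < i → ¬ Xc b M (blk b M X N l k p i u) < X) := by
    intro u
    have h1 := cmp_digit (b := b) (dg b (blk b M X N l k p i u)) (tdg b M X)
      (fun m => dg_lt bposn _ _) (tdg_lt bposn M X) (p - 1) M (by omega)
      (by
        apply top_congr
        intro m hm1 hm
        exact dg_blk_low M X N l k p i u hp hpl hi m hm1 (by omega))
    have hp1 : p - 1 + 1 = p := by omega
    rw [htop, hp1, dg_blk_p M X N l k p i u hp hpl hi] at h1
    exact h1
  split_ifs with hlt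
  · unfold cnt
    rw [card_eq_sum_ones, Nat.cast_sum, sum_filter]
    apply sum_congr rfl
    intro u _
    have := (hcmp u).1 hlt
    by_cases h2 : Yc h M (blk b M X N l k p i u) < Y
    · rw [if_pos ⟨this, h2⟩, if_pos h2]; simp
    · rw [if_neg (fun hc => h2 hc.2), if_neg h2]
  · apply sum_eq_zero
    intro u _
    rw [if_neg]
    intro hc
    exact (hcmp u).2 (by omega) hc.1

lemma CC_decomp (h : ℕ → ℕ → ZMod b) (M X Y N : ℕ) (hN : N < b ^ M) (hX : X < b ^ M) :
    ∃ E : ℝ, 0 ≤ E ∧ E ≤ b * M ∧ CC h M X Y N =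
      ∑ l ∈ Icc 1 M, ∑ p ∈ Icc 1 (l - 1), ∑ i ∈ range (tdg b M X p), ∑ k ∈ range (dg b N l),
        cnt h M X Y N l k p i + E := by
  classical
  set G : ℕ → ℝ := fun n => if Xc b M n < X ∧ Yc h M n < Y then (1 : ℝ) else 0 with hG
  have hG0 : ∀ n, 0 ≤ G n := by intro n; rw [hG]; simp only; split_ifs <;> norm_num
  have hG1 : ∀ n, G n ≤ 1 := by intro n; rw [hG]; simp only; split_ifs <;> norm_num
  refine ⟨∑ l ∈ Icc 1 M, ∑ k ∈ range (dg b N l),
    G ((N / b ^ l * b + k) * b ^ (l - 1) + low b (tdg b M X) (l - 1)), ?_, ?_, ?_⟩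
  · apply sum_nonneg; intro l _; apply sum_nonneg; intro k _; exact hG0 _
  · calc _ ≤ ∑ l ∈ Icc 1 M, ∑ k ∈ range (dg b N l), (1 : ℝ) := by
          apply sum_le_sum; intro l _; apply sum_le_sum; intro k _; exact hG1 _
      _ ≤ ∑ l ∈ Icc 1 M, (b : ℝ) := by
          apply sum_le_sum; intro l _
          simp only [sum_const, card_range, nsmul_eq_mul, mul_one]
          exact_mod_cast (dg_lt bposn N l).le
      _ = b * M := by simp [mul_comm]
  · have h1 := sum_time_decomp (bposn (b := b)) M N hN G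
    unfold CC
    rw [show (∑ n ∈ range N, if Xc b M n < X ∧ Yc h M n < Y then (1 : ℝ) else 0)
      = ∑ n ∈ range N, G n from rfl, h1, ← sum_add_distrib]
    apply sum_congr rfl
    intro l hl
    rw [mem_Icc] at hl
    have h2 : ∀ k ∈ range (dg b N l), ∑ r ∈ range (b ^ (l - 1)),
        G ((N / b ^ l * b + k) * b ^ (l - 1) + r)
        = ∑ p ∈ Icc 1 (l - 1), ∑ i ∈ range (tdg b M X p), cnt h M X Y N l k p i
          + G ((N / b ^ l * b + k) * b ^ (l - 1) + low b (tdg b M X) (l - 1)) := by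
      intro k hk
      rw [sum_low_decomp (bposn (b := b)) (tdg b M X) (tdg_lt bposn M X) (l - 1)
        (fun r => G ((N / b ^ l * b + k) * b ^ (l - 1) + r))]
      congr 1
      apply sum_congr rfl
      intro p hp
      rw [mem_Icc] at hp
      have h3 : ∀ i ∈ (range b).erase (tdg b M X p), ∑ u ∈ range (b ^ (l - 1 - p)),
          G ((N / b ^ l * b + k) * b ^ (l - 1)
            + (low b (tdg b M X) (p - 1) + i * b ^ (p - 1) + b ^ p * u))
          = if i < tdg b M X p then cnt h M X Y N l k p i else 0 := by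
        intro i hi
        rw [mem_erase, mem_range] at hi
        rw [← cnt_eq h M X Y N l k p i hp.1 (by omega) hl.2 hX hi.2 hi.1]
        apply sum_congr rfl
        intro u _
        have : (N / b ^ l * b + k) * b ^ (l - 1)
            + (low b (tdg b M X) (p - 1) + i * b ^ (p - 1) + b ^ p * u)
            = blk b M X N l k p i u := by
          unfold blk; ring
        rw [this]
      rw [sum_congr rfl h3, ← sum_filter]
      apply sum_congr _ (fun _ _ => rfl)
      ext i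
      simp only [mem_filter, mem_erase, mem_range]
      have := tdg_lt (bposn (b := b)) M X p
      constructor
      · rintro ⟨_, h⟩; exact h
      · intro h; exact ⟨⟨by omega, by omega⟩, h⟩
    rw [sum_congr rfl h2, sum_add_distrib]
    congr 1
    rw [sum_comm]
    apply sum_congr rfl
    intro p _
    rw [sum_comm]

/-- reindexing of the nodes -/
lemma NS_reindex (M : ℕ) (T : ℕ → ℕ → ℝ) :
    ∑ l ∈ Icc 1 M, ∑ p ∈ Icc 1 (l - 1), T (l - p) p = NS M T := by
  unfold NS guard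
  rw [← sum_product', ← sum_filter, sum_sigma']
  apply sum_bij' (fun (x : (_ : ℕ) × ℕ) _ => (x.1 - x.2, x.2))
    (fun (y : ℕ × ℕ) _ => (⟨y.1 + y.2, y.2⟩ : (_ : ℕ) × ℕ))
  · intro x hx
    simp only [mem_sigma, mem_Icc] at hx
    simp only [mem_filter, mem_product, mem_range]
    omega
  · intro y hy
    simp only [mem_filter, mem_product, mem_range] at hy
    simp only [mem_sigma, mem_Icc]
    omega
  · rintro ⟨l, p⟩ hx
    simp only [mem_sigma, mem_Icc] at hx
    simp only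
    congr 1
    omega
  · rintro ⟨q, p⟩ hy
    simp only [mem_filter, mem_product, mem_range] at hy
    simp only [Prod.mk.injEq, and_true]
    omega
  · rintro ⟨l, p⟩ hx
    rfl

lemma NS_add (M : ℕ) (T T' : ℕ → ℕ → ℝ) : NS M (fun q p => T q p + T' q p) = NS M T + NS M T' := by
  unfold NS guard
  rw [← sum_add_distrib]
  apply sum_congr rfl; intro q _
  rw [← sum_add_distrib]
  apply sum_congr rfl; intro p _
  split_ifs <;> simp

/-- The main estimate for anchored boxes. -/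
lemma anchored (M : ℕ) (hbM : 2 * b ≤ M) (h : ℕ → ℕ → ZMod b) (hne : ∀ q m, h q m ≠ 0)
    (hgood : ∀ π : Par b, (∀ m, M + 2 ≤ m → π.x m = 0 ∧ π.y m = 0 ∧ π.NN m = 0 ∧ π.om m = 0) →
        |NS M (T1 h π)| ≤ 6 * (M : ℝ) ^ 2 ∧ |NS M (T2 h π)| ≤ 6 * (M : ℝ) ^ 2 ∧
        |NS M (T3 h π)| ≤ 6 * (M : ℝ) ^ 2) (X Y N : ℕ) (hX : X < b ^ M) (hY : Y < b ^ M)
    (hN : N < b ^ M) :
    |CC h M X Y N - (N : ℝ) * X * Y / ((b : ℝ) ^ M) ^ 2| ≤ 20 * (M : ℝ) ^ 2 := by
  have hb : (0 : ℝ) < b := bpos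
  set π := tpar h M X Y N with hπ
  obtain ⟨E, hE0, hE1, hE⟩ := CC_decomp h M X Y N hN hX
  obtain ⟨hg1, hg2, hg3⟩ := hgood π (fun m hm => tpar_supp h M X Y N hN m hm)
  -- main term 1
  set Main : ℝ := ∑ l ∈ Icc 1 M, ∑ p ∈ Icc 1 (l - 1), (tdg b M X p : ℝ) * (dg b N l) *
    ((Y : ℝ) / (b : ℝ) ^ (M - (l - 1 - p))) with hMain
  have hstep1 : |∑ l ∈ Icc 1 M, ∑ p ∈ Icc 1 (l - 1), ∑ i ∈ range (tdg b M X p),
      ∑ k ∈ range (dg b N l), cnt h M X Y N l k p i - Main
      - (NS M (T1 h π) + NS M (T2 h π) + NS M (T3 h π))| ≤ (M : ℝ) ^ 2 := by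
    have e1 : NS M (T1 h π) + NS M (T2 h π) + NS M (T3 h π)
        = ∑ l ∈ Icc 1 M, ∑ p ∈ Icc 1 (l - 1),
          (T1 h π (l - p) p + T2 h π (l - p) p + T3 h π (l - p) p) := by
      rw [NS_reindex M (fun q p => T1 h π q p + T2 h π q p + T3 h π q p), NS_add, NS_add]
    rw [e1, hMain, ← sum_sub_distrib, ← sum_sub_distrib]
    have e2 : ∀ l ∈ Icc 1 M, ∑ p ∈ Icc 1 (l - 1), ∑ i ∈ range (tdg b M X p),
        ∑ k ∈ range (dg b N l), cnt h M X Y N l k p i
        - ∑ p ∈ Icc 1 (l - 1), (tdg b M X p : ℝ) * (dg b N l) *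
            ((Y : ℝ) / (b : ℝ) ^ (M - (l - 1 - p)))
        - ∑ p ∈ Icc 1 (l - 1), (T1 h π (l - p) p + T2 h π (l - p) p + T3 h π (l - p) p)
        = ∑ p ∈ Icc 1 (l - 1), (∑ i ∈ range (tdg b M X p), ∑ k ∈ range (dg b N l),
        (cnt h M X Y N l k p i - (Y : ℝ) / (b : ℝ) ^ (M - (l - 1 - p)))
      - (T1 h π (l - p) p + T2 h π (l - p) p + T3 h π (l - p) p)) := by
      intro l _
      rw [← sum_sub_distrib, ← sum_sub_distrib]
      apply sum_congr rfl
      intro p _
      simp_rw [sum_sub_distrib]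
      simp only [sum_const, card_range, nsmul_eq_mul]
      ring
    rw [sum_congr rfl e2]
    calc _ ≤ ∑ l ∈ Icc 1 M, |∑ p ∈ Icc 1 (l - 1), (∑ i ∈ range (tdg b M X p),
            ∑ k ∈ range (dg b N l),
        (cnt h M X Y N l k p i - (Y : ℝ) / (b : ℝ) ^ (M - (l - 1 - p)))
      - (T1 h π (l - p) p + T2 h π (l - p) p + T3 h π (l - p) p))| := abs_sum_le_sum_abs _ _
      _ ≤ ∑ l ∈ Icc 1 M, ∑ p ∈ Icc 1 (l - 1), (1 : ℝ) := by
          apply sum_le_sum
          intro l hl
          rw [mem_Icc] at hl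
          refine (abs_sum_le_sum_abs _ _).trans ?_
          apply sum_le_sum
          intro p hp
          rw [mem_Icc] at hp
          exact node_bound h hne M X Y N l p hN hY hp.1 (by omega) hl.2
      _ ≤ ∑ l ∈ Icc 1 M, (M : ℝ) := by
          apply sum_le_sum
          intro l hl
          rw [mem_Icc] at hl
          simp only [sum_const, Nat.card_Icc, nsmul_eq_mul, mul_one]
          have : l - 1 + 1 - 1 ≤ M := by omega
          exact_mod_cast this
      _ = (M : ℝ) ^ 2 := by simp [sq]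
  -- main term 2
  have hstep2 : |Main - (N : ℝ) * X * Y / ((b : ℝ) ^ M) ^ 2| ≤ b * M := by
    have e1 : Main = ∑ l ∈ Icc 1 M, (dg b N l : ℝ) * ((Y : ℝ) / (b : ℝ) ^ M)
        * ((X / b ^ (M - (l - 1)) : ℕ) : ℝ) := by
      rw [hMain]
      apply sum_congr rfl
      intro l hl
      rw [mem_Icc] at hl
      rw [← top_tdg (bposn (b := b)) M X hX (l - 1) (by omega), ← sum_top (b := b), mul_sum]
      apply sum_congr rfl
      intro p hp
      rw [mem_Icc] at hp
      have e3 : (b : ℝ) ^ M = (b : ℝ) ^ (M - (l - 1 - p)) * (b : ℝ) ^ (l - 1 - p) := by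
        rw [← pow_add]; congr 1; omega
      rw [e3]
      field_simp
    have e2 : (N : ℝ) * X * Y / ((b : ℝ) ^ M) ^ 2 = ∑ l ∈ Icc 1 M, (dg b N l : ℝ) *
        ((Y : ℝ) / (b : ℝ) ^ M) * ((X : ℝ) / (b : ℝ) ^ (M - (l - 1))) := by
      conv_lhs => rw [expand_N (b := b) M N hN]
      rw [sum_mul, sum_mul, sum_div]
      apply sum_congr rfl
      intro l hl
      rw [mem_Icc] at hl
      have e3 : (b : ℝ) ^ M = (b : ℝ) ^ (M - (l - 1)) * (b : ℝ) ^ (l - 1) := by
        rw [← pow_add]; congr 1; omega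
      rw [e3]
      field_simp
    rw [e1, e2, ← sum_sub_distrib]
    refine (abs_sum_le_sum_abs _ _).trans ?_
    calc _ ≤ ∑ l ∈ Icc 1 M, (b : ℝ) := by
          apply sum_le_sum
          intro l _
          rw [← mul_sub, abs_mul, abs_mul]
          have h1 : |(dg b N l : ℝ)| ≤ b := by
            rw [abs_of_nonneg (by positivity)]
            exact_mod_cast (dg_lt bposn N l).le
          have h2 : |(Y : ℝ) / (b : ℝ) ^ M| ≤ 1 := by
            rw [abs_of_nonneg (by positivity), div_le_one (by positivity)]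
            exact_mod_cast hY.le
          have h3 : |((X / b ^ (M - (l - 1)) : ℕ) : ℝ) - (X : ℝ) / (b : ℝ) ^ (M - (l - 1))| ≤ 1 := by
            have h4 : (0 : ℝ) < (b : ℝ) ^ (M - (l - 1)) := by positivity
            have h5 := Nat.div_add_mod X (b ^ (M - (l - 1)))
            have h6 := Nat.mod_lt X (pow_pos (bposn (b := b)) (M - (l - 1)))
            have h7 : (X : ℝ) = (b : ℝ) ^ (M - (l - 1)) * ((X / b ^ (M - (l - 1)) : ℕ) : ℝ)
                + ((X % b ^ (M - (l - 1)) : ℕ) : ℝ) := by exact_mod_cast h5.symm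
            have h8 : ((X % b ^ (M - (l - 1)) : ℕ) : ℝ) ≤ (b : ℝ) ^ (M - (l - 1)) := by
              exact_mod_cast h6.le
            have h9 : (X : ℝ) / (b : ℝ) ^ (M - (l - 1)) = ((X / b ^ (M - (l - 1)) : ℕ) : ℝ)
                + ((X % b ^ (M - (l - 1)) : ℕ) : ℝ) / (b : ℝ) ^ (M - (l - 1)) := by
              conv_lhs => rw [h7]
              field_simp
            have h10 : ((X % b ^ (M - (l - 1)) : ℕ) : ℝ) / (b : ℝ) ^ (M - (l - 1)) ≤ 1 := by
              rw [div_le_one h4]; exact h8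
            have h11 : 0 ≤ ((X % b ^ (M - (l - 1)) : ℕ) : ℝ) / (b : ℝ) ^ (M - (l - 1)) := by
              positivity
            rw [h9, abs_le]
            constructor <;> linarith
          calc _ ≤ (b : ℝ) * 1 * 1 := by gcongr
            _ = b := by ring
      _ = b * M := by simp [mul_comm]
  have hbM' : 2 * (b : ℝ) ≤ M := by exact_mod_cast hbM
  have hM0 : (0 : ℝ) ≤ M := by positivity
  rw [hE]
  rw [abs_le] at hstep1 hstep2 hg1 hg2 hg3 ⊢
  have hbM2 : 2 * (b : ℝ) * M ≤ (M : ℝ) ^ 2 := by nlinarith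
  constructor <;> nlinarith [hstep1.1, hstep1.2, hstep2.1, hstep2.2, hg1.1, hg1.2, hg2.1, hg2.2,
    hg3.1, hg3.2]

end Pool.Agent.Helper4.Disc
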