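import Mathlib
import Pool.Agent.Helper4.Disc.Core

open Finset

namespace Pool.Agent.Helper4.Disc

variable {b : ℕ} [Fact b.Prime]

lemma Xc_lt (M n : ℕ) : Xc b M n < b ^ M := top_lt bposn _ (fun _ => dg_lt bposn _ _) M

lemma Yc_lt (h : ℕ → ℕ → ZMod b) (M n : ℕ) : Yc h M n < b ^ M := top_lt bposn _ (ynat_lt h M n) M

lemma Xc_inj (M n n' : ℕ) (hn : n < b ^ M) (hn' : n' < b ^ M) (h : Xc b M n = Xc b M n') :
    n = n' := by
  apply eq_of_dg_eq bgt1 M n n' hn hn'
  exact digits_eq_of_top_eq bposn _ _ (fun _ => dg_lt bposn _ _) (fun _ => dg_lt bposn _ _) M h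

lemma Yc_inj (h : ℕ → ℕ → ZMod b) (hne : ∀ q m, h q m ≠ 0) (M n n' : ℕ) (hn : n < b ^ M)
    (hn' : n' < b ^ M) (heq : Yc h M n = Yc h M n') : n = n' := by
  have hdig := digits_eq_of_top_eq bposn _ _ (ynat_lt h M n) (ynat_lt h M n') M heq
  have hinj := block_inj h M (fun q m _ _ => hne q m) (vec b n) (vec b n') 0 (M + 1) (by omega)
    (by intro m h1 h2; omega)
    (by
      intro m hm
      unfold vec
      rw [dg_eq_zero bgt1 n M m hn (by omega), dg_eq_zero bgt1 n' M m hn' (by omega)])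
    (by
      intro j hj1 hj
      have h1 := hdig j hj1 (by omega)
      unfold ynat at h1
      exact neg_injective (ZMod.val_injective b h1))
  apply eq_of_dg_eq bgt1 M n n' hn hn'
  intro m hm1 hm
  exact cast_inj_b _ _ (dg_lt bposn _ _) (dg_lt bposn _ _) (hinj m hm1 hm)

/-- counts of injective values are at most one -/
lemma count_eq_le_one (N : ℕ) (f : ℕ → ℕ) (v : ℕ) (L : ℕ) (hN : N ≤ L)
    (hf : ∀ n < L, ∀ n' < L, f n = f n' → n = n') :
    ∑ n ∈ range N, (if f n = v then (1 : ℝ) else 0) ≤ 1 := by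
  have h0 : ((range N).filter (fun n => f n = v)).card ≤ 1 := by
    rw [card_le_one]
    intro a ha a' ha'
    rw [mem_filter, mem_range] at ha ha'
    exact hf a (by omega) a' (by omega) (ha.2.trans ha'.2.symm)
  rw [sum_boole]
  exact_mod_cast h0

lemma CC_X_top (h : ℕ → ℕ → ZMod b) (M Y N : ℕ) (hN : N ≤ b ^ M) :
    |CC h M (b ^ M) Y N - CC h M (b ^ M - 1) Y N| ≤ 1 := by
  have hpos : 0 < b ^ M := pow_pos bposn M
  have h1 : ∀ n, 0 ≤ (if Xc b M n < b ^ M ∧ Yc h M n < Y then (1 : ℝ) else 0)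
        - (if Xc b M n < b ^ M - 1 ∧ Yc h M n < Y then (1 : ℝ) else 0) ∧
      (if Xc b M n < b ^ M ∧ Yc h M n < Y then (1 : ℝ) else 0)
        - (if Xc b M n < b ^ M - 1 ∧ Yc h M n < Y then (1 : ℝ) else 0)
        ≤ (if Xc b M n = b ^ M - 1 then (1 : ℝ) else 0) := by
    intro n
    by_cases hY : Yc h M n < Y
    · simp only [hY, and_true]
      by_cases h2 : Xc b M n < b ^ M - 1
      · rw [if_pos h2, if_pos (by omega), if_neg (by omega)]; norm_num
      · by_cases h3 : Xc b M n = b ^ M - 1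
        · rw [if_neg h2, if_pos (by omega), if_pos h3]; norm_num
        · have := Xc_lt (b := b) M n
          omega
    · simp only [hY, and_false, if_false, sub_self]
      split_ifs <;> norm_num
  unfold CC
  rw [← sum_sub_distrib, abs_of_nonneg (sum_nonneg (fun n _ => (h1 n).1))]
  exact (sum_le_sum (fun n _ => (h1 n).2)).trans
    (count_eq_le_one N (Xc b M) (b ^ M - 1) (b ^ M) hN
      (fun n hn n' hn' he => Xc_inj M n n' hn hn' he))

lemma CC_Y_top (h : ℕ → ℕ → ZMod b) (hne : ∀ q m, h q m ≠ 0) (M X N : ℕ) (hN : N ≤ b ^ M) :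
    |CC h M X (b ^ M) N - CC h M X (b ^ M - 1) N| ≤ 1 := by
  have hpos : 0 < b ^ M := pow_pos bposn M
  have h1 : ∀ n, 0 ≤ (if Xc b M n < X ∧ Yc h M n < b ^ M then (1 : ℝ) else 0)
        - (if Xc b M n < X ∧ Yc h M n < b ^ M - 1 then (1 : ℝ) else 0) ∧
      (if Xc b M n < X ∧ Yc h M n < b ^ M then (1 : ℝ) else 0)
        - (if Xc b M n < X ∧ Yc h M n < b ^ M - 1 then (1 : ℝ) else 0)
        ≤ (if Yc h M n = b ^ M - 1 then (1 : ℝ) else 0) := by
    intro n
    by_cases hX : Xc b M n < X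
    · simp only [hX, true_and]
      by_cases h2 : Yc h M n < b ^ M - 1
      · rw [if_pos h2, if_pos (by omega), if_neg (by omega)]; norm_num
      · by_cases h3 : Yc h M n = b ^ M - 1
        · rw [if_neg h2, if_pos (by omega), if_pos h3]; norm_num
        · have := Yc_lt h M n
          omega
    · simp only [hX, false_and, if_false, sub_self]
      split_ifs <;> norm_num
  unfold CC
  rw [← sum_sub_distrib, abs_of_nonneg (sum_nonneg (fun n _ => (h1 n).1))]
  exact (sum_le_sum (fun n _ => (h1 n).2)).trans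
    (count_eq_le_one N (Yc h M) (b ^ M - 1) (b ^ M) hN
      (fun n hn n' hn' he => Yc_inj h hne M n n' hn hn' he))

lemma CC_N_top (h : ℕ → ℕ → ZMod b) (M X Y : ℕ) :
    |CC h M X Y (b ^ M) - CC h M X Y (b ^ M - 1)| ≤ 1 := by
  have hpos : 0 < b ^ M := pow_pos bposn M
  unfold CC
  have : b ^ M = (b ^ M - 1) + 1 := by omega
  conv_lhs => rw [this, sum_range_succ, Nat.add_sub_cancel, add_sub_cancel_left]
  split_ifs <;> norm_num

/-- hypothesis: good array -/
def Good (b : ℕ) [Fact b.Prime] (M : ℕ) (h : ℕ → ℕ → ZMod b) : Prop :=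
  (∀ q m, h q m ≠ 0) ∧ ∀ π : Par b,
    (∀ m, M + 2 ≤ m → π.x m = 0 ∧ π.y m = 0 ∧ π.NN m = 0 ∧ π.om m = 0) →
        |NS M (T1 h π)| ≤ 6 * (M : ℝ) ^ 2 ∧ |NS M (T2 h π)| ≤ 6 * (M : ℝ) ^ 2 ∧
        |NS M (T3 h π)| ≤ 6 * (M : ℝ) ^ 2

lemma anchored_le (M : ℕ) (hbM : 2 * b ≤ M) (h : ℕ → ℕ → ZMod b) (hgood : Good b M h)
    (X Y N : ℕ) (hX : X ≤ b ^ M) (hY : Y ≤ b ^ M) (hN : N ≤ b ^ M) :
    |CC h M X Y N - (N : ℝ) * X * Y / ((b : ℝ) ^ M) ^ 2| ≤ 20 * (M : ℝ) ^ 2 + 6 := by
  have hb : (0 : ℝ) < b := bpos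
  have hpos : 0 < b ^ M := pow_pos bposn M
  set L : ℝ := (b : ℝ) ^ M with hL
  have hL0 : 0 < L := by positivity
  have hLn : ((b ^ M : ℕ) : ℝ) = L := by push_cast; rfl
  have hLn1 : ((b ^ M - 1 : ℕ) : ℝ) = L - 1 := by
    rw [Nat.cast_sub (by omega), hLn]; simp
  -- step in X
  have stepN : ∀ X Y : ℕ, X < b ^ M → Y < b ^ M →
      |CC h M X Y N - (N : ℝ) * X * Y / L ^ 2| ≤ 20 * (M : ℝ) ^ 2 + 2 := by
    intro X Y hX hY
    rcases Nat.lt_or_ge N (b ^ M) with h1 | h1
    · have := anchored M hbM h hgood.1 hgood.2 X Y N hX hY h1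
      linarith
    · have hNe : N = b ^ M := by omega
      subst hNe
      have h2 := anchored M hbM h hgood.1 hgood.2 X Y (b ^ M - 1) hX hY (by omega)
      have h3 := CC_N_top h M X Y
      have h4 : |((b ^ M - 1 : ℕ) : ℝ) * X * Y / L ^ 2 - ((b ^ M : ℕ) : ℝ) * X * Y / L ^ 2| ≤ 1 := by
        rw [hLn1, hLn]
        have hXR : (X : ℝ) ≤ L := by rw [← hLn]; exact_mod_cast hX.le
        have hYR : (Y : ℝ) ≤ L := by rw [← hLn]; exact_mod_cast hY.le
        have e : (L - 1) * X * Y / L ^ 2 - L * X * Y / L ^ 2 = - (X * Y / L ^ 2) := by ring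
        rw [e, abs_neg, abs_of_nonneg (by positivity), div_le_one (by positivity)]
        nlinarith [Nat.cast_nonneg (α := ℝ) X, Nat.cast_nonneg (α := ℝ) Y]
      rw [abs_le] at h2 h3 h4 ⊢
      constructor <;> linarith [h2.1, h2.2, h3.1, h3.2, h4.1, h4.2]
  have hNR : (N : ℝ) ≤ L := by rw [← hLn]; exact_mod_cast hN
  have stepX : ∀ X Y : ℕ, X ≤ b ^ M → Y < b ^ M →
      |CC h M X Y N - (N : ℝ) * X * Y / L ^ 2| ≤ 20 * (M : ℝ) ^ 2 + 4 := by
    intro X Y hX hY
    rcases Nat.lt_or_ge X (b ^ M) with h1 | h1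
    · have := stepN X Y h1 hY
      linarith
    · have hXe : X = b ^ M := by omega
      subst hXe
      have h2 := stepN (b ^ M - 1) Y (by omega) hY
      have h3 := CC_X_top h M Y N hN
      have h4 : |(N : ℝ) * ((b ^ M - 1 : ℕ) : ℝ) * Y / L ^ 2
          - (N : ℝ) * ((b ^ M : ℕ) : ℝ) * Y / L ^ 2| ≤ 1 := by
        rw [hLn1, hLn]
        have hYR : (Y : ℝ) ≤ L := by rw [← hLn]; exact_mod_cast hY.le
        have e : (N : ℝ) * (L - 1) * Y / L ^ 2 - N * L * Y / L ^ 2 = - (N * Y / L ^ 2) := by ring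
        rw [e, abs_neg, abs_of_nonneg (by positivity), div_le_one (by positivity)]
        nlinarith [Nat.cast_nonneg (α := ℝ) N, Nat.cast_nonneg (α := ℝ) Y]
      rw [abs_le] at h2 h3 h4 ⊢
      constructor <;> linarith [h2.1, h2.2, h3.1, h3.2, h4.1, h4.2]
  rcases Nat.lt_or_ge Y (b ^ M) with h1 | h1
  · have := stepX X Y hX h1
    linarith
  · have hYe : Y = b ^ M := by omega
    subst hYe
    have h2 := stepX X (b ^ M - 1) hX (by omega)
    have h3 := CC_Y_top h hgood.1 M X N hN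
    have h4 : |(N : ℝ) * X * ((b ^ M - 1 : ℕ) : ℝ) / L ^ 2
        - (N : ℝ) * X * ((b ^ M : ℕ) : ℝ) / L ^ 2| ≤ 1 := by
      rw [hLn1, hLn]
      have hXR : (X : ℝ) ≤ L := by rw [← hLn]; exact_mod_cast hX
      have e : (N : ℝ) * X * (L - 1) / L ^ 2 - N * X * L / L ^ 2 = - (N * X / L ^ 2) := by ring
      rw [e, abs_neg, abs_of_nonneg (by positivity), div_le_one (by positivity)]
      nlinarith [Nat.cast_nonneg (α := ℝ) N, Nat.cast_nonneg (α := ℝ) X]
    rw [abs_le] at h2 h3 h4 ⊢
    constructor <;> linarith [h2.1, h2.2, h3.1, h3.2, h4.1, h4.2]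

/-- counts in grid rectangles -/
noncomputable def RC (h : ℕ → ℕ → ZMod b) (M v1 v2 w1 w2 N : ℕ) : ℝ :=
  ∑ n ∈ range N, if (v1 ≤ Xc b M n ∧ Xc b M n < v2) ∧ (w1 ≤ Yc h M n ∧ Yc h M n < w2)
    then (1 : ℝ) else 0

lemma RC_eq (h : ℕ → ℕ → ZMod b) (M v1 v2 w1 w2 N : ℕ) (hv : v1 ≤ v2) (hw : w1 ≤ w2) :
    RC h M v1 v2 w1 w2 N = CC h M v2 w2 N - CC h M v1 w2 N - CC h M v2 w1 N + CC h M v1 w1 N := by
  unfold RC CC
  rw [← sum_sub_distrib, ← sum_sub_distrib, ← sum_add_distrib]
  apply sum_congr rfl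
  intro n _
  by_cases h1 : Xc b M n < v1
  · have h2 : Xc b M n < v2 := by omega
    have h3 : ¬ v1 ≤ Xc b M n := by omega
    simp [h1, h2, h3]
  · by_cases h2 : Xc b M n < v2
    · have h3 : v1 ≤ Xc b M n := by omega
      by_cases h4 : Yc h M n < w1
      · have h5 : Yc h M n < w2 := by omega
        have h6 : ¬ w1 ≤ Yc h M n := by omega
        simp [h1, h2, h3, h4, h5, h6]
      · have h6 : w1 ≤ Yc h M n := by omega
        simp [h1, h2, h3, h4, h6]
    · simp [h1, h2]

lemma RC_bound (M : ℕ) (hbM : 2 * b ≤ M) (h : ℕ → ℕ → ZMod b) (hgood : Good b M h)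
    (v1 v2 w1 w2 N : ℕ) (hv : v1 ≤ v2) (hw : w1 ≤ w2) (hv2 : v2 ≤ b ^ M) (hw2 : w2 ≤ b ^ M)
    (hN : N ≤ b ^ M) :
    |RC h M v1 v2 w1 w2 N - (N : ℝ) * (((v2 : ℝ) - v1) / (b : ℝ) ^ M)
      * (((w2 : ℝ) - w1) / (b : ℝ) ^ M)| ≤ 80 * (M : ℝ) ^ 2 + 24 := by
  have hb : (0 : ℝ) < b := bpos
  have h1 := anchored_le M hbM h hgood v2 w2 N hv2 hw2 hN
  have h2 := anchored_le M hbM h hgood v1 w2 N (hv.trans hv2) hw2 hN
  have h3 := anchored_le M hbM h hgood v2 w1 N hv2 (hw.trans hw2) hN
  have h4 := anchored_le M hbM h hgood v1 w1 N (hv.trans hv2) (hw.trans hw2) hN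
  rw [RC_eq h M v1 v2 w1 w2 N hv hw]
  have e : (N : ℝ) * (((v2 : ℝ) - v1) / (b : ℝ) ^ M) * (((w2 : ℝ) - w1) / (b : ℝ) ^ M)
      = (N : ℝ) * v2 * w2 / ((b : ℝ) ^ M) ^ 2 - (N : ℝ) * v1 * w2 / ((b : ℝ) ^ M) ^ 2
        - (N : ℝ) * v2 * w1 / ((b : ℝ) ^ M) ^ 2 + (N : ℝ) * v1 * w1 / ((b : ℝ) ^ M) ^ 2 := by
    field_simp
    ring
  rw [e]
  rw [abs_le] at h1 h2 h3 h4 ⊢
  constructor <;> linarith [h1.1, h1.2, h2.1, h2.2, h3.1, h3.2, h4.1, h4.2]

/-- Discretisation of an interval. -/
lemma interval_grid (I : Set ℝ) (hI : I.OrdConnected) (hsub : I ⊆ Set.Ico 0 1) (L : ℕ)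
    (hL : 0 < L) :
    ∃ v1 v2 : ℕ, v1 ≤ v2 ∧ v2 ≤ L ∧ (∀ v : ℕ, v < L → ((v : ℝ) / L ∈ I ↔ v1 ≤ v ∧ v < v2)) ∧
      |(MeasureTheory.volume I).toReal - ((v2 : ℝ) - v1) / L| ≤ 1 / L := by
  classical
  have hLR : (0 : ℝ) < L := by exact_mod_cast hL
  set V : Finset ℕ := (range L).filter (fun v => (v : ℝ) / L ∈ I) with hV
  have hmemV : ∀ v, v ∈ V ↔ v < L ∧ (v : ℝ) / L ∈ I := by
    intro v; rw [hV, mem_filter, mem_range]
  by_cases hne : V.Nonempty
  · set v1 := V.min' hne with hv1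
    set vm := V.max' hne with hvm
    have hv1V := V.min'_mem hne
    have hvmV := V.max'_mem hne
    rw [← hv1, hmemV] at hv1V
    rw [← hvm, hmemV] at hvmV
    have hle : v1 ≤ vm := V.min'_le _ (V.max'_mem hne)
    refine ⟨v1, vm + 1, by omega, by omega, ?_, ?_⟩
    · intro v hv
      constructor
      · intro hvI
        have hvV : v ∈ V := (hmemV v).mpr ⟨hv, hvI⟩
        have h1 := V.min'_le v hvV
        have h2 := V.le_max' v hvV
        omega
      · rintro ⟨h1, h2⟩
        apply hI.out hv1V.2 hvmV.2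
        constructor
        · apply div_le_div_of_nonneg_right _ hLR.le
          exact_mod_cast h1
        · apply div_le_div_of_nonneg_right _ hLR.le
          exact_mod_cast (by omega : v ≤ vm)
    · have hlow : Set.Icc ((v1 : ℝ) / L) ((vm : ℝ) / L) ⊆ I := by
        intro x hx
        exact hI.out hv1V.2 hvmV.2 hx
      have hup : I ⊆ Set.Icc (((v1 : ℝ) - 1) / L) (((vm : ℝ) + 1) / L) := by
        intro x hx
        have hx01 := hsub hx
        constructor
        · by_contra hlt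
          push Not at hlt
          have hv1pos : 1 ≤ v1 := by
            by_contra h0
            have : v1 = 0 := by omega
            rw [this] at hlt
            have : (((0 : ℕ) : ℝ) - 1) / L < 0 := by
              apply div_neg_of_neg_of_pos _ hLR
              norm_num
            linarith [hx01.1]
          have hmem : ((v1 - 1 : ℕ) : ℝ) / L ∈ I := by
            apply hI.out hx hv1V.2
            rw [Nat.cast_sub hv1pos]
            constructor
            · push_cast; exact hlt.le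
            · apply div_le_div_of_nonneg_right _ hLR.le
              push_cast; linarith
          have : v1 - 1 ∈ V := (hmemV _).mpr ⟨by omega, hmem⟩
          have := V.min'_le _ this
          omega
        · by_contra hlt
          push Not at hlt
          have hvmL : vm + 1 < L := by
            by_contra h0
            have h1 : vm + 1 = L := by omega
            have h2 : ((vm : ℝ) + 1) / L = 1 := by
              rw [← h1]; push_cast; field_simp
            rw [h2] at hlt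
            linarith [hx01.2]
          have hmem : ((vm + 1 : ℕ) : ℝ) / L ∈ I := by
            apply hI.out hvmV.2 hx
            constructor
            · apply div_le_div_of_nonneg_right _ hLR.le
              push_cast; linarith
            · push_cast; exact hlt.le
          have : vm + 1 ∈ V := (hmemV _).mpr ⟨hvmL, hmem⟩
          have := V.le_max' _ this
          omega
      have hmono : ((v1 : ℝ) / L) ≤ ((vm : ℝ) / L) := by
        apply div_le_div_of_nonneg_right _ hLR.le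
        exact_mod_cast hle
      have hfin : MeasureTheory.volume (Set.Icc (((v1 : ℝ) - 1) / L) (((vm : ℝ) + 1) / L)) ≠ ⊤ := by
        rw [Real.volume_Icc]; exact ENNReal.ofReal_ne_top
      have hfinI : MeasureTheory.volume I ≠ ⊤ :=
        ne_top_of_le_ne_top hfin (MeasureTheory.measure_mono hup)
      have h1 : ((vm : ℝ) / L) - ((v1 : ℝ) / L) ≤ (MeasureTheory.volume I).toReal := by
        have := ENNReal.toReal_mono hfinI (MeasureTheory.measure_mono hlow)
        rwa [Real.volume_Icc, ENNReal.toReal_ofReal (by linarith)] at this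
      have h2 : (MeasureTheory.volume I).toReal ≤ (((vm : ℝ) + 1) / L) - (((v1 : ℝ) - 1) / L) := by
        have := ENNReal.toReal_mono hfin (MeasureTheory.measure_mono hup)
        rwa [Real.volume_Icc, ENNReal.toReal_ofReal] at this
        have : (((v1 : ℝ) - 1) / L) ≤ ((v1 : ℝ) / L) := by
          apply div_le_div_of_nonneg_right _ hLR.le; linarith
        have : ((vm : ℝ) / L) ≤ (((vm : ℝ) + 1) / L) := by
          apply div_le_div_of_nonneg_right _ hLR.le; linarith
        linarith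
      have e1 : (((vm + 1 : ℕ) : ℝ) - v1) / L = ((vm : ℝ) / L) - ((v1 : ℝ) / L) + 1 / L := by
        push_cast; ring
      have e2 : (((vm : ℝ) + 1) / L) - (((v1 : ℝ) - 1) / L)
          = ((vm : ℝ) / L) - ((v1 : ℝ) / L) + 1 / L + 1 / L := by ring
      rw [e1, abs_le]
      rw [e2] at h2
      constructor <;> linarith
  · refine ⟨0, 0, le_rfl, by omega, ?_, ?_⟩
    · intro v hv
      constructor
      · intro hvI
        exact absurd ⟨v, (hmemV v).mpr ⟨hv, hvI⟩⟩ hne
      · rintro ⟨_, h2⟩; omega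
    · have hnone : ∀ v : ℕ, v < L → (v : ℝ) / L ∉ I := by
        intro v hv hvI
        exact hne ⟨v, (hmemV v).mpr ⟨hv, hvI⟩⟩
      simp only [Nat.cast_zero, sub_self, zero_div, sub_zero]
      rw [abs_of_nonneg ENNReal.toReal_nonneg]
      by_cases hIe : I.Nonempty
      · obtain ⟨x, hx⟩ := hIe
        have hx01 := hsub hx
        set v := ⌊x * L⌋₊ with hv
        have hxL : 0 ≤ x * L := mul_nonneg hx01.1 hLR.le
        have hv1 : (v : ℝ) ≤ x * L := Nat.floor_le hxL
        have hv2 : x * L < v + 1 := Nat.lt_floor_add_one _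
        have hvx : (v : ℝ) / L ≤ x := by rw [div_le_iff₀ hLR]; exact hv1
        have hxv : x < ((v : ℝ) + 1) / L := by rw [lt_div_iff₀ hLR]; exact hv2
        have hvL : v < L := by
          have : (v : ℝ) < L := by
            calc (v : ℝ) ≤ x * L := hv1
              _ < 1 * L := by
                apply mul_lt_mul_of_pos_right hx01.2 hLR
              _ = L := one_mul _
          exact_mod_cast this
        have hup : I ⊆ Set.Icc ((v : ℝ) / L) (((v : ℝ) + 1) / L) := by
          intro y hy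
          have hy01 := hsub hy
          constructor
          · by_contra hlt
            push Not at hlt
            exact hnone v hvL (hI.out hy hx ⟨hlt.le, hvx⟩)
          · by_contra hlt
            push Not at hlt
            have hvL2 : v + 1 < L := by
              by_contra h0
              have h1 : v + 1 = L := by omega
              have h2 : ((v : ℝ) + 1) / L = 1 := by
                rw [← h1]; push_cast; field_simp
              rw [h2] at hlt
              linarith [hy01.2]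
            apply hnone (v + 1) hvL2
            apply hI.out hx hy
            push_cast
            exact ⟨hxv.le, hlt.le⟩
        have hfin : MeasureTheory.volume (Set.Icc ((v : ℝ) / L) (((v : ℝ) + 1) / L)) ≠ ⊤ := by
          rw [Real.volume_Icc]; exact ENNReal.ofReal_ne_top
        have h2 := ENNReal.toReal_mono hfin (MeasureTheory.measure_mono hup)
        have e : (((v : ℝ) + 1) / L) - ((v : ℝ) / L) = 1 / L := by ring
        rw [Real.volume_Icc, e, ENNReal.toReal_ofReal (by positivity)] at h2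
        exact h2
      · rw [Set.not_nonempty_iff_eq_empty] at hIe
        rw [hIe]
        simp
        

end Pool.Agent.Helper4.Disc
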