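import Mathlib

namespace Pool.Agent.Helper4.Disc

/-- `A_N(B)`: the number of `n` with `0 ≤ n < N` and `z n ∈ B`. -/
noncomputable def count {d : ℕ} (z : ℕ → Fin d → ℝ) (N : ℕ) (B : Set (Fin d → ℝ)) : ℕ :=
  {n : ℕ | n < N ∧ z n ∈ B}.ncard

/-- `B` is an axis-parallel box contained in `[0,1)^d`: a product of subintervals of `[0,1)`
(order-connected subsets of `[0,1)`: open, closed, half-open, degenerate or empty). -/
def IsBox {d : ℕ} (B : Set (Fin d → ℝ)) : Prop :=
  ∃ I : Fin d → Set ℝ, (∀ i, (I i).OrdConnected ∧ I i ⊆ Set.Ico 0 1) ∧ B = Set.univ.pi I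

/-- The extreme discrepancy `D_N` of the first `N` points: the supremum over all boxes `B` of
`|A_N(B)/N - λ(B)|`. -/
noncomputable def disc {d : ℕ} (z : ℕ → Fin d → ℝ) (N : ℕ) : ℝ :=
  sSup {δ : ℝ | ∃ B : Set (Fin d → ℝ), IsBox B ∧
    δ = |(count z N B : ℝ) / N - (MeasureTheory.volume B).toReal|}

end Pool.Agent.Helper4.Disc
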