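import Mathlib
import Pool.Agent.Helper4.Disc.Boxes
import Pool.Agent.Helper4.Disc.Defs

open Finset

namespace Pool.Agent.Helper4.Disc

/-- sequence lies in the unit cube -/
def InCube {d : ℕ} (z : ℕ → Fin d → ℝ) : Prop := ∀ n i, z n i ∈ Set.Ico (0 : ℝ) 1

/-- local discrepancy is bounded by `m` for all `N ≤ L` -/
def Bdd {d : ℕ} (z : ℕ → Fin d → ℝ) (L : ℕ) (m : ℝ) : Prop :=
  ∀ N ≤ L, ∀ B : Set (Fin d → ℝ), IsBox B →
    |(count z N B : ℝ) - N * (MeasureTheory.volume B).toReal| ≤ m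

lemma count_eq_sum {d : ℕ} (z : ℕ → Fin d → ℝ) (N : ℕ) (B : Set (Fin d → ℝ))
    [DecidablePred (fun n => z n ∈ B)] :
    (count z N B : ℝ) = ∑ n ∈ range N, if z n ∈ B then (1 : ℝ) else 0 := by
  unfold count
  have : {n : ℕ | n < N ∧ z n ∈ B} = ((range N).filter (fun n => z n ∈ B) : Set ℕ) := by
    ext n; simp
  rw [this, Set.ncard_coe_finset, sum_boole]

lemma count_le {d : ℕ} (z : ℕ → Fin d → ℝ) (N : ℕ) (B : Set (Fin d → ℝ)) :
    (count z N B : ℝ) ≤ N := by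
  classical
  rw [count_eq_sum]
  calc _ ≤ ∑ n ∈ range N, (1 : ℝ) := by
        apply sum_le_sum; intro n _; split_ifs <;> norm_num
    _ = N := by simp

lemma interval_vol_le (I : Set ℝ) (hsub : I ⊆ Set.Ico 0 1) :
    (MeasureTheory.volume I).toReal ≤ 1 := by
  have := ENNReal.toReal_mono (by rw [Real.volume_Ico]; exact ENNReal.ofReal_ne_top)
    (MeasureTheory.measure_mono hsub)
  rw [Real.volume_Ico] at this
  simpa using this

lemma vol_pi {d : ℕ} (I : Fin d → Set ℝ) :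
    (MeasureTheory.volume (Set.univ.pi I)).toReal = ∏ i, (MeasureTheory.volume (I i)).toReal := by
  rw [MeasureTheory.volume_pi_pi, ENNReal.toReal_prod]

lemma vol_box_le {d : ℕ} (B : Set (Fin d → ℝ)) (hB : IsBox B) :
    0 ≤ (MeasureTheory.volume B).toReal ∧ (MeasureTheory.volume B).toReal ≤ 1 := by
  obtain ⟨I, hI, rfl⟩ := hB
  refine ⟨ENNReal.toReal_nonneg, ?_⟩
  rw [vol_pi]
  exact prod_le_one (fun i _ => ENNReal.toReal_nonneg) (fun i _ => interval_vol_le _ (hI i).2)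

/-- trivial bound -/
lemma bdd_trivial {d : ℕ} (z : ℕ → Fin d → ℝ) (L : ℕ) : Bdd z L L := by
  intro N hN B hB
  have h1 := vol_box_le B hB
  have h2 := count_le z N B
  have h3 : (N : ℝ) ≤ L := by exact_mod_cast hN
  have h4 : (0 : ℝ) ≤ (count z N B : ℝ) := by positivity
  have h5 : (0 : ℝ) ≤ N := by positivity
  rw [abs_le]
  constructor
  · nlinarith
  · nlinarith

section Net

variable {b : ℕ} [Fact b.Prime]

/-- the points in the unit square -/
noncomputable def zz (h : ℕ → ℕ → ZMod b) (M : ℕ) (n : ℕ) : Fin 2 → ℝ :=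
  ![(Xc b M n : ℝ) / (b : ℝ) ^ M, (Yc h M n : ℝ) / (b : ℝ) ^ M]

lemma zz_inCube (h : ℕ → ℕ → ZMod b) (M : ℕ) : InCube (zz h M) := by
  intro n i
  have hb : (0 : ℝ) < b := bpos
  have h1 : (Xc b M n : ℝ) < (b : ℝ) ^ M := by exact_mod_cast Xc_lt (b := b) M n
  have h2 : (Yc h M n : ℝ) < (b : ℝ) ^ M := by exact_mod_cast Yc_lt h M n
  fin_cases i
  · show (Xc b M n : ℝ) / (b : ℝ) ^ M ∈ Set.Ico (0 : ℝ) 1
    exact ⟨by positivity, by rw [div_lt_one (by positivity)]; exact h1⟩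
  · show (Yc h M n : ℝ) / (b : ℝ) ^ M ∈ Set.Ico (0 : ℝ) 1
    exact ⟨by positivity, by rw [div_lt_one (by positivity)]; exact h2⟩

lemma zz_bdd (h : ℕ → ℕ → ZMod b) (M : ℕ) (hbM : 2 * b ≤ M) (hgood : Good b M h) :
    Bdd (zz h M) (b ^ M) (80 * (M : ℝ) ^ 2 + 26) := by
  classical
  intro N hN B hB
  obtain ⟨I, hI, rfl⟩ := hB
  have hb : (0 : ℝ) < b := bpos
  have hLpos : 0 < b ^ M := pow_pos bposn M
  obtain ⟨v1, v2, hv, hv2, hvI, hvol⟩ := interval_grid (I 0) (hI 0).1 (hI 0).2 (b ^ M) hLpos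
  obtain ⟨w1, w2, hw, hw2, hwI, hwol⟩ := interval_grid (I 1) (hI 1).1 (hI 1).2 (b ^ M) hLpos
  have hRC := RC_bound M hbM h hgood v1 v2 w1 w2 N hv hw hv2 hw2 hN
  have hcount : (count (zz h M) N (Set.univ.pi I) : ℝ) = RC h M v1 v2 w1 w2 N := by
    rw [count_eq_sum]
    unfold RC
    apply sum_congr rfl
    intro n _
    have h1 : (zz h M n ∈ Set.univ.pi I) ↔
        ((v1 ≤ Xc b M n ∧ Xc b M n < v2) ∧ (w1 ≤ Yc h M n ∧ Yc h M n < w2)) := by
      rw [Set.mem_univ_pi, Fin.forall_fin_two]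
      have e1 := hvI (Xc b M n) (Xc_lt M n)
      have e2 := hwI (Yc h M n) (Yc_lt h M n)
      push_cast at e1 e2
      rw [← e1, ← e2]
      simp [zz]
    by_cases h2 : zz h M n ∈ Set.univ.pi I
    · rw [if_pos h2, if_pos (h1.mp h2)]
    · rw [if_neg h2, if_neg (fun hc => h2 (h1.mpr hc))]
  rw [hcount, vol_pi, Fin.prod_univ_two]
  push_cast at hvol hwol
  set L : ℝ := (b : ℝ) ^ M with hL
  have hL0 : 0 < L := by positivity
  have hNL : (N : ℝ) ≤ L := by rw [hL]; exact_mod_cast hN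
  set α := (MeasureTheory.volume (I 0)).toReal with hα
  set β := (MeasureTheory.volume (I 1)).toReal with hβ
  set α' := ((v2 : ℝ) - v1) / L with hα'
  set β' := ((w2 : ℝ) - w1) / L with hβ'
  have hβ1 : β ≤ 1 := interval_vol_le _ (hI 1).2
  have hβ0 : 0 ≤ β := ENNReal.toReal_nonneg
  have hα'0 : 0 ≤ α' := by
    rw [hα']
    apply div_nonneg _ hL0.le
    have : (v1 : ℝ) ≤ v2 := by exact_mod_cast hv
    linarith
  have hα'1 : α' ≤ 1 := by
    rw [hα', div_le_one hL0]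
    have h1 : (v2 : ℝ) ≤ L := by rw [hL]; exact_mod_cast hv2
    have : (0 : ℝ) ≤ v1 := by positivity
    linarith
  have hN0 : (0 : ℝ) ≤ N := by positivity
  have key : |N * α' * β' - N * (α * β)| ≤ 2 := by
    have e : (N : ℝ) * α' * β' - N * (α * β) = - (N * ((α - α') * β + α' * (β - β'))) := by ring
    rw [e, abs_neg, abs_mul, abs_of_nonneg hN0]
    have h1 : |(α - α') * β + α' * (β - β')| ≤ 1 / L + 1 / L := by
      calc _ ≤ |(α - α') * β| + |α' * (β - β')| := abs_add_le _ _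
        _ = |α - α'| * β + α' * |β - β'| := by
            rw [abs_mul, abs_mul, abs_of_nonneg hβ0, abs_of_nonneg hα'0]
        _ ≤ (1 / L) * 1 + 1 * (1 / L) := by gcongr
        _ = _ := by ring
    calc (N : ℝ) * |(α - α') * β + α' * (β - β')| ≤ L * (1 / L + 1 / L) := by gcongr
      _ = 2 := by field_simp; norm_num
  rw [abs_le] at hRC key ⊢
  constructor <;> linarith [hRC.1, hRC.2, key.1, key.2]

end Net

lemma block_arith (m t : ℝ) (j : ℕ) (hm1 : 1 ≤ m) (ht : 0 < t) (hm : m ≤ 2 * 2 ^ j / t) :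
    80 * m ^ 2 + 26 ≤ 424 * 4 ^ j / t ^ 2 := by
  calc 80 * m ^ 2 + 26 ≤ 106 * m ^ 2 := by nlinarith
    _ ≤ 106 * (2 * 2 ^ j / t) ^ 2 := by gcongr
    _ = 424 * 4 ^ j / t ^ 2 := by
        have : (4 : ℝ) ^ j = (2 ^ j) ^ 2 := by
          rw [← pow_mul, mul_comm j 2, pow_mul]; norm_num
        rw [this]
        field_simp
        ring

/-- Block lemma. -/
lemma block (t j : ℕ) (ht : 1 ≤ t) (hj : 6 * t + 15 ≤ j) :
    ∃ z : ℕ → Fin 2 → ℝ, InCube z ∧ Bdd z (2 ^ 2 ^ j) (424 * 4 ^ j / (t : ℝ) ^ 2) := by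
  obtain ⟨b, hbp, hb1, hb2⟩ := Nat.exists_prime_lt_and_le_two_mul (2 ^ t) (by positivity)
  have : Fact b.Prime := ⟨hbp⟩
  set M := 2 ^ j / t + 1 with hM
  have hb2' : b ≤ 2 ^ (t + 1) := by rw [pow_succ']; exact hb2
  have htpow : t ≤ 2 ^ t := Nat.lt_two_pow_self.le
  -- size of `M`
  have hMlow : 2 ^ (5 * t + 15) ≤ M := by
    have h1 : 2 ^ (5 * t + 15) * t ≤ 2 ^ j := by
      calc 2 ^ (5 * t + 15) * t ≤ 2 ^ (5 * t + 15) * 2 ^ t := Nat.mul_le_mul_left _ htpow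
        _ = 2 ^ (6 * t + 15) := by rw [← pow_add]; congr 1; omega
        _ ≤ 2 ^ j := Nat.pow_le_pow_right (by norm_num) hj
    have h2 : 2 ^ (5 * t + 15) ≤ 2 ^ j / t := (Nat.le_div_iff_mul_le (by omega)).mpr h1
    omega
  have hbM : 64 * b ^ 4 * (2 + 12 * b) ≤ M := by
    refine le_trans ?_ hMlow
    calc 64 * b ^ 4 * (2 + 12 * b) ≤ 64 * b ^ 4 * (16 * b) := by
          apply Nat.mul_le_mul_left
          have := hbp.one_le
          omega
      _ = 2 ^ 10 * b ^ 5 := by ring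
      _ ≤ 2 ^ 10 * (2 ^ (t + 1)) ^ 5 := by gcongr
      _ = 2 ^ (5 * t + 15) := by rw [← pow_mul, ← pow_add]; congr 1; ring
  have hbM2 : 2 * b ≤ M := by
    refine le_trans ?_ hbM
    have h0 : 1 ≤ b ^ 4 := Nat.one_le_pow _ _ hbp.pos
    nlinarith [hbp.one_le]
  obtain ⟨h, hne, hgood⟩ := exists_good_array (b := b) M hbM
  have hG : Good b M h := ⟨hne, hgood⟩
  refine ⟨zz h M, zz_inCube h M, ?_⟩
  have hbdd := zz_bdd h M hbM2 hG
  -- length
  have hlen : 2 ^ 2 ^ j ≤ b ^ M := by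
    calc 2 ^ 2 ^ j ≤ 2 ^ (t * M) := by
          apply Nat.pow_le_pow_right (by norm_num)
          rw [hM, mul_add, mul_one]
          have := Nat.div_add_mod (2 ^ j) t
          have := Nat.mod_lt (2 ^ j) (show 0 < t by omega)
          omega
      _ = (2 ^ t) ^ M := by rw [pow_mul]
      _ ≤ b ^ M := Nat.pow_le_pow_left hb1.le M
  have hMup : (M : ℝ) ≤ 2 * 2 ^ j / t := by
    have htR : (0 : ℝ) < t := by exact_mod_cast ht
    rw [le_div_iff₀ htR]
    have h1 : M * t ≤ 2 * 2 ^ j := by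
      rw [hM, add_mul, one_mul]
      have h2 := Nat.div_mul_le_self (2 ^ j) t
      have h3 : t ≤ 2 ^ j := htpow.trans (Nat.pow_le_pow_right (by norm_num) (by omega))
      omega
    exact_mod_cast h1
  have hM1 : (1 : ℝ) ≤ M := by
    have : 1 ≤ M := by omega
    exact_mod_cast this
  have hbound : 80 * (M : ℝ) ^ 2 + 26 ≤ 424 * 4 ^ j / (t : ℝ) ^ 2 := by
    have htR : (0 : ℝ) < t := by exact_mod_cast ht
    exact block_arith (M : ℝ) t j hM1 htR hMup
  intro N hN B hB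
  exact (hbdd N (hN.trans hlen) B hB).trans hbound

/-- uniform version for all `j` -/
lemma block_all : ∃ C : ℝ, 0 < C ∧ ∀ j : ℕ, ∃ z : ℕ → Fin 2 → ℝ, InCube z ∧
    Bdd z (2 ^ 2 ^ j) (C * 4 ^ j / ((j : ℝ) + 2) ^ 2) := by
  set C : ℝ := 424 * 144 * 4 + ∑ j ∈ range 40, (2 : ℝ) ^ 2 ^ j * ((j : ℝ) + 2) ^ 2 with hC
  have hC0 : 0 < C := by positivity
  refine ⟨C, hC0, ?_⟩
  intro j
  rcases Nat.lt_or_ge j 40 with hj | hj
  · refine ⟨fun _ _ => 0, fun n i => by simp, ?_⟩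
    intro N hN B hB
    refine (bdd_trivial _ _ N hN B hB).trans ?_
    rw [le_div_iff₀ (by positivity)]
    have h1 : (2 : ℝ) ^ 2 ^ j * ((j : ℝ) + 2) ^ 2 ≤ C := by
      have := single_le_sum (f := fun j : ℕ => (2 : ℝ) ^ 2 ^ j * ((j : ℝ) + 2) ^ 2)
        (fun i _ => by positivity) (mem_range.mpr hj)
      rw [hC]
      linarith
    have h2 : (1 : ℝ) ≤ 4 ^ j := one_le_pow₀ (by norm_num)
    push_cast
    nlinarith
  · set t := (j - 15) / 6 with ht
    obtain ⟨z, hz, hb⟩ := block t j (by omega) (by omega)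
    refine ⟨z, hz, ?_⟩
    intro N hN B hB
    refine (hb N hN B hB).trans ?_
    have ht1 : j + 2 ≤ 24 * t := by omega
    have htR : (j : ℝ) + 2 ≤ 24 * t := by exact_mod_cast ht1
    have ht0 : (0 : ℝ) < t := by
      have : 0 < t := by omega
      exact_mod_cast this
    have hj0 : (0 : ℝ) < (j : ℝ) + 2 := by positivity
    rw [div_le_div_iff₀ (by positivity) (by positivity)]
    have hCge : 424 * 144 * 4 ≤ C := by
      rw [hC]
      have : 0 ≤ ∑ j ∈ range 40, (2 : ℝ) ^ 2 ^ j * ((j : ℝ) + 2) ^ 2 := by positivity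
      linarith
    calc 424 * (4 : ℝ) ^ j * ((j : ℝ) + 2) ^ 2 ≤ 424 * 4 ^ j * (24 * (t : ℝ)) ^ 2 := by gcongr
      _ = (424 * 144 * 4) * 4 ^ j * (t : ℝ) ^ 2 := by ring
      _ ≤ C * 4 ^ j * (t : ℝ) ^ 2 := by gcongr

end Pool.Agent.Helper4.Disc
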