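import Mathlib
import Pool.Agent.Helper4.Disc.Blocks

open Finset

namespace Pool.Agent.Helper4.Disc

/-- start of the `j`-th block -/
def SS (j : ℕ) : ℕ := ∑ i ∈ range j, 2 ^ 2 ^ i

lemma SS_succ (j : ℕ) : SS (j + 1) = SS j + 2 ^ 2 ^ j := by
  unfold SS; rw [sum_range_succ]

lemma SS_mono {i j : ℕ} (h : i ≤ j) : SS i ≤ SS j := by
  unfold SS
  exact sum_le_sum_of_subset (range_mono h)

lemma SS_ge (j : ℕ) : j ≤ SS j := by
  induction j with
  | zero => omega
  | succ j ih =>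
    rw [SS_succ]
    have : 1 ≤ 2 ^ 2 ^ j := Nat.one_le_two_pow
    omega

lemma exists_block (n : ℕ) : ∃ j, n < SS (j + 1) := ⟨n, by have := SS_ge (n + 1); omega⟩

/-- index of the block containing `n` -/
noncomputable def JJ (n : ℕ) : ℕ := by
  classical exact Nat.find (exists_block n)

lemma JJ_eq (n j : ℕ) (h1 : SS j ≤ n) (h2 : n < SS (j + 1)) : JJ n = j := by
  classical
  unfold JJ
  rw [Nat.find_eq_iff]
  refine ⟨h2, ?_⟩
  intro i hi
  have := SS_mono (show i + 1 ≤ j by omega)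
  omega

lemma JJ_spec (n : ℕ) : SS (JJ n) ≤ n ∧ n < SS (JJ n + 1) := by
  classical
  refine ⟨?_, ?_⟩
  · by_contra h
    push Not at h
    by_cases h0 : JJ n = 0
    · rw [h0] at h
      simp [SS] at h
    · have h1 : n < SS ((JJ n - 1) + 1) := by
        have : JJ n - 1 + 1 = JJ n := by omega
        rw [this]; exact h
      have h2 : JJ n ≤ JJ n - 1 := by
        conv_lhs => unfold JJ
        exact Nat.find_min' (exists_block n) h1
      omega
  · unfold JJ
    exact Nat.find_spec (exists_block n)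

/-- concatenation of blocks -/
noncomputable def concat (z : ℕ → ℕ → Fin 2 → ℝ) (n : ℕ) : Fin 2 → ℝ := z (JJ n) (n - SS (JJ n))

lemma concat_bound (z : ℕ → ℕ → Fin 2 → ℝ) (m : ℕ → ℝ)
    (hz : ∀ j, Bdd (z j) (2 ^ 2 ^ j) (m j)) (B : Set (Fin 2 → ℝ)) (hB : IsBox B) (J : ℕ) :
    ∀ N, SS J ≤ N → N ≤ SS (J + 1) →
      |(count (concat z) N B : ℝ) - N * (MeasureTheory.volume B).toReal|
        ≤ ∑ j ∈ range (J + 1), m j := by
  classical
  have hstep : ∀ J r, r ≤ 2 ^ 2 ^ J →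
      (count (concat z) (SS J + r) B : ℝ) = count (concat z) (SS J) B + count (z J) r B := by
    intro J r hr
    rw [count_eq_sum, count_eq_sum, count_eq_sum, sum_range_add]
    congr 1
    apply sum_congr rfl
    intro n hn
    rw [mem_range] at hn
    have h1 : JJ (SS J + n) = J := JJ_eq _ _ (by omega) (by rw [SS_succ]; omega)
    have h2 : concat z (SS J + n) = z J n := by
      unfold concat
      rw [h1, Nat.add_sub_cancel_left]
    rw [h2]
  induction J with
  | zero =>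
    intro N h1 h2
    have h0 : SS 0 = 0 := by simp [SS]
    have h3 := hstep 0 N (by rw [SS_succ, h0] at h2; omega)
    rw [h0, zero_add] at h3
    have h4 : (count (concat z) 0 B : ℝ) = 0 := by
      have := count_le (concat z) 0 B
      have h5 : (0 : ℝ) ≤ (count (concat z) 0 B : ℝ) := by positivity
      simp only [Nat.cast_zero] at this
      linarith
    rw [h3, h4, zero_add]
    simp only [zero_add, sum_range_one]
    exact hz 0 N (by rw [SS_succ, h0] at h2; omega) B hB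
  | succ J ih =>
    intro N h1 h2
    set r := N - SS (J + 1) with hr
    have hNr : N = SS (J + 1) + r := by omega
    have hr2 : r ≤ 2 ^ 2 ^ (J + 1) := by rw [SS_succ] at h2; omega
    have h3 := hstep (J + 1) r hr2
    rw [← hNr] at h3
    have h4 := ih (SS (J + 1)) (SS_mono (by omega)) le_rfl
    have h5 := hz (J + 1) r hr2 B hB
    rw [sum_range_succ, h3]
    have h6 : (N : ℝ) = SS (J + 1) + r := by exact_mod_cast hNr
    rw [h6]
    rw [abs_le] at h4 h5 ⊢
    constructor <;> linarith [h4.1, h4.2, h5.1, h5.2]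

lemma sum_weights (J : ℕ) :
    ∑ j ∈ range (J + 1), (4 : ℝ) ^ j / ((j : ℝ) + 2) ^ 2 ≤ 3 * (4 ^ J / ((J : ℝ) + 2) ^ 2) := by
  induction J with
  | zero => norm_num
  | succ J ih =>
    rw [sum_range_succ]
    have hJ : (0 : ℝ) ≤ J := by positivity
    have h4 : (0 : ℝ) < 4 ^ J := by positivity
    have key : 3 * ((4 : ℝ) ^ J / ((J : ℝ) + 2) ^ 2) ≤ 2 * (4 ^ (J + 1) / ((J : ℝ) + 1 + 2) ^ 2) := by
      have e : (4 : ℝ) ^ (J + 1) = 4 ^ J * 4 := pow_succ _ _
      rw [e, ← mul_div_assoc, ← mul_div_assoc, div_le_div_iff₀ (by positivity)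
        (by positivity)]
      have h5 : 3 * ((J : ℝ) + 1 + 2) ^ 2 ≤ 8 * ((J : ℝ) + 2) ^ 2 := by nlinarith
      nlinarith [mul_le_mul_of_nonneg_left h5 h4.le]
    push_cast at *
    linarith

lemma log_lower (N J : ℕ) (hJ : 1 ≤ J) (h : SS J ≤ N) : (4 : ℝ) ^ J ≤ 9 * (Real.log N) ^ 2 := by
  obtain ⟨i, rfl⟩ : ∃ i, J = i + 1 := ⟨J - 1, by omega⟩
  have h1 : 2 ^ 2 ^ i ≤ N := by
    rw [SS_succ] at h; omega
  have h2 : (2 : ℝ) ^ 2 ^ i ≤ N := by exact_mod_cast h1
  have h3 : (2 : ℝ) ^ i * Real.log 2 ≤ Real.log N := by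
    have := Real.log_le_log (by positivity) h2
    rw [Real.log_pow] at this
    push_cast at this
    exact this
  have h4 := Real.log_two_gt_d9
  have h5 : (2 : ℝ) ^ i * (69 / 100) ≤ Real.log N := by
    refine le_trans ?_ h3
    gcongr
    linarith
  have h6 : ((2 : ℝ) ^ i * (69 / 100)) ^ 2 ≤ (Real.log N) ^ 2 := by gcongr
  have h7 : (4 : ℝ) ^ (i + 1) = 4 * (2 ^ i) ^ 2 := by
    rw [pow_succ, ← pow_mul, mul_comm i 2, pow_mul]; norm_num; ring
  rw [h7]
  nlinarith [sq_nonneg ((2 : ℝ) ^ i)]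

lemma SS_upper (J : ℕ) : SS (J + 1) ≤ 2 ^ 2 ^ (J + 1) := by
  induction J with
  | zero => simp [SS]
  | succ J ih =>
    rw [SS_succ]
    have h1 : 2 ^ 2 ^ (J + 1 + 1) = 2 ^ 2 ^ (J + 1) * 2 ^ 2 ^ (J + 1) := by
      rw [← pow_add]; congr 1; rw [pow_succ _ (J + 1)]; ring
    have h2 : 2 ≤ 2 ^ 2 ^ (J + 1) := by
      calc 2 = 2 ^ 1 := by norm_num
        _ ≤ 2 ^ 2 ^ (J + 1) := Nat.pow_le_pow_right (by norm_num) Nat.one_le_two_pow
    rw [h1]
    nlinarith

lemma loglog_upper (N J : ℕ) (hN : 3 ≤ N) (h : N < SS (J + 1)) :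
    0 < Real.log (Real.log N) ∧ Real.log (Real.log N) ≤ (J : ℝ) + 2 := by
  have hN3 : (3 : ℝ) ≤ N := by exact_mod_cast hN
  have hlog1 : 1 < Real.log N := by
    rw [Real.lt_log_iff_exp_lt (by linarith)]
    have := Real.exp_one_lt_d9
    linarith
  refine ⟨Real.log_pos hlog1, ?_⟩
  have h1 : (N : ℝ) ≤ (2 : ℝ) ^ 2 ^ (J + 1) := by
    exact_mod_cast (h.le.trans (SS_upper J))
  have h2 : Real.log N ≤ (2 : ℝ) ^ (J + 1) := by
    have h3 := Real.log_le_log (by linarith) h1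
    rw [Real.log_pow] at h3
    push_cast at h3
    refine h3.trans ?_
    have h4 := Real.log_two_lt_d9
    have h5 : (0 : ℝ) < 2 ^ (J + 1) := by positivity
    nlinarith
  have h3 := Real.log_le_log (by linarith) h2
  rw [Real.log_pow] at h3
  refine h3.trans ?_
  have h4 := Real.log_two_lt_d9
  have h5 : (0 : ℝ) ≤ J := by positivity
  push_cast
  nlinarith

/-- There is a sequence in the unit square with `N D_N = O((log N)^2 / (log log N)^2)`. -/
theorem main : ∃ z : ℕ → Fin 2 → ℝ, InCube z ∧ ∃ C : ℝ, 0 < C ∧ ∀ N : ℕ, 3 ≤ N →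
    ∀ B : Set (Fin 2 → ℝ), IsBox B →
      |(count z N B : ℝ) - N * (MeasureTheory.volume B).toReal|
        ≤ C * (Real.log N) ^ 2 / (Real.log (Real.log N)) ^ 2 := by
  obtain ⟨C, hC, hblock⟩ := block_all
  choose z hz hbd using hblock
  refine ⟨concat z, ?_, 27 * C, by positivity, ?_⟩
  · intro n i
    unfold concat
    exact hz _ _ i
  · intro N hN B hB
    obtain ⟨hJ1, hJ2⟩ := JJ_spec N
    set J := JJ N with hJ
    have hJpos : 1 ≤ J := by
      by_contra h0
      have : J = 0 := by omega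
      rw [this] at hJ2
      simp [SS] at hJ2
      omega
    have h1 := concat_bound z (fun j => C * 4 ^ j / ((j : ℝ) + 2) ^ 2) hbd B hB J N hJ1 hJ2.le
    refine h1.trans ?_
    have h2 : ∑ j ∈ range (J + 1), C * 4 ^ j / ((j : ℝ) + 2) ^ 2
        = C * ∑ j ∈ range (J + 1), (4 : ℝ) ^ j / ((j : ℝ) + 2) ^ 2 := by
      rw [mul_sum]
      apply sum_congr rfl; intro j _; ring
    rw [h2]
    have h3 := sum_weights J
    have h4 := log_lower N J hJpos hJ1
    obtain ⟨h5, h6⟩ := loglog_upper N J hN hJ2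
    calc C * ∑ j ∈ range (J + 1), (4 : ℝ) ^ j / ((j : ℝ) + 2) ^ 2
        ≤ C * (3 * (4 ^ J / ((J : ℝ) + 2) ^ 2)) := by gcongr
      _ ≤ C * (3 * ((9 * (Real.log N) ^ 2) / (Real.log (Real.log N)) ^ 2)) := by gcongr
      _ = 27 * C * (Real.log N) ^ 2 / (Real.log (Real.log N)) ^ 2 := by ring

end Pool.Agent.Helper4.Disc
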